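import Pool.Agent.Lib.MP_a7c449_an.Defs

set_option autoImplicit false

/-!
Elementary facts on `polyNorm` and `numRadius`.
-/

namespace Pool.Agent.Lib.MP_a7c449_an

section

variable {𝕜 : Type*} [RCLike 𝕜] {X : Type*} [NormedAddCommGroup X] [NormedSpace 𝕜 X]

/-- The set in the definition of `polyNorm` is bounded above (by `‖A‖`). -/
theorem polyNorm_bdd {k : ℕ} (A : X [×k]→L[𝕜] X) :
    BddAbove {r : ℝ | ∃ x : X, ‖x‖ ≤ 1 ∧ r = ‖A fun _ => x‖} := by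
  refine ⟨‖A‖, ?_⟩
  rintro r ⟨x, hx, rfl⟩
  refine (A.le_opNorm _).trans ?_
  refine mul_le_of_le_one_right (norm_nonneg _) ?_
  exact Finset.prod_le_one (fun _ _ => norm_nonneg _) (fun _ _ => hx)

theorem polyNorm_nonneg {k : ℕ} (A : X [×k]→L[𝕜] X) : 0 ≤ polyNorm 𝕜 X A := by
  refine Real.sSup_nonneg ?_
  rintro r ⟨x, _, rfl⟩
  exact norm_nonneg _

private theorem apply_smul {k : ℕ} (A : X [×k]→L[𝕜] X) (c : 𝕜) (x : X) :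
    (A fun _ => c • x) = c ^ k • A fun _ => x := by
  have h := A.map_smul_univ (fun _ => c) (fun _ => x)
  simpa using h

/-- Scale: for `x ≠ 0` apply the definition to `‖x‖⁻¹ • x`. -/
theorem norm_poly_le {k : ℕ} (A : X [×k]→L[𝕜] X) (x : X) :
    ‖A fun _ => x‖ ≤ polyNorm 𝕜 X A * ‖x‖ ^ k := by
  by_cases hx : x = 0
  · subst hx
    rcases Nat.eq_zero_or_pos k with rfl | hk
    · rw [pow_zero, mul_one]
      exact le_csSup (polyNorm_bdd A) ⟨0, by simp, rfl⟩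
    · have : Nonempty (Fin k) := ⟨⟨0, hk⟩⟩
      have h0 : (A fun _ => (0 : X)) = 0 := A.map_zero
      rw [h0, norm_zero]
      exact mul_nonneg (polyNorm_nonneg A) (by positivity)
  · have hn : 0 < ‖x‖ := norm_pos_iff.2 hx
    have h1 : ‖A fun _ => ((‖x‖⁻¹ : ℝ) : 𝕜) • x‖ ≤ polyNorm 𝕜 X A := by
      refine le_csSup (polyNorm_bdd A) ⟨((‖x‖⁻¹ : ℝ) : 𝕜) • x, ?_, rfl⟩
      rw [norm_smul, RCLike.norm_ofReal, abs_of_pos (inv_pos.2 hn), inv_mul_cancel₀ hn.ne']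
    rw [apply_smul, norm_smul, norm_pow, RCLike.norm_ofReal, abs_of_pos (inv_pos.2 hn), inv_pow]
      at h1
    rwa [inv_mul_le_iff₀ (by positivity), mul_comm] at h1

theorem polyNorm_le {k : ℕ} (A : X [×k]→L[𝕜] X) (C : ℝ)
    (h : ∀ x : X, ‖x‖ ≤ 1 → ‖A fun _ => x‖ ≤ C) : polyNorm 𝕜 X A ≤ C := by
  refine csSup_le ⟨_, 0, by simp, rfl⟩ ?_
  rintro r ⟨x, hx, rfl⟩
  exact h x hx

theorem exists_lt_norm_poly {k : ℕ} (A : X [×k]→L[𝕜] X) (C : ℝ) (h : C < polyNorm 𝕜 X A) :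
    ∃ x : X, ‖x‖ ≤ 1 ∧ C < ‖A fun _ => x‖ := by
  by_contra hcon
  push Not at hcon
  exact absurd (polyNorm_le A C hcon) (not_le.2 h)

theorem polyNorm_eq_one {k : ℕ} (A : X [×k]→L[𝕜] X) (h : ∀ x : X, ‖x‖ ≤ 1 → ‖A fun _ => x‖ ≤ 1)
    (x : X) (hx : ‖x‖ ≤ 1) (hx1 : 1 ≤ ‖A fun _ => x‖) : polyNorm 𝕜 X A = 1 :=
  le_antisymm (polyNorm_le A 1 h) (hx1.trans (le_csSup (polyNorm_bdd A) ⟨x, hx, rfl⟩))

theorem numRadius_bdd {k : ℕ} (A : X [×k]→L[𝕜] X) :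
    BddAbove {r : ℝ | ∃ (x : X) (f : StrongDual 𝕜 X), ‖x‖ = 1 ∧ ‖f‖ = 1 ∧ f x = 1 ∧
      r = ‖f (A fun _ => x)‖} := by
  refine ⟨polyNorm 𝕜 X A, ?_⟩
  rintro r ⟨x, f, hx, hf, _, rfl⟩
  refine (f.le_opNorm _).trans ?_
  rw [hf, one_mul]
  exact le_csSup (polyNorm_bdd A) ⟨x, hx.le, rfl⟩

theorem numRadius_nonneg {k : ℕ} (A : X [×k]→L[𝕜] X) : 0 ≤ numRadius 𝕜 X A := by
  refine Real.sSup_nonneg ?_
  rintro r ⟨x, f, _, _, _, rfl⟩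
  exact norm_nonneg _

theorem numRadius_le_polyNorm {k : ℕ} (A : X [×k]→L[𝕜] X) : numRadius 𝕜 X A ≤ polyNorm 𝕜 X A := by
  refine Real.sSup_le ?_ (polyNorm_nonneg A)
  rintro r ⟨x, f, hx, hf, _, rfl⟩
  refine (f.le_opNorm _).trans ?_
  rw [hf, one_mul]
  exact le_csSup (polyNorm_bdd A) ⟨x, hx.le, rfl⟩

theorem numRadius_le {k : ℕ} (A : X [×k]→L[𝕜] X) (C : ℝ) (hC : 0 ≤ C)
    (h : ∀ (x : X) (f : StrongDual 𝕜 X), ‖x‖ = 1 → ‖f‖ = 1 → f x = 1 → ‖f (A fun _ => x)‖ ≤ C) :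
    numRadius 𝕜 X A ≤ C := by
  refine Real.sSup_le ?_ hC
  rintro r ⟨x, f, hx, hf, hfx, rfl⟩
  exact h x f hx hf hfx

theorem le_numRadius {k : ℕ} (A : X [×k]→L[𝕜] X) (x : X) (f : StrongDual 𝕜 X) (hx : ‖x‖ = 1)
    (hf : ‖f‖ = 1) (hfx : f x = 1) : ‖f (A fun _ => x)‖ ≤ numRadius 𝕜 X A :=
  le_csSup (numRadius_bdd A) ⟨x, f, hx, hf, hfx, rfl⟩

/-- Weaker hypotheses: `‖x‖ ≤ 1`, `‖f‖ ≤ 1`, `f x = 1` force the norms to be one. -/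
theorem le_numRadius' {k : ℕ} (A : X [×k]→L[𝕜] X) (x : X) (f : StrongDual 𝕜 X) (hx : ‖x‖ ≤ 1)
    (hf : ‖f‖ ≤ 1) (hfx : f x = 1) : ‖f (A fun _ => x)‖ ≤ numRadius 𝕜 X A := by
  have h1 : (1 : ℝ) ≤ ‖f‖ * ‖x‖ := by
    have := f.le_opNorm x
    rwa [hfx, norm_one] at this
  have hx' : 0 ≤ ‖x‖ := norm_nonneg _
  have hf' : 0 ≤ ‖f‖ := norm_nonneg _
  have h2 : ‖x‖ = 1 := by nlinarith
  have h3 : ‖f‖ = 1 := by nlinarith
  exact le_numRadius A x f h2 h3 hfx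

/-- Scaled form. For `x = 0` use `k ≠ 0` (`A.map_zero`-like: `P 0 = 0`); for `x ≠ 0` apply
`le_numRadius` to `‖x‖⁻¹ • x`. -/
theorem norm_apply_poly_le {k : ℕ} (hk : k ≠ 0) (A : X [×k]→L[𝕜] X) (x : X) (f : StrongDual 𝕜 X)
    (hf : ‖f‖ = 1) (hfx : f x = (‖x‖ : 𝕜)) :
    ‖f (A fun _ => x)‖ ≤ numRadius 𝕜 X A * ‖x‖ ^ k := by
  by_cases hx : x = 0
  · subst hx
    have : Nonempty (Fin k) := ⟨⟨0, Nat.pos_of_ne_zero hk⟩⟩
    have h0 : (A fun _ => (0 : X)) = 0 := A.map_zero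
    rw [h0, map_zero, norm_zero]
    exact mul_nonneg (numRadius_nonneg A) (by positivity)
  · have hn : 0 < ‖x‖ := norm_pos_iff.2 hx
    have h1 := le_numRadius A (((‖x‖⁻¹ : ℝ) : 𝕜) • x) f (by
      rw [norm_smul, RCLike.norm_ofReal, abs_of_pos (inv_pos.2 hn), inv_mul_cancel₀ hn.ne']) hf (by
      rw [map_smul, hfx, smul_eq_mul, ← RCLike.ofReal_mul, inv_mul_cancel₀ hn.ne',
        RCLike.ofReal_one])
    rw [apply_smul, map_smul, norm_smul, norm_pow, RCLike.norm_ofReal, abs_of_pos (inv_pos.2 hn),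
      inv_pow] at h1
    rwa [inv_mul_le_iff₀ (by positivity), mul_comm] at h1

end

end Pool.Agent.Lib.MP_a7c449_an
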