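import Pool.Agent.Lib.MP_a7c449_an.Defs

set_option autoImplicit false

/-!
The part at infinity of a functional on a space with coordinates.
-/

namespace Pool.Agent.Lib.MP_a7c449_an

open Filter Topology

variable {𝕜 : Type*} [RCLike 𝕜] {Y : Type*} [NormedAddCommGroup Y] [NormedSpace 𝕜 Y] {I : Type*}

/-- Delete the coordinates in `F`. -/
noncomputable def cut (C : Coord 𝕜 Y I) (F : Finset I) (w : Y) : Y := w - ∑ i ∈ F, C.δ i w • C.e i

open Classical in
private lemma biA_delta (C : Coord 𝕜 Y I) (i j : I) : C.δ i (C.e j) = if i = j then 1 else 0 := by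
  by_cases h : i = j
  · subst h
    rw [if_pos rfl, C.self]
  · rw [if_neg h, C.other i j h]

open Classical in
private lemma biA_sum (C : Coord 𝕜 Y I) (F : Finset I) (a : I → 𝕜) (i : I) :
    C.δ i (∑ j ∈ F, a j • C.e j) = if i ∈ F then a i else 0 := by
  rw [map_sum]
  simp only [map_smul, smul_eq_mul, biA_delta, mul_ite, mul_one, mul_zero]
  rw [Finset.sum_ite_eq]

theorem coord_cut_mem (C : Coord 𝕜 Y I) (F : Finset I) (w : Y) (i : I) (hi : i ∈ F) :
    C.δ i (cut C F w) = 0 := by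
  classical
  rw [cut, map_sub, biA_sum, if_pos hi, sub_self]

theorem coord_cut_not_mem (C : Coord 𝕜 Y I) (F : Finset I) (w : Y) (i : I) (hi : i ∉ F) :
    C.δ i (cut C F w) = C.δ i w := by
  classical
  rw [cut, map_sub, biA_sum, if_neg hi, sub_zero]

/-- Test `φ` on `∑_{i ∈ F} θ_i • e i` with unimodular `θ_i` (or zero), which has norm at most one by
`C.le_of`. -/
theorem sum_coeff_le (C : Coord 𝕜 Y I) (φ : StrongDual 𝕜 Y) (F : Finset I) :
    ∑ i ∈ F, ‖φ (C.e i)‖ ≤ ‖φ‖ := by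
  classical
  let θ : I → 𝕜 := fun i => (starRingEnd 𝕜) (φ (C.e i)) / (‖φ (C.e i)‖ : 𝕜)
  have h1 : ∀ i, θ i * φ (C.e i) = ((‖φ (C.e i)‖ : ℝ) : 𝕜) := by
    intro i
    by_cases h : φ (C.e i) = 0
    · simp [h]
    · have h' : ((‖φ (C.e i)‖ : ℝ) : 𝕜) ≠ 0 := by
        rw [Ne, RCLike.ofReal_eq_zero, norm_eq_zero]
        exact h
      show (starRingEnd 𝕜) (φ (C.e i)) / (‖φ (C.e i)‖ : 𝕜) * φ (C.e i) = _
      rw [div_mul_eq_mul_div, RCLike.conj_mul, sq, mul_div_assoc, div_self h', mul_one]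
  have h2 : ∀ i, ‖θ i‖ ≤ 1 := by
    intro i
    show ‖(starRingEnd 𝕜) (φ (C.e i)) / (‖φ (C.e i)‖ : 𝕜)‖ ≤ 1
    rw [norm_div, RCLike.norm_conj, RCLike.norm_ofReal, abs_norm]
    exact div_self_le_one _
  have h3 : ‖∑ i ∈ F, θ i • C.e i‖ ≤ 1 := by
    refine C.le_of _ 1 zero_le_one fun i => ?_
    rw [biA_sum]
    split_ifs
    · exact h2 i
    · simp
  have h4 : φ (∑ i ∈ F, θ i • C.e i) = ((∑ i ∈ F, ‖φ (C.e i)‖ : ℝ) : 𝕜) := by
    rw [map_sum, RCLike.ofReal_sum]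
    refine Finset.sum_congr rfl fun i _ => ?_
    rw [map_smul, smul_eq_mul, h1]
  have h5 := φ.le_opNorm (∑ i ∈ F, θ i • C.e i)
  rw [h4, RCLike.norm_ofReal] at h5
  calc ∑ i ∈ F, ‖φ (C.e i)‖ ≤ |∑ i ∈ F, ‖φ (C.e i)‖| := le_abs_self _
    _ ≤ ‖φ‖ * ‖∑ i ∈ F, θ i • C.e i‖ := h5
    _ ≤ ‖φ‖ * 1 := mul_le_mul_of_nonneg_left h3 (norm_nonneg _)
    _ = ‖φ‖ := mul_one _

theorem summable_coeff (C : Coord 𝕜 Y I) (φ : StrongDual 𝕜 Y) :
    Summable fun i => ‖φ (C.e i)‖ := by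
  exact summable_of_sum_le (fun i => norm_nonneg _) (sum_coeff_le C φ)

private lemma biA_bound (C : Coord 𝕜 Y I) (φ : StrongDual 𝕜 Y) (w : Y) (i : I) :
    ‖C.δ i w * φ (C.e i)‖ ≤ ‖w‖ * ‖φ (C.e i)‖ := by
  rw [norm_mul]
  exact mul_le_mul_of_nonneg_right (C.norm_le i w) (norm_nonneg _)

theorem summable_coeff_mul (C : Coord 𝕜 Y I) (φ : StrongDual 𝕜 Y) (w : Y) :
    Summable fun i => C.δ i w * φ (C.e i) := by
  exact Summable.of_norm_bounded ((summable_coeff C φ).mul_left ‖w‖) (biA_bound C φ w)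

theorem norm_tsum_le (C : Coord 𝕜 Y I) (φ : StrongDual 𝕜 Y) (w : Y) :
    ‖∑' i, C.δ i w * φ (C.e i)‖ ≤ ‖w‖ * ‖φ‖ := by
  have h1 : ‖∑' i, C.δ i w * φ (C.e i)‖ ≤ ∑' i, ‖w‖ * ‖φ (C.e i)‖ :=
    tsum_of_norm_bounded ((summable_coeff C φ).mul_left ‖w‖).hasSum (biA_bound C φ w)
  rw [tsum_mul_left] at h1
  exact h1.trans (mul_le_mul_of_nonneg_left
    ((summable_coeff C φ).tsum_le_of_sum_le (sum_coeff_le C φ)) (norm_nonneg _))

/-- `sing C w φ = φ w - ∑' i, (δ i w) φ (e i)`, the value at `w` of the part of `φ` at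
infinity. -/
noncomputable def sing (C : Coord 𝕜 Y I) (w : Y) : StrongDual 𝕜 (StrongDual 𝕜 Y) :=
  LinearMap.mkContinuous
    { toFun := fun φ => φ w - ∑' i, C.δ i w * φ (C.e i)
      map_add' := by
        intro φ ψ
        have h : (fun i => C.δ i w * (φ + ψ) (C.e i)) =
            fun i => C.δ i w * φ (C.e i) + C.δ i w * ψ (C.e i) := by
          funext i
          rw [ContinuousLinearMap.add_apply, mul_add]
        rw [h, (summable_coeff_mul C φ w).tsum_add (summable_coeff_mul C ψ w),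
          ContinuousLinearMap.add_apply]
        ring
      map_smul' := by
        intro c φ
        have h : (fun i => C.δ i w * (c • φ) (C.e i)) =
            fun i => c * (C.δ i w * φ (C.e i)) := by
          funext i
          rw [ContinuousLinearMap.smul_apply, smul_eq_mul]
          ring
        rw [h, tsum_mul_left, ContinuousLinearMap.smul_apply, RingHom.id_apply, smul_eq_mul,
          smul_eq_mul, mul_sub] }
    (2 * ‖w‖) (by
      intro φ
      have h1 := φ.le_opNorm w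
      have h2 := norm_tsum_le C φ w
      have h3 : ‖φ w - ∑' i, C.δ i w * φ (C.e i)‖ ≤ ‖φ w‖ + ‖∑' i, C.δ i w * φ (C.e i)‖ :=
        norm_sub_le _ _
      show ‖φ w - ∑' i, C.δ i w * φ (C.e i)‖ ≤ 2 * ‖w‖ * ‖φ‖
      linarith [mul_comm ‖φ‖ ‖w‖])

theorem sing_apply (C : Coord 𝕜 Y I) (w : Y) (φ : StrongDual 𝕜 Y) :
    sing C w φ = φ w - ∑' i, C.δ i w * φ (C.e i) := rfl

theorem sing_eq_of_vanish (C : Coord 𝕜 Y I) (w : Y) (φ : StrongDual 𝕜 Y) (h : ∀ i, φ (C.e i) = 0) :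
    sing C w φ = φ w := by
  rw [sing_apply]
  simp [h]

theorem tendsto_cut (C : Coord 𝕜 Y I) (w : Y) (φ : StrongDual 𝕜 Y) :
    Tendsto (fun F : Finset I => φ (cut C F w)) atTop (𝓝 (sing C w φ)) := by
  have h := (summable_coeff_mul C φ w).hasSum
  rw [HasSum, SummationFilter.unconditional_filter] at h
  have h1 := h.const_sub (φ w)
  rw [sing_apply]
  refine h1.congr fun F => ?_
  rw [cut, map_sub, map_sum]
  simp only [map_smul, smul_eq_mul]

theorem cut_add (C : Coord 𝕜 Y I) (F : Finset I) (w w' : Y) :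
    cut C F (w + w') = cut C F w + cut C F w' := by
  simp only [cut, map_add, add_smul, Finset.sum_add_distrib]
  abel

theorem cut_smul (C : Coord 𝕜 Y I) (F : Finset I) (c : 𝕜) (w : Y) :
    cut C F (c • w) = c • cut C F w := by
  simp only [cut, map_smul, smul_eq_mul, smul_sub, Finset.smul_sum, smul_smul]

end Pool.Agent.Lib.MP_a7c449_an
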