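import Pool.Agent.Lib.MP_a7c449_an.BiA

set_option autoImplicit false

/-!
Cutting off finitely many coordinates.
-/

namespace Pool.Agent.Lib.MP_a7c449_an

open Filter Topology

variable {𝕜 : Type*} [RCLike 𝕜] {Y : Type*} [NormedAddCommGroup Y] [NormedSpace 𝕜 Y] {I : Type*}

/-- For `F` containing the finite set of `M.small y (ε)`: coordinates in `F` are those of `y`; outside
`F` either `δ i` kills the plane and the coordinate is `δ i y`, or the coordinate is
`(δ i y - δ i (p y • s + q y • t)) + δ i (x₁ • s + x₂ • t)`, at most `ε + r`. -/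
theorem cut_norm_le {C : Coord 𝕜 Y I} {D : PlaneData 𝕜} (M : MPlane C D) (y : Y) (x₁ x₂ : 𝕜)
    (r ε : ℝ) (hε : 0 < ε) (hy : ‖y‖ ≤ r) (hx : D.InBall x₁ x₂ r) :
    ∃ F₀ : Finset I, ∀ F : Finset I, F₀ ⊆ F →
      ‖y - cut C F (M.p y • M.s + M.q y • M.t) + cut C F (x₁ • M.s + x₂ • M.t)‖ ≤ r + ε := by
  obtain ⟨F₀, hF₀⟩ := M.small y ε hε
  have hr : 0 ≤ r := (norm_nonneg y).trans hy
  refine ⟨F₀, fun F hF => C.le_of _ _ (by linarith) fun i => ?_⟩
  rw [map_add, map_sub]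
  have hyi : ‖C.δ i y‖ ≤ r := (C.norm_le i y).trans hy
  by_cases hi : i ∈ F
  · rw [coord_cut_mem C F _ i hi, coord_cut_mem C F _ i hi, sub_zero, add_zero]
    linarith
  · rw [coord_cut_not_mem C F _ i hi, coord_cut_not_mem C F _ i hi]
    rcases hF₀ i (fun h => hi (hF h)) with ⟨hs, ht⟩ | h
    · have h0 : ∀ a b : 𝕜, C.δ i (a • M.s + b • M.t) = 0 := by
        intro a b
        rw [map_add, map_smul, map_smul, hs, ht, smul_zero, smul_zero, add_zero]
      rw [h0, h0, sub_zero, add_zero]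
      linarith
    · have hw : ‖C.δ i (x₁ • M.s + x₂ • M.t)‖ ≤ r :=
        (C.norm_le i _).trans ((M.norm_iff x₁ x₂ r).2 hx)
      calc ‖C.δ i y - C.δ i (M.p y • M.s + M.q y • M.t) + C.δ i (x₁ • M.s + x₂ • M.t)‖
          ≤ ‖C.δ i y - C.δ i (M.p y • M.s + M.q y • M.t)‖ + ‖C.δ i (x₁ • M.s + x₂ • M.t)‖ :=
            norm_add_le _ _
        _ ≤ ε + r := add_le_add h hw
        _ = r + ε := add_comm _ _

end Pool.Agent.Lib.MP_a7c449_an
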