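import Pool.Agent.Lib.MP_a7c449_an.BiB

set_option autoImplicit false

/-!
Splitting of functionals.
-/

namespace Pool.Agent.Lib.MP_a7c449_an

open Filter Topology

variable {𝕜 : Type*} [RCLike 𝕜] {Y : Type*} [NormedAddCommGroup Y] [NormedSpace 𝕜 Y] {I : Type*}

/-- Apply `φ` in `cut_norm_le`, let `F` grow (`tendsto_cut`) and then `ε → 0`. -/
theorem dual_split {C : Coord 𝕜 Y I} {D : PlaneData 𝕜} (M : MPlane C D) (φ : StrongDual 𝕜 Y)
    (y : Y) (x₁ x₂ : 𝕜) (r : ℝ) (hy : ‖y‖ ≤ r) (hx : D.InBall x₁ x₂ r) :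
    ‖φ y - (M.p y * sing C M.s φ + M.q y * sing C M.t φ) +
      (x₁ * sing C M.s φ + x₂ * sing C M.t φ)‖ ≤ r * ‖φ‖ := by
  have hcut : ∀ (a b : 𝕜) (F : Finset I), φ (cut C F (a • M.s + b • M.t)) =
      a * φ (cut C F M.s) + b * φ (cut C F M.t) := by
    intro a b F
    rw [cut_add, cut_smul, cut_smul, map_add, map_smul, map_smul, smul_eq_mul, smul_eq_mul]
  have hlim : ∀ a b : 𝕜, Tendsto (fun F : Finset I => φ (cut C F (a • M.s + b • M.t))) atTop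
      (𝓝 (a * sing C M.s φ + b * sing C M.t φ)) := by
    intro a b
    simp only [hcut]
    exact ((tendsto_cut C M.s φ).const_mul a).add ((tendsto_cut C M.t φ).const_mul b)
  have hall : Tendsto (fun F : Finset I =>
      ‖φ y - φ (cut C F (M.p y • M.s + M.q y • M.t)) + φ (cut C F (x₁ • M.s + x₂ • M.t))‖) atTop
      (𝓝 ‖φ y - (M.p y * sing C M.s φ + M.q y * sing C M.t φ) +
        (x₁ * sing C M.s φ + x₂ * sing C M.t φ)‖) :=
    ((tendsto_const_nhds.sub (hlim _ _)).add (hlim _ _)).norm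
  apply le_of_forall_pos_le_add
  intro ε hε
  have hp : 0 < ‖φ‖ + 1 := by positivity
  obtain ⟨F₀, hF⟩ := cut_norm_le M y x₁ x₂ r (ε / (‖φ‖ + 1)) (div_pos hε hp) hy hx
  apply le_of_tendsto hall
  filter_upwards [eventually_ge_atTop F₀] with F hFF
  have h1 := hF F hFF
  have h2 : φ y - φ (cut C F (M.p y • M.s + M.q y • M.t)) + φ (cut C F (x₁ • M.s + x₂ • M.t)) =
      φ (y - cut C F (M.p y • M.s + M.q y • M.t) + cut C F (x₁ • M.s + x₂ • M.t)) := by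
    rw [map_add, map_sub]
  rw [h2]
  calc ‖φ (y - cut C F (M.p y • M.s + M.q y • M.t) + cut C F (x₁ • M.s + x₂ • M.t))‖
      ≤ ‖φ‖ * ‖y - cut C F (M.p y • M.s + M.q y • M.t) + cut C F (x₁ • M.s + x₂ • M.t)‖ :=
        φ.le_opNorm _
    _ ≤ ‖φ‖ * (r + ε / (‖φ‖ + 1)) := mul_le_mul_of_nonneg_left h1 (norm_nonneg _)
    _ = r * ‖φ‖ + ε * (‖φ‖ / (‖φ‖ + 1)) := by ring
    _ ≤ r * ‖φ‖ + ε * 1 := by
        gcongr
        rw [div_le_one hp]
        linarith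
    _ = r * ‖φ‖ + ε := by ring

end Pool.Agent.Lib.MP_a7c449_an
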