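import Pool.Agent.Lib.MP_a7c449_an.BiC

set_option autoImplicit false

/-!
The L-decomposition of functionals.
-/

namespace Pool.Agent.Lib.MP_a7c449_an

open Filter Topology

variable {𝕜 : Type*} [RCLike 𝕜] {Y : Type*} [NormedAddCommGroup Y] [NormedSpace 𝕜 Y] {I : Type*}

private theorem biD_phase (a b : 𝕜) : ∃ c : 𝕜, ‖c‖ = 1 ∧ ‖a + c * b‖ = ‖a‖ + ‖b‖ := by
  by_cases ha : a = 0
  · exact ⟨1, norm_one, by simp [ha]⟩
  by_cases hb : b = 0
  · exact ⟨1, norm_one, by simp [hb]⟩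
  have ha' : 0 < ‖a‖ := norm_pos_iff.2 ha
  have hb' : 0 < ‖b‖ := norm_pos_iff.2 hb
  have hak : ((‖a‖ : ℝ) : 𝕜) ≠ 0 := RCLike.ofReal_ne_zero.2 ha'.ne'
  have hbk : ((‖b‖ : ℝ) : 𝕜) ≠ 0 := RCLike.ofReal_ne_zero.2 hb'.ne'
  refine ⟨a / (‖a‖ : ℝ) * ((‖b‖ : ℝ) / b), ?_, ?_⟩
  · rw [norm_mul, norm_div, norm_div, RCLike.norm_ofReal, RCLike.norm_ofReal, abs_norm, abs_norm,
      div_self ha'.ne', div_self hb'.ne', one_mul]
  · have h1 : a + a / (‖a‖ : ℝ) * ((‖b‖ : ℝ) / b) * b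
        = a * (((1 + ‖b‖ / ‖a‖ : ℝ)) : 𝕜) := by
      push_cast
      field_simp
    rw [h1, norm_mul, RCLike.norm_ofReal, abs_of_pos (by positivity)]
    field_simp

/-- `L`-decomposition: with `ψ = φ - sing s φ • p - sing t φ • q`,
`‖ψ‖ + |x₁ sing s φ + x₂ sing t φ| ≤ ‖φ‖` for `(x₁, x₂)` in the unit ball of the plane. From
`dual_split` with `r = 1` by choosing the phase of `(x₁, x₂)` (`InBall` is invariant under unimodular
scalars) so that the two numbers have the same phase; then take the supremum over `y`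
(`ContinuousLinearMap.opNorm_le_of_unit_norm`/`sSup_unitClosedBall_eq_norm`-type lemmas). -/
theorem l_split {C : Coord 𝕜 Y I} {D : PlaneData 𝕜} (M : MPlane C D) (φ : StrongDual 𝕜 Y)
    (x₁ x₂ : 𝕜) (hx : D.InBall x₁ x₂ 1) :
    ‖φ - sing C M.s φ • M.p - sing C M.t φ • M.q‖ + ‖x₁ * sing C M.s φ + x₂ * sing C M.t φ‖
      ≤ ‖φ‖ := by
  set S := sing C M.s φ with hS
  set T := sing C M.t φ with hT
  set w := x₁ * S + x₂ * T with hw
  have key : ∀ y : Y, ‖y‖ ≤ 1 → ‖(φ - S • M.p - T • M.q) y‖ + ‖w‖ ≤ ‖φ‖ := by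
    intro y hy
    obtain ⟨c, hc, hcw⟩ := biD_phase ((φ - S • M.p - T • M.q) y) w
    have hball : D.InBall (c * x₁) (c * x₂) 1 := by
      intro m
      have : D.α m * (c * x₁) + D.β m * (c * x₂) = c * (D.α m * x₁ + D.β m * x₂) := by ring
      rw [this, norm_mul, hc, one_mul]
      exact hx m
    have h1 := dual_split M φ y (c * x₁) (c * x₂) 1 hy hball
    rw [← hcw]
    refine le_trans (le_of_eq ?_) (h1.trans (le_of_eq (one_mul _)))
    congr 1
    simp only [ContinuousLinearMap.sub_apply, ContinuousLinearMap.smul_apply, smul_eq_mul, hw]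
    ring
  have hw0 : ‖w‖ ≤ ‖φ‖ := by
    have := key 0 (by simp)
    simpa using this
  have hle : ‖φ - S • M.p - T • M.q‖ ≤ ‖φ‖ - ‖w‖ := by
    refine ContinuousLinearMap.opNorm_le_of_unit_norm (sub_nonneg.2 hw0) ?_
    intro y hy
    have := key y hy.le
    linarith
  linarith

end Pool.Agent.Lib.MP_a7c449_an
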