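import Pool.Agent.Lib.MP_a7c449_an.Defs

set_option autoImplicit false

/-!
M-summands isometric to a plane.
-/

namespace Pool.Agent.Lib.MP_a7c449_an

open Filter Topology

variable {𝕜 : Type*} [RCLike 𝕜] {Y : Type*} [NormedAddCommGroup Y] [NormedSpace 𝕜 Y] {I : Type*}

/-- A copy of the plane `D` in `W` with a projection of norm one such that replacing the component of
a vector in the plane by any other vector of norm at most `r` keeps the norm at most `r`
(an M-summand). -/
structure BiPlane (D : PlaneData 𝕜) (W : Type*) [NormedAddCommGroup W] [NormedSpace 𝕜 W] where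
  /-- first basis vector -/
  S : W
  /-- second basis vector -/
  T : W
  /-- first coordinate -/
  P : StrongDual 𝕜 W
  /-- second coordinate -/
  Q : StrongDual 𝕜 W
  PS : P S = 1
  PT : P T = 0
  QS : Q S = 0
  QT : Q T = 1
  inBall : ∀ ξ : W, D.InBall (P ξ) (Q ξ) ‖ξ‖
  split : ∀ (ξ : W) (x y : 𝕜) (r : ℝ), ‖ξ‖ ≤ r → D.InBall x y r →
    ‖ξ - (P ξ • S + Q ξ • T) + (x • S + y • T)‖ ≤ r

end Pool.Agent.Lib.MP_a7c449_an
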