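import Pool.Agent.Lib.MP_a7c449_an.BiD
import Pool.Agent.Lib.MP_a7c449_an.BiPlane

set_option autoImplicit false

/-!
A plane in a space with coordinates becomes an M-summand of the bidual.
-/

namespace Pool.Agent.Lib.MP_a7c449_an

open Filter Topology

variable {𝕜 : Type*} [RCLike 𝕜] {Y : Type*} [NormedAddCommGroup Y] [NormedSpace 𝕜 Y] {I : Type*}

/-- `ξ ↦ (ξ p, ξ q)`, `S = sing s`, `T = sing t`. For `inBall`: the functional
`α m • p + β m • q` has norm at most one by `M.proj_le` and `M.norm_iff`. For `split` evaluate at `φ`: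
`ξ (φ - sing s φ • p - sing t φ • q) + (x sing s φ + y sing t φ)`, use `l_split` with
`(x/r, y/r)` if `r > 0`; if `r = 0` then `ξ = 0` and `x = y = 0` by `D.lower`. -/
theorem MPlane.bidual {C : Coord 𝕜 Y I} {D : PlaneData 𝕜} (M : MPlane C D) :
    Nonempty (BiPlane D (StrongDual 𝕜 (StrongDual 𝕜 Y))) := by
  have hpq : ∀ m, ‖D.α m • M.p + D.β m • M.q‖ ≤ 1 := by
    intro m
    refine ContinuousLinearMap.opNorm_le_bound _ zero_le_one (fun y => ?_)
    have h1 := (M.norm_iff (M.p y) (M.q y) ‖y‖).mp (M.proj_le y) m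
    simpa [one_mul] using h1
  refine ⟨{ S := sing C M.s
            T := sing C M.t
            P := ContinuousLinearMap.apply 𝕜 𝕜 M.p
            Q := ContinuousLinearMap.apply 𝕜 𝕜 M.q
            PS := ?_
            PT := ?_
            QS := ?_
            QT := ?_
            inBall := ?_
            split := ?_ }⟩
  · rw [ContinuousLinearMap.apply_apply, sing_eq_of_vanish C M.s M.p M.pe, M.ps]
  · rw [ContinuousLinearMap.apply_apply, sing_eq_of_vanish C M.t M.p M.pe, M.pt]
  · rw [ContinuousLinearMap.apply_apply, sing_eq_of_vanish C M.s M.q M.qe, M.qs]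
  · rw [ContinuousLinearMap.apply_apply, sing_eq_of_vanish C M.t M.q M.qe, M.qt]
  · intro ξ m
    rw [ContinuousLinearMap.apply_apply, ContinuousLinearMap.apply_apply]
    have h1 : D.α m * ξ M.p + D.β m * ξ M.q = ξ (D.α m • M.p + D.β m • M.q) := by
      rw [map_add, map_smul, map_smul, smul_eq_mul, smul_eq_mul]
    rw [h1]
    calc ‖ξ (D.α m • M.p + D.β m • M.q)‖ ≤ ‖ξ‖ * ‖D.α m • M.p + D.β m • M.q‖ := ξ.le_opNorm _
      _ ≤ ‖ξ‖ * 1 := mul_le_mul_of_nonneg_left (hpq m) (norm_nonneg ξ)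
      _ = ‖ξ‖ := mul_one _
  · intro ξ x y r hξ hxy
    rw [ContinuousLinearMap.apply_apply, ContinuousLinearMap.apply_apply]
    have hr0 : 0 ≤ r := (norm_nonneg ξ).trans hξ
    refine ContinuousLinearMap.opNorm_le_bound _ hr0 (fun φ => ?_)
    have h1 : (ξ - (ξ M.p • sing C M.s + ξ M.q • sing C M.t) +
        (x • sing C M.s + y • sing C M.t)) φ =
        ξ (φ - sing C M.s φ • M.p - sing C M.t φ • M.q) +
          (x * sing C M.s φ + y * sing C M.t φ) := by
      simp only [add_apply, sub_apply, smul_apply, map_sub, map_smul, smul_eq_mul]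
      ring
    rw [h1]
    rcases hr0.eq_or_lt with hr | hr
    · subst hr
      have hξ0 : ∀ f, ξ f = 0 := by
        intro f
        have h2 : ‖ξ f‖ ≤ 0 * ‖f‖ := ξ.le_of_opNorm_le hξ f
        rw [zero_mul] at h2
        exact norm_le_zero_iff.mp h2
      obtain ⟨hx0, hy0⟩ := D.lower x y 0 hxy
      have hx1 : x = 0 := norm_le_zero_iff.mp hx0
      have hy1 : y = 0 := norm_le_zero_iff.mp hy0
      rw [hξ0, hx1, hy1]
      simp
    · have hin : D.InBall (x / (r : 𝕜)) (y / (r : 𝕜)) 1 := by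
        intro m
        have h2 := hxy m
        have h3 : D.α m * (x / (r : 𝕜)) + D.β m * (y / (r : 𝕜)) =
            (D.α m * x + D.β m * y) / (r : 𝕜) := by ring
        rw [h3, norm_div, RCLike.norm_ofReal, abs_of_pos hr, div_le_one hr]
        exact h2
      have h4 := l_split M φ (x / (r : 𝕜)) (y / (r : 𝕜)) hin
      have hr' : (r : 𝕜) ≠ 0 := by
        exact_mod_cast hr.ne'
      have h5 : x * sing C M.s φ + y * sing C M.t φ =
          (r : 𝕜) * (x / (r : 𝕜) * sing C M.s φ + y / (r : 𝕜) * sing C M.t φ) := by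
        field_simp
      have h6 : ‖x * sing C M.s φ + y * sing C M.t φ‖ =
          r * ‖x / (r : 𝕜) * sing C M.s φ + y / (r : 𝕜) * sing C M.t φ‖ := by
        rw [h5, norm_mul, RCLike.norm_ofReal, abs_of_pos hr]
      calc ‖ξ (φ - sing C M.s φ • M.p - sing C M.t φ • M.q) +
            (x * sing C M.s φ + y * sing C M.t φ)‖
          ≤ ‖ξ (φ - sing C M.s φ • M.p - sing C M.t φ • M.q)‖ +
            ‖x * sing C M.s φ + y * sing C M.t φ‖ := norm_add_le _ _
        _ ≤ r * ‖φ - sing C M.s φ • M.p - sing C M.t φ • M.q‖ +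
            r * ‖x / (r : 𝕜) * sing C M.s φ + y / (r : 𝕜) * sing C M.t φ‖ := by
            refine add_le_add ?_ h6.le
            exact (ξ.le_opNorm _).trans (mul_le_mul_of_nonneg_right hξ (norm_nonneg _))
        _ = r * (‖φ - sing C M.s φ • M.p - sing C M.t φ • M.q‖ +
            ‖x / (r : 𝕜) * sing C M.s φ + y / (r : 𝕜) * sing C M.t φ‖) := by ring
        _ ≤ r * ‖φ‖ := mul_le_mul_of_nonneg_left h4 hr.le

end Pool.Agent.Lib.MP_a7c449_an
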