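import Mathlib

set_option autoImplicit false

/-!
The space `c₀ = C₀(ℕ, 𝕜)`.
-/

namespace Pool.Agent.Lib.MP_a7c449_an

open scoped ZeroAtInfty

universe u

variable {𝕜 : Type*} [RCLike 𝕜]

/-- Evaluation at `n` on `c₀ = C₀(ℕ, 𝕜)`. -/
noncomputable def c0eval (n : ℕ) : C₀(ℕ, 𝕜) →L[𝕜] 𝕜 :=
  LinearMap.mkContinuous
    { toFun := fun z => z n
      map_add' := by
        intro x y
        rfl
      map_smul' := by
        intro c x
        rfl } 1 (by
    intro x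
    rw [one_mul, ← ZeroAtInftyContinuousMap.norm_toBCF_eq_norm]
    exact x.toBCF.norm_coe_le_norm n)

theorem c0eval_apply (n : ℕ) (z : C₀(ℕ, 𝕜)) : c0eval n z = z n := rfl

theorem norm_coord_le (z : C₀(ℕ, 𝕜)) (n : ℕ) : ‖z n‖ ≤ ‖z‖ := by
  rw [← ZeroAtInftyContinuousMap.norm_toBCF_eq_norm]
  exact z.toBCF.norm_coe_le_norm n

theorem c0_norm_le (z : C₀(ℕ, 𝕜)) (C : ℝ) (hC : 0 ≤ C) (h : ∀ n, ‖z n‖ ≤ C) : ‖z‖ ≤ C := by
  rw [← ZeroAtInftyContinuousMap.norm_toBCF_eq_norm]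
  exact (BoundedContinuousFunction.norm_le hC).2 h

/-- Elements of `c₀` tend to zero. -/
theorem c0_tendsto (z : C₀(ℕ, 𝕜)) : Filter.Tendsto (fun n => z n) Filter.atTop (nhds 0) := by
  have h := z.zero_at_infty'
  rw [Filter.cocompact_eq_cofinite, Nat.cofinite_eq_atTop] at h
  exact h

theorem c0_finite (z : C₀(ℕ, 𝕜)) (ε : ℝ) (hε : 0 < ε) : {n : ℕ | ε < ‖z n‖}.Finite := by
  have h1 := (c0_tendsto z).norm
  rw [norm_zero] at h1
  have h2 := h1.eventually (gt_mem_nhds hε)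
  obtain ⟨N, hN⟩ := Filter.eventually_atTop.1 h2
  refine (Finset.finite_toSet (Finset.range N)).subset fun n hn => ?_
  rw [Finset.mem_coe, Finset.mem_range]
  by_contra h
  push Not at h
  exact absurd (hN n h) (not_lt.2 (le_of_lt hn))

/-- A null sequence as an element of `c₀`. -/
theorem exists_c0 (x : ℕ → 𝕜) (hx : Filter.Tendsto x Filter.atTop (nhds 0)) :
    ∃ z : C₀(ℕ, 𝕜), ∀ n, z n = x n := by
  refine ⟨⟨⟨x, continuous_of_discreteTopology⟩, ?_⟩, fun n => rfl⟩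
  rw [Filter.cocompact_eq_cofinite, Nat.cofinite_eq_atTop]
  exact hx

/-- The unit vector `n` of `c₀`. -/
theorem exists_c0single (n : ℕ) : ∃ z : C₀(ℕ, 𝕜), ∀ m, z m = if m = n then 1 else 0 := by
  refine exists_c0 (fun m => if m = n then 1 else 0) ?_
  refine tendsto_const_nhds.congr' ?_
  filter_upwards [Filter.eventually_gt_atTop n] with m hm
  rw [if_neg (by omega)]

end Pool.Agent.Lib.MP_a7c449_an
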