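import Mathlib

set_option autoImplicit false

/-!
Growth of real polynomials bounded on `[-1, 1]` (Chebyshev).
-/

namespace Pool.Agent.Lib.MP_a7c449_an

open Polynomial

/-- `T_k(x) ≤ 2^(k-1) x^k` for `x ≥ 1`, `k ≥ 1`: from `T_{k+1} = 2 x T_k - T_{k-1}` and
`T_{k-1}(x) ≥ 0` for `x ≥ 1`. -/
theorem cheb_le (k : ℕ) (hk : k ≠ 0) (x : ℝ) (hx : 1 ≤ x) :
    (Chebyshev.T ℝ (k : ℤ)).eval x ≤ 2 ^ (k - 1) * x ^ k := by
  obtain ⟨n, rfl⟩ := Nat.exists_eq_succ_of_ne_zero hk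
  clear hk
  induction n with
  | zero => simp
  | succ n ih =>
    have h1 : ((n + 1 + 1 : ℕ) : ℤ) = (n : ℤ) + 2 := by push_cast; ring
    have h2 : ((n + 1 : ℕ) : ℤ) = (n : ℤ) + 1 := by push_cast; ring
    have h3 : n + 1 + 1 - 1 = (n + 1 - 1) + 1 := by omega
    have ih' : (Chebyshev.T ℝ ((n : ℤ) + 1)).eval x ≤ 2 ^ (n + 1 - 1) * x ^ (n + 1) := by
      rw [← h2]; exact ih
    have h4 : 1 ≤ (Chebyshev.T ℝ (n : ℤ)).eval x := Chebyshev.one_le_eval_T_real _ hx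
    show (Chebyshev.T ℝ ((n + 1 + 1 : ℕ) : ℤ)).eval x ≤ 2 ^ (n + 1 + 1 - 1) * x ^ (n + 1 + 1)
    rw [h1, Chebyshev.T_add_two, h3]
    simp only [eval_sub, eval_mul, eval_X, eval_ofNat]
    have h5 : 2 * x * (Chebyshev.T ℝ ((n : ℤ) + 1)).eval x ≤
        2 * x * (2 ^ (n + 1 - 1) * x ^ (n + 1)) :=
      mul_le_mul_of_nonneg_left ih' (by linarith)
    calc 2 * x * (Chebyshev.T ℝ ((n : ℤ) + 1)).eval x - (Chebyshev.T ℝ (n : ℤ)).eval x
        ≤ 2 * x * (2 ^ (n + 1 - 1) * x ^ (n + 1)) := by linarith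
      _ = 2 ^ (n + 1 - 1 + 1) * x ^ (n + 1 + 1) := by ring

/-- The polynomial with given coefficients. -/
private noncomputable def pol {k : ℕ} (d : Fin (k + 1) → ℝ) : ℝ[X] :=
  ∑ r : Fin (k + 1), C (d r) * X ^ (r : ℕ)

private theorem pol_eval {k : ℕ} (d : Fin (k + 1) → ℝ) (x : ℝ) :
    (pol d).eval x = ∑ r : Fin (k + 1), d r * x ^ (r : ℕ) := by
  simp [pol, eval_finsetSum]

private theorem pol_degree {k : ℕ} (d : Fin (k + 1) → ℝ) : (pol d).degree ≤ k := by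
  unfold pol
  refine (degree_sum_le _ _).trans ?_
  refine Finset.sup_le fun r _ => ?_
  refine (degree_C_mul_X_pow_le _ _).trans ?_
  have := r.2
  exact_mod_cast Nat.lt_succ_iff.mp this

private theorem pol_coeff {k : ℕ} (d : Fin (k + 1) → ℝ) : (pol d).coeff k = d (Fin.last k) := by
  unfold pol
  rw [finsetSum_coeff]
  simp only [coeff_C_mul_X_pow]
  rw [Finset.sum_eq_single (Fin.last k)]
  · simp
  · intro r _ hr
    rw [if_neg]
    intro h
    exact hr (Fin.ext (by simp [← h]))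
  · intro h; exact absurd (Finset.mem_univ _) h

private theorem bnd {k : ℕ} (c : Fin (k + 1) → ℝ) (v : ℝ) (hv : 0 < v)
    (h : ∀ m : ℝ, |m| ≤ 1 → |∑ r : Fin (k + 1), m ^ (r : ℕ) * c r| ≤ v) (s t : ℝ)
    (hs : |s| = 1) (ht : |t| = 1) :
    ∀ x ∈ Set.Icc (-1 : ℝ) 1, |(pol (fun r : Fin (k + 1) => t * (s ^ (r : ℕ) * c r) / v)).eval x|
      ≤ 1 := by
  intro x hx
  have h1 : (pol (fun r : Fin (k + 1) => t * (s ^ (r : ℕ) * c r) / v)).eval x =
      t * (∑ r : Fin (k + 1), (s * x) ^ (r : ℕ) * c r) / v := by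
    rw [pol_eval, Finset.mul_sum, Finset.sum_div]
    refine Finset.sum_congr rfl fun r _ => ?_
    rw [mul_pow]
    ring
  have h2 : |s * x| ≤ 1 := by
    rw [abs_mul, hs, one_mul]
    exact abs_le.mpr hx
  rw [h1, abs_div, abs_mul, ht, one_mul, abs_of_pos hv, div_le_one hv]
  exact h _ h2

private theorem growth_pos (k : ℕ) (hk : k ≠ 0) (c : Fin (k + 1) → ℝ) (v : ℝ) (hv : 0 < v)
    (h : ∀ m : ℝ, |m| ≤ 1 → |∑ r : Fin (k + 1), m ^ (r : ℕ) * c r| ≤ v) (a : ℝ) (ha : |a| ≤ 1) :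
    |∑ r : Fin (k + 1), a ^ (k - (r : ℕ)) * c r| ≤ 2 ^ (k - 1) * v := by
  by_cases ha0 : a = 0
  · subst ha0
    have h1 : ∑ r : Fin (k + 1), (0 : ℝ) ^ (k - (r : ℕ)) * c r = c (Fin.last k) := by
      rw [Finset.sum_eq_single (Fin.last k)]
      · simp
      · intro r _ hr
        have : k - (r : ℕ) ≠ 0 := by
          have h2 := r.2
          have h3 : (r : ℕ) ≠ k := fun h => hr (Fin.ext (by simp [h]))
          omega
        rw [zero_pow this, zero_mul]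
      · intro h; exact absurd (Finset.mem_univ _) h
    rw [h1]
    have key : ∀ t : ℝ, |t| = 1 → t * c (Fin.last k) ≤ 2 ^ (k - 1) * v := by
      intro t ht
      have h2 := Chebyshev.coeff_le_of_forall_abs_le_one (pol_degree _)
        (bnd c v hv h 1 t (by simp) ht)
      rw [pol_coeff, div_le_iff₀ hv] at h2
      simpa using h2
    rw [abs_le']
    refine ⟨by simpa using key 1 (by simp), by simpa using key (-1) (by simp)⟩
  · have hapos : 0 < |a| := abs_pos.mpr ha0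
    obtain ⟨s, hs, has⟩ : ∃ s : ℝ, |s| = 1 ∧ a⁻¹ = s * |a|⁻¹ := by
      rcases lt_or_gt_of_ne ha0 with h1 | h1
      · refine ⟨-1, by simp, ?_⟩
        rw [abs_of_neg h1, inv_neg]; ring
      · refine ⟨1, by simp, ?_⟩
        rw [abs_of_pos h1]; ring
    have hx : 1 ≤ |a|⁻¹ := (one_le_inv₀ hapos).mpr ha
    have hsum : ∑ r : Fin (k + 1), a ^ (k - (r : ℕ)) * c r =
        a ^ k * ∑ r : Fin (k + 1), (s * |a|⁻¹) ^ (r : ℕ) * c r := by
      rw [Finset.mul_sum]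
      refine Finset.sum_congr rfl fun r _ => ?_
      rw [← has, pow_sub₀ _ ha0 (Nat.lt_succ_iff.mp r.2), inv_pow]
      ring
    have key : ∀ t : ℝ, |t| = 1 →
        t * (∑ r : Fin (k + 1), (s * |a|⁻¹) ^ (r : ℕ) * c r) ≤ v * (2 ^ (k - 1) * |a|⁻¹ ^ k) := by
      intro t ht
      have h2 := Chebyshev.eval_iterate_derivative_le_of_forall_abs_le_one (k := 0) hx
        (pol_degree _) (bnd c v hv h s t hs ht)
      simp only [Function.iterate_zero, id_eq] at h2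
      have h3 := h2.trans (cheb_le k hk _ hx)
      have h4 : (pol (fun r : Fin (k + 1) => t * (s ^ (r : ℕ) * c r) / v)).eval |a|⁻¹ =
          t * (∑ r : Fin (k + 1), (s * |a|⁻¹) ^ (r : ℕ) * c r) / v := by
        rw [pol_eval, Finset.mul_sum, Finset.sum_div]
        refine Finset.sum_congr rfl fun r _ => ?_
        rw [mul_pow]
        ring
      rw [h4, div_le_iff₀ hv] at h3
      linarith
    have habs : |∑ r : Fin (k + 1), (s * |a|⁻¹) ^ (r : ℕ) * c r| ≤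
        v * (2 ^ (k - 1) * |a|⁻¹ ^ k) := by
      rw [abs_le']
      refine ⟨by simpa using key 1 (by simp), by simpa using key (-1) (by simp)⟩
    rw [hsum, abs_mul, abs_pow]
    calc |a| ^ k * |∑ r : Fin (k + 1), (s * |a|⁻¹) ^ (r : ℕ) * c r|
        ≤ |a| ^ k * (v * (2 ^ (k - 1) * |a|⁻¹ ^ k)) :=
          mul_le_mul_of_nonneg_left habs (by positivity)
      _ = (|a| * |a|⁻¹) ^ k * (2 ^ (k - 1) * v) := by rw [mul_pow]; ring
      _ = 2 ^ (k - 1) * v := by rw [mul_inv_cancel₀ hapos.ne', one_pow, one_mul]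

/-- `h(m) = ∑ c_r m^r` is bounded by `v` on `[-1, 1]`. For `a ≠ 0` the number is `a^k h(1/a)`, and
`|h(x)| ≤ v T_k(|x|) ≤ v 2^(k-1) |x|^k` for `|x| ≥ 1`
(`Polynomial.Chebyshev.eval_iterate_derivative_le_of_forall_abs_le_one` with no derivative, applied to
`± h / v` and `h(-x)`; if `v = 0` then `h = 0`). For `a = 0` the number is `c_k`, bounded by
`Polynomial.Chebyshev.coeff_le_of_forall_abs_le_one` (or by continuity in `a`). -/
theorem cheb_growth (k : ℕ) (hk : k ≠ 0) (c : Fin (k + 1) → ℝ) (v : ℝ)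
    (h : ∀ m : ℝ, |m| ≤ 1 → |∑ r : Fin (k + 1), m ^ (r : ℕ) * c r| ≤ v) (a : ℝ) (ha : |a| ≤ 1) :
    |∑ r : Fin (k + 1), a ^ (k - (r : ℕ)) * c r| ≤ 2 ^ (k - 1) * v := by
  have hv : 0 ≤ v := (abs_nonneg _).trans (h 0 (by simp))
  refine le_of_forall_pos_le_add fun e he => ?_
  have h1 : (0 : ℝ) < e / 2 ^ (k - 1) := by positivity
  have h2 := growth_pos k hk c (v + e / 2 ^ (k - 1)) (by linarith)
    (fun m hm => (h m hm).trans (by linarith)) a ha
  have h3 : (2 : ℝ) ^ (k - 1) * (v + e / 2 ^ (k - 1)) = 2 ^ (k - 1) * v + e := by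
    field_simp
  rw [h3] at h2
  exact h2

end Pool.Agent.Lib.MP_a7c449_an
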