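import Pool.Agent.Lib.MP_a7c449_an.ChebA

set_option autoImplicit false

/-!
The homogenised Chebyshev polynomial.
-/

namespace Pool.Agent.Lib.MP_a7c449_an

open Polynomial

private theorem chebB_sum (k : ℕ) (m : ℝ) :
    ∑ r : Fin (k + 1), m ^ (r : ℕ) * (Chebyshev.T ℝ (k : ℤ)).coeff r =
      (Chebyshev.T ℝ (k : ℤ)).eval m := by
  have h1 : (Chebyshev.T ℝ (k : ℤ)).natDegree < k + 1 := by
    rw [Chebyshev.natDegree_T]; simp
  rw [eval_eq_sum_range' h1, ← Fin.sum_univ_eq_sum_range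
    (fun i => (Chebyshev.T ℝ (k : ℤ)).coeff i * m ^ i) (k + 1)]
  exact Finset.sum_congr rfl fun r _ => mul_comm _ _

/-- `c r` = the coefficients of `T_k`. For `l ≠ 0` the sum is `l^k T_k(m / l)`. If `|m| ≤ |l| = 1` it is at
most one in modulus; in general, for `|l|, |m| ≤ 1`, write it as `s^k` times the value at
`(l/s, m/s)`, `s = max |l| |m|`, and use `cheb_growth`/`cheb_le` when `|l| < |m|`
(`cheb_growth` with `v = 1`, `a = l / m`). -/
theorem exists_cheb (k : ℕ) (hk : k ≠ 0) :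
    ∃ c : Fin (k + 1) → ℝ,
      (∀ l m : ℝ, |l| = 1 → |m| ≤ 1 →
        |∑ r : Fin (k + 1), l ^ (k - (r : ℕ)) * m ^ (r : ℕ) * c r| ≤ 1) ∧
      (∀ l m : ℝ, |l| ≤ 1 → |m| ≤ 1 →
        |∑ r : Fin (k + 1), l ^ (k - (r : ℕ)) * m ^ (r : ℕ) * c r| ≤ 2 ^ (k - 1)) ∧
      c (Fin.last k) = 2 ^ (k - 1) := by
  have hT : ∀ m : ℝ, |m| ≤ 1 →
      |∑ r : Fin (k + 1), m ^ (r : ℕ) * (Chebyshev.T ℝ (k : ℤ)).coeff r| ≤ 1 := by
    intro m hm
    rw [chebB_sum]
    exact Chebyshev.abs_eval_T_real_le_one _ hm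
  -- the case `|m| ≤ |l|`, `l ≠ 0`
  have hA : ∀ l m : ℝ, l ≠ 0 → |m| ≤ |l| →
      |∑ r : Fin (k + 1), l ^ (k - (r : ℕ)) * m ^ (r : ℕ) * (Chebyshev.T ℝ (k : ℤ)).coeff r| ≤
        |l| ^ k := by
    intro l m hl hm
    have hl' : 0 < |l| := abs_pos.mpr hl
    have h1 : ∑ r : Fin (k + 1), l ^ (k - (r : ℕ)) * m ^ (r : ℕ) * (Chebyshev.T ℝ (k : ℤ)).coeff r =
        l ^ k * ∑ r : Fin (k + 1), (m / l) ^ (r : ℕ) * (Chebyshev.T ℝ (k : ℤ)).coeff r := by
      rw [Finset.mul_sum]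
      refine Finset.sum_congr rfl fun r _ => ?_
      rw [pow_sub₀ _ hl (Nat.lt_succ_iff.mp r.2), div_pow]
      ring
    rw [h1, abs_mul, abs_pow]
    have h2 : |m / l| ≤ 1 := by
      rw [abs_div, div_le_one hl']
      exact hm
    exact mul_le_of_le_one_right (by positivity) (hT _ h2)
  refine ⟨fun r => (Chebyshev.T ℝ (k : ℤ)).coeff r, ?_, ?_, ?_⟩
  · intro l m hl hm
    have hl0 : l ≠ 0 := by
      intro h
      rw [h] at hl
      simp at hl
    have h1 := hA l m hl0 (by rw [hl]; exact hm)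
    rw [hl, one_pow] at h1
    exact h1
  · intro l m hl hm
    have hone : (1 : ℝ) ≤ 2 ^ (k - 1) := one_le_pow₀ (by norm_num)
    rcases le_or_gt |m| |l| with hml | hml
    · by_cases hl0 : l = 0
      · have hm0 : m = 0 := by
          rw [hl0, abs_zero] at hml
          exact abs_eq_zero.mp (le_antisymm hml (abs_nonneg _))
        have : ∑ r : Fin (k + 1), l ^ (k - (r : ℕ)) * m ^ (r : ℕ) *
            (Chebyshev.T ℝ (k : ℤ)).coeff r = 0 := by
          refine Finset.sum_eq_zero fun r _ => ?_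
          rw [hl0, hm0, ← pow_add, Nat.sub_add_cancel (Nat.lt_succ_iff.mp r.2), zero_pow hk,
            zero_mul]
        rw [this, abs_zero]
        linarith
      · exact (hA l m hl0 hml).trans ((pow_le_one₀ (abs_nonneg _) hl).trans hone)
    · have hm' : 0 < |m| := lt_of_le_of_lt (abs_nonneg _) hml
      have hm0 : m ≠ 0 := abs_pos.mp hm'
      have h1 : ∑ r : Fin (k + 1), l ^ (k - (r : ℕ)) * m ^ (r : ℕ) *
            (Chebyshev.T ℝ (k : ℤ)).coeff r =
          m ^ k * ∑ r : Fin (k + 1), (l / m) ^ (k - (r : ℕ)) *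
            (Chebyshev.T ℝ (k : ℤ)).coeff r := by
        rw [Finset.mul_sum]
        refine Finset.sum_congr rfl fun r _ => ?_
        have h2 : m ^ k = m ^ (k - (r : ℕ)) * m ^ (r : ℕ) := by
          rw [← pow_add, Nat.sub_add_cancel (Nat.lt_succ_iff.mp r.2)]
        rw [h2, div_pow]
        have h3 : m ^ (k - (r : ℕ)) ≠ 0 := pow_ne_zero _ hm0
        field_simp
      have h2 : |l / m| ≤ 1 := by
        rw [abs_div, div_le_one hm']
        exact hml.le
      have h3 := cheb_growth k hk (fun r => (Chebyshev.T ℝ (k : ℤ)).coeff r) 1 hT (l / m) h2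
      rw [mul_one] at h3
      show |∑ r : Fin (k + 1), l ^ (k - (r : ℕ)) * m ^ (r : ℕ) *
            (Chebyshev.T ℝ (k : ℤ)).coeff r| ≤ 2 ^ (k - 1)
      rw [h1, abs_mul, abs_pow]
      calc |m| ^ k * |∑ r : Fin (k + 1), (l / m) ^ (k - (r : ℕ)) *
            (Chebyshev.T ℝ (k : ℤ)).coeff r|
          ≤ 1 * 2 ^ (k - 1) := mul_le_mul (pow_le_one₀ (abs_nonneg _) hm) h3 (abs_nonneg _)
            (by norm_num)
        _ = 2 ^ (k - 1) := one_mul _
  · show (Chebyshev.T ℝ (k : ℤ)).coeff ((Fin.last k : Fin (k + 1)) : ℕ) = 2 ^ (k - 1)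
    have h1 := Chebyshev.leadingCoeff_T ℝ (k : ℤ)
    rw [leadingCoeff, Chebyshev.natDegree_T] at h1
    simpa using h1

end Pool.Agent.Lib.MP_a7c449_an
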