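import Mathlib

set_option autoImplicit false

/-!
Coefficients of homogeneous polynomials in two variables.
-/

namespace Pool.Agent.Lib.MP_a7c449_an

variable {Y : Type*} [NormedAddCommGroup Y] [NormedSpace ℝ Y]

/-- `P (l e + m z)` is a homogeneous polynomial in `(l, m)` with vector coefficients
(expand with `MultilinearMap.map_add_univ`, group by cardinality). -/
theorem exists_coeff {k : ℕ} (A : Y [×k]→L[ℝ] Y) (e z : Y) :
    ∃ c : Fin (k + 1) → Y, ∀ l m : ℝ, (A fun _ => l • e + m • z) =
      ∑ r : Fin (k + 1), (l ^ (k - (r : ℕ)) * m ^ (r : ℕ)) • c r := by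
  classical
  have hlt : ∀ s : Finset (Fin k), k - s.card < k + 1 := fun s => by omega
  refine ⟨fun r => ∑ s : Finset (Fin k) with (⟨k - s.card, hlt s⟩ : Fin (k + 1)) = r,
    A (s.piecewise (fun _ => e) (fun _ => z)), fun l m => ?_⟩
  have h1 : (A fun _ => l • e + m • z) =
      ∑ s : Finset (Fin k), A (s.piecewise (fun _ => l • e) (fun _ => m • z)) :=
    A.toMultilinearMap.map_add_univ (fun _ => l • e) (fun _ => m • z)
  rw [h1, ← Finset.sum_fiberwise Finset.univ
    (fun s : Finset (Fin k) => (⟨k - s.card, hlt s⟩ : Fin (k + 1)))]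
  refine Finset.sum_congr rfl fun r _ => ?_
  rw [Finset.smul_sum]
  refine Finset.sum_congr rfl fun s hs => ?_
  rw [Finset.mem_filter] at hs
  have hr : (r : ℕ) = k - s.card := by rw [← hs.2]
  have hsk : s.card ≤ k := by
    have := Finset.card_le_univ s
    rwa [Fintype.card_fin] at this
  have h2 : s.piecewise (fun _ => l • e) (fun _ => m • z) =
      fun i => (if i ∈ s then l else m) • s.piecewise (fun _ => e) (fun _ => z) i := by
    funext i
    by_cases hi : i ∈ s
    · rw [Finset.piecewise_eq_of_mem _ _ _ hi, Finset.piecewise_eq_of_mem _ _ _ hi, if_pos hi]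
    · rw [Finset.piecewise_eq_of_notMem _ _ _ hi, Finset.piecewise_eq_of_notMem _ _ _ hi,
        if_neg hi]
  have h3 : ∏ i : Fin k, (if i ∈ s then l else m) = l ^ (k - (r : ℕ)) * m ^ (r : ℕ) := by
    rw [Finset.prod_ite, Finset.prod_const, Finset.prod_const]
    have e1 : (Finset.univ.filter (fun i => i ∈ s)).card = k - (r : ℕ) := by
      rw [Finset.filter_mem_eq_inter, Finset.univ_inter]
      omega
    have e2 : (Finset.univ.filter (fun i => i ∉ s)).card = (r : ℕ) := by
      rw [Finset.filter_notMem_eq_sdiff, ← Finset.compl_eq_univ_sdiff, Finset.card_compl,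
        Fintype.card_fin, hr]
    rw [e1, e2]
  rw [h2, ← h3]
  exact A.map_smul_univ (fun i => if i ∈ s then l else m) _

end Pool.Agent.Lib.MP_a7c449_an
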