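import Mathlib

set_option autoImplicit false

/-!
Coefficients of homogeneous polynomials in two variables.
-/

namespace Pool.Agent.Lib.MP_a7c449_an

/-- Coefficients of a real polynomial of degree at most `k` bounded by its supremum on `[-1,1]`
(invert a Vandermonde matrix at `k+1` points of `[-1,1]`). -/
theorem exists_coeff_bound (k : ℕ) :
    ∃ M : ℝ, 0 < M ∧ ∀ (c : Fin (k + 1) → ℝ) (v : ℝ),
      (∀ m : ℝ, |m| ≤ 1 → |∑ r : Fin (k + 1), m ^ (r : ℕ) * c r| ≤ v) →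
      ∑ r : Fin (k + 1), |c r| ≤ M * v := by
  classical
  let p : Fin (k + 1) → ℝ := fun i => (i : ℝ) / (k + 1)
  have hk : (0 : ℝ) < (k : ℝ) + 1 := by positivity
  have hp : ∀ i, |p i| ≤ 1 := by
    intro i
    have h1 : (i : ℝ) < k + 1 := by exact_mod_cast i.2
    rw [abs_of_nonneg (by positivity)]
    rw [div_le_one hk]
    exact h1.le
  have hinj : Function.Injective p := by
    intro i j h
    have h2 : (i : ℝ) / ((k : ℝ) + 1) = (j : ℝ) / (k + 1) := h
    rw [div_left_inj' hk.ne'] at h2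
    exact Fin.ext (by exact_mod_cast h2)
  let W : Matrix (Fin (k + 1)) (Fin (k + 1)) ℝ := Matrix.vandermonde p
  have hdet : IsUnit W.det := isUnit_iff_ne_zero.2 (Matrix.det_vandermonde_ne_zero_iff.2 hinj)
  refine ⟨1 + ∑ r, ∑ i, |W⁻¹ r i|, by positivity, fun c v hc => ?_⟩
  have hv : 0 ≤ v := (abs_nonneg _).trans (hc 0 (by simp))
  have hy : ∀ i, |(W.mulVec c) i| ≤ v := by
    intro i
    have := hc (p i) (hp i)
    simpa [W, Matrix.mulVec, dotProduct, Matrix.vandermonde_apply] using this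
  have hcW : c = W⁻¹.mulVec (W.mulVec c) := by
    rw [Matrix.mulVec_mulVec, Matrix.nonsing_inv_mul W hdet, Matrix.one_mulVec]
  have hle : ∀ r, |c r| ≤ (∑ i, |W⁻¹ r i|) * v := by
    intro r
    have h1 : c r = ∑ i, W⁻¹ r i * (W.mulVec c) i := by
      conv_lhs => rw [hcW]
      rfl
    rw [h1, Finset.sum_mul]
    refine (Finset.abs_sum_le_sum_abs _ _).trans (Finset.sum_le_sum fun i _ => ?_)
    rw [abs_mul]
    exact mul_le_mul_of_nonneg_left (hy i) (abs_nonneg _)
  calc ∑ r, |c r| ≤ ∑ r, (∑ i, |W⁻¹ r i|) * v := Finset.sum_le_sum fun r _ => hle r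
    _ = (∑ r, ∑ i, |W⁻¹ r i|) * v := by rw [Finset.sum_mul]
    _ ≤ (1 + ∑ r, ∑ i, |W⁻¹ r i|) * v := by nlinarith

end Pool.Agent.Lib.MP_a7c449_an
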