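import Pool.Agent.Lib.MP_a7c449_an.ConDefs

set_option autoImplicit false

/-!
Values of the functionals on unit vectors.
-/

namespace Pool.Agent.Lib.MP_a7c449_an

open scoped ZeroAtInfty

universe u

theorem exists_bijection : Nonempty (Idx ⊕ ℕ ≃ ℕ) :=
  ⟨Denumerable.eqv (Idx ⊕ ℕ)⟩

section

variable {𝕜 : Type} [RCLike 𝕜] {X : Type u} [NormedAddCommGroup X] [NormedSpace 𝕜 X]
variable (j : C₀(ℕ, 𝕜) →L[𝕜] X) (R : X →L[𝕜] C₀(ℕ, 𝕜)) (h : ℕ → StrongDual 𝕜 X)
variable (D : ℕ → PlaneData 𝕜) (K : Idx ⊕ ℕ ≃ ℕ)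

theorem co_un (hR : ∀ z, R (j z) = z) (n m : ℕ) :
    co R n (un j m) = if n = m then (1 : 𝕜) else 0 := by
  unfold co un
  rw [ContinuousLinearMap.comp_apply, hR, c0eval_apply]
  exact (exists_c0single (𝕜 := 𝕜) m).choose_spec n

theorem lim_inr_un (hR : ∀ z, R (j z) = z) (m n : ℕ) :
    lim j R h D K (Sum.inr m) (un j n) = 0 := by
  unfold lim un
  simp only [ContinuousLinearMap.comp_apply, sub_apply,
    ContinuousLinearMap.id_apply]
  rw [hR, sub_self, map_zero]

/-- The limit functionals vanish on the isolated unit vectors. -/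
theorem lim_un_inl (hR : ∀ z, R (j z) = z) (a : Jdx) (i : Idx) :
    lim j R h D K a (un j (K (Sum.inl i))) = 0 := by
  rcases a with km | m
  · have h1 : ∀ n : ℕ, co R (K (Sum.inr n)) (un j (K (Sum.inl i))) = 0 := by
      intro n
      rw [co_un j R hR, if_neg]
      intro e
      have := K.injective e
      simp at this
    show ((D km.1).α km.2 • co R (K (Sum.inr (2 * km.1))) +
      (D km.1).β km.2 • co R (K (Sum.inr (2 * km.1 + 1)))) (un j (K (Sum.inl i))) = 0
    rw [add_apply, smul_apply,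
      smul_apply, h1, h1, smul_zero, smul_zero, add_zero]
  · exact lim_inr_un j R h D K hR m _

theorem gg_un_inl (hR : ∀ z, R (j z) = z) (i i' : Idx) :
    gg j R h D K i (un j (K (Sum.inl i'))) = if i = i' then (1 : 𝕜) else 0 := by
  unfold gg
  rw [add_apply, lim_un_inl j R h D K hR, add_zero, co_un j R hR]
  by_cases hi : i = i'
  · rw [if_pos hi, hi, if_pos rfl]
  · rw [if_neg hi, if_neg]
    intro e
    exact hi (Sum.inl.inj (K.injective e))

end

end Pool.Agent.Lib.MP_a7c449_an
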