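import Pool.Agent.Lib.MP_a7c449_an.ConDefs

set_option autoImplicit false

/-!
Limits of the functionals.
-/

namespace Pool.Agent.Lib.MP_a7c449_an

open scoped ZeroAtInfty

universe u

section

variable {𝕜 : Type} [RCLike 𝕜] {X : Type u} [NormedAddCommGroup X] [NormedSpace 𝕜 X]
variable (j : C₀(ℕ, 𝕜) →L[𝕜] X) (R : X →L[𝕜] C₀(ℕ, 𝕜)) (h : ℕ → StrongDual 𝕜 X)
variable (D : ℕ → PlaneData 𝕜) (K : Idx ⊕ ℕ ≃ ℕ)

/-- Only finitely many isolated coordinates exceed `ε`. -/
theorem finite_iso (x : X) (ε : ℝ) (hε : 0 < ε) : {i : Idx | ε < ‖co R (K (Sum.inl i)) x‖}.Finite := by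
  have h1 := c0_finite (R x) ε hε
  have hinj : Function.Injective fun i : Idx => K (Sum.inl i) :=
    K.injective.comp Sum.inl_injective
  have h2 := Set.Finite.preimage (f := fun i : Idx => K (Sum.inl i)) hinj.injOn h1
  exact h2

/-- Along `n → ∞` the functionals `g (n, a)` tend to the limit functional `a`: a bound for all
`|g i x|` is a bound for `|lim a x|`. -/
theorem lim_le (x : X) (C : ℝ) (hC : ∀ i, ‖gg j R h D K i x‖ ≤ C) (a : Jdx) :
    ‖lim j R h D K a x‖ ≤ C := by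
  refine le_of_forall_pos_le_add fun ε hε => ?_
  have hfin := finite_iso R K x ε hε
  have hinj : Function.Injective fun n : ℕ => ((n, a) : Idx) := fun n m hnm =>
    congrArg Prod.fst hnm
  have h2 : {n : ℕ | ε < ‖co R (K (Sum.inl ((n, a) : Idx))) x‖}.Finite :=
    Set.Finite.preimage (f := fun n : ℕ => ((n, a) : Idx))
      (s := {i : Idx | ε < ‖co R (K (Sum.inl i)) x‖}) hinj.injOn hfin
  obtain ⟨n, hn⟩ := h2.exists_notMem
  have hn' : ‖co R (K (Sum.inl ((n, a) : Idx))) x‖ ≤ ε := not_lt.mp hn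
  have h3 := hC (n, a)
  have h4 : lim j R h D K a x = gg j R h D K (n, a) x - co R (K (Sum.inl ((n, a) : Idx))) x := by
    simp [gg]
  rw [h4]
  exact (norm_sub_le _ _).trans (add_le_add h3 hn')

end

end Pool.Agent.Lib.MP_a7c449_an
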