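import Pool.Agent.Lib.MP_a7c449_an.ConB

set_option autoImplicit false

/-!
Equivalence of the norms.
-/

namespace Pool.Agent.Lib.MP_a7c449_an

open scoped ZeroAtInfty

universe u

section

variable {𝕜 : Type} [RCLike 𝕜] {X : Type u} [NormedAddCommGroup X] [NormedSpace 𝕜 X]
variable (j : C₀(ℕ, 𝕜) →L[𝕜] X) (R : X →L[𝕜] C₀(ℕ, 𝕜)) (h : ℕ → StrongDual 𝕜 X)
variable (D : ℕ → PlaneData 𝕜) (K : Idx ⊕ ℕ ≃ ℕ)

private theorem ConC_co (n : ℕ) (x : X) : ‖co R n x‖ ≤ ‖R‖ * ‖x‖ :=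
  (norm_coord_le (R x) n).trans (R.le_opNorm x)

theorem gg_upper (hh : ∀ m, ‖h m‖ ≤ 1) (i : Idx) (x : X) :
    ‖gg j R h D K i x‖ ≤ (3 * ‖R‖ + (1 + ‖j‖ * ‖R‖)) * ‖x‖ := by
  have h1 := ConC_co R (K (Sum.inl i)) x
  have e1 : gg j R h D K i x = co R (K (Sum.inl i)) x + lim j R h D K i.2 x := rfl
  have hx := norm_nonneg x
  have hR := norm_nonneg R
  have hj := norm_nonneg j
  have hRx : 0 ≤ ‖R‖ * ‖x‖ := mul_nonneg hR hx
  have hjRx : 0 ≤ ‖j‖ * ‖R‖ * ‖x‖ := mul_nonneg (mul_nonneg hj hR) hx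
  rw [e1]
  refine (norm_add_le _ _).trans ?_
  rcases hi : i.2 with km | m
  · have e2 : lim j R h D K (Sum.inl km) x =
        (D km.1).α km.2 * co R (K (Sum.inr (2 * km.1))) x +
          (D km.1).β km.2 * co R (K (Sum.inr (2 * km.1 + 1))) x := rfl
    have h2 := ConC_co R (K (Sum.inr (2 * km.1))) x
    have h3 := ConC_co R (K (Sum.inr (2 * km.1 + 1))) x
    have h4 : ‖(D km.1).α km.2 * co R (K (Sum.inr (2 * km.1))) x‖ ≤ ‖R‖ * ‖x‖ := by
      rw [norm_mul]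
      exact (mul_le_of_le_one_left (norm_nonneg _) ((D km.1).hα _)).trans h2
    have h5 : ‖(D km.1).β km.2 * co R (K (Sum.inr (2 * km.1 + 1))) x‖ ≤ ‖R‖ * ‖x‖ := by
      rw [norm_mul]
      exact (mul_le_of_le_one_left (norm_nonneg _) ((D km.1).hβ _)).trans h3
    have h6 : ‖lim j R h D K (Sum.inl km) x‖ ≤ ‖R‖ * ‖x‖ + ‖R‖ * ‖x‖ := by
      rw [e2]
      exact (norm_add_le _ _).trans (add_le_add h4 h5)
    nlinarith
  · have e2 : lim j R h D K (Sum.inr m) x = h m (x - j (R x)) := rfl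
    have h2 : ‖h m (x - j (R x))‖ ≤ ‖x - j (R x)‖ := by
      refine ((h m).le_opNorm _).trans ?_
      exact mul_le_of_le_one_left (norm_nonneg _) (hh m)
    have h3 : ‖j (R x)‖ ≤ ‖j‖ * (‖R‖ * ‖x‖) :=
      (j.le_opNorm _).trans (mul_le_mul_of_nonneg_left (R.le_opNorm x) hj)
    have h4 : ‖x - j (R x)‖ ≤ ‖x‖ + ‖j‖ * (‖R‖ * ‖x‖) :=
      (norm_sub_le _ _).trans (add_le_add le_rfl h3)
    rw [e2]
    nlinarith

/-- From `lim_le`: all limit functionals are at most `C`; so the isolated coordinates are at most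
`2 C`, the coordinates of the planes at most `C` (`PlaneData.lower`), hence `‖R x‖ ≤ 2 C`
(every `n` is `K` of something), and `‖x - j R x‖ ≤ C` by the norming sequence `h`. -/
theorem gg_lower (hn : ∀ (x : X) (C : ℝ), (∀ m, ‖h m x‖ ≤ C) → ‖x‖ ≤ C) (x : X) (C : ℝ)
    (hC : ∀ i, ‖gg j R h D K i x‖ ≤ C) : ‖x‖ ≤ (2 * ‖j‖ + 1) * C := by
  have hC0 : 0 ≤ C := (norm_nonneg _).trans (hC (0, Sum.inr 0))
  have hlim := lim_le j R h D K x C hC
  have hiso : ∀ i : Idx, ‖co R (K (Sum.inl i)) x‖ ≤ 2 * C := by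
    intro i
    have e1 : co R (K (Sum.inl i)) x = gg j R h D K i x - lim j R h D K i.2 x := by
      have e2 : gg j R h D K i x = co R (K (Sum.inl i)) x + lim j R h D K i.2 x := rfl
      rw [e2, add_sub_cancel_right]
    rw [e1]
    refine (norm_sub_le _ _).trans ?_
    have h1 := hC i
    have h2 := hlim i.2
    linarith
  have hpl : ∀ k : ℕ, ‖co R (K (Sum.inr (2 * k))) x‖ ≤ C ∧ ‖co R (K (Sum.inr (2 * k + 1))) x‖ ≤ C := by
    intro k
    refine (D k).lower _ _ C fun m => ?_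
    exact hlim (Sum.inl (k, m))
  have hRx : ‖R x‖ ≤ 2 * C := by
    refine c0_norm_le (R x) (2 * C) (by linarith) fun n => ?_
    obtain ⟨s, rfl⟩ := K.surjective n
    rcases s with i | n'
    · exact hiso i
    · rcases Nat.even_or_odd' n' with ⟨k, rfl | rfl⟩
      · have := (hpl k).1
        exact this.trans (by linarith)
      · have := (hpl k).2
        exact this.trans (by linarith)
  have hres : ‖x - j (R x)‖ ≤ C := by
    refine hn _ C fun m => ?_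
    exact hlim (Sum.inr m)
  have hjR : ‖j (R x)‖ ≤ ‖j‖ * (2 * C) :=
    (j.le_opNorm _).trans (mul_le_mul_of_nonneg_left hRx (norm_nonneg j))
  calc ‖x‖ = ‖(x - j (R x)) + j (R x)‖ := by rw [sub_add_cancel]
    _ ≤ ‖x - j (R x)‖ + ‖j (R x)‖ := norm_add_le _ _
    _ ≤ C + ‖j‖ * (2 * C) := add_le_add hres hjR
    _ = (2 * ‖j‖ + 1) * C := by ring

end

end Pool.Agent.Lib.MP_a7c449_an
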