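import Pool.Agent.Lib.MP_a7c449_an.Family
import Pool.Agent.Lib.MP_a7c449_an.C0

set_option autoImplicit false

/-!
The family of functionals on a space `X` with a complemented copy of `c₀`.

`R : X → c₀` and `j : c₀ → X` with `R ∘ j = id`. The coordinates of `c₀` are split by a bijection
`K : Idx ⊕ ℕ ≃ ℕ` into the isolated coordinates (indexed by `Idx = ℕ × J`) and the planes
(coordinates `2k`, `2k+1` of the second part).
-/

namespace Pool.Agent.Lib.MP_a7c449_an

open scoped ZeroAtInfty

universe u

/-- Indices of the limit functionals: `(k, m)` the `m`-th functional of the plane `k`, or `m` the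
`m`-th functional on the complement of `c₀`. -/
abbrev Jdx : Type := (ℕ × ℕ) ⊕ ℕ

/-- Indices of the coordinates: every limit functional is repeated infinitely often. -/
abbrev Idx : Type := ℕ × Jdx

section

variable {𝕜 : Type} [RCLike 𝕜] {X : Type u} [NormedAddCommGroup X] [NormedSpace 𝕜 X]
variable (j : C₀(ℕ, 𝕜) →L[𝕜] X) (R : X →L[𝕜] C₀(ℕ, 𝕜)) (h : ℕ → StrongDual 𝕜 X)
variable (D : ℕ → PlaneData 𝕜) (K : Idx ⊕ ℕ ≃ ℕ)

/-- Coordinate `n` of `R x`. -/
noncomputable def co (n : ℕ) : StrongDual 𝕜 X := (c0eval n).comp R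

/-- The image in `X` of the unit vector `n` of `c₀`. -/
noncomputable def un (n : ℕ) : X := j (exists_c0single (𝕜 := 𝕜) n).choose

/-- The limit functionals. -/
noncomputable def lim : Jdx → StrongDual 𝕜 X
  | Sum.inl km => (D km.1).α km.2 • co R (K (Sum.inr (2 * km.1))) +
      (D km.1).β km.2 • co R (K (Sum.inr (2 * km.1 + 1)))
  | Sum.inr m => (h m).comp (ContinuousLinearMap.id 𝕜 X - j.comp R)

/-- The functionals `g (n, j) = (isolated coordinate (n, j)) + (limit functional j)`. -/
noncomputable def gg (i : Idx) : StrongDual 𝕜 X := co R (K (Sum.inl i)) + lim j R h D K i.2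

end

end Pool.Agent.Lib.MP_a7c449_an
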