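import Pool.Agent.Lib.MP_a7c449_an.ConA

set_option autoImplicit false

/-!
The planes.
-/

namespace Pool.Agent.Lib.MP_a7c449_an

open scoped ZeroAtInfty

universe u

section

variable {𝕜 : Type} [RCLike 𝕜] {X : Type u} [NormedAddCommGroup X] [NormedSpace 𝕜 X]
variable (j : C₀(ℕ, 𝕜) →L[𝕜] X) (R : X →L[𝕜] C₀(ℕ, 𝕜)) (h : ℕ → StrongDual 𝕜 X)
variable (D : ℕ → PlaneData 𝕜) (K : Idx ⊕ ℕ ≃ ℕ)

/-- The `g`-values of the vectors of plane `k`: `(D k).α m * x + (D k).β m * y` at `(n, inl (k, m))`
and zero at all other indices. -/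
theorem gg_plane (hR : ∀ z, R (j z) = z) (k : ℕ) (x y : 𝕜) (i : Idx) :
    gg j R h D K i (x • un j (K (Sum.inr (2 * k))) + y • un j (K (Sum.inr (2 * k + 1)))) =
      match i.2 with
      | Sum.inl km => if km.1 = k then (D k).α km.2 * x + (D k).β km.2 * y else 0
      | Sum.inr _ => 0 := by
  obtain ⟨n, a⟩ := i
  have h0 : ∀ m : ℕ, co R (K (Sum.inl (n, a))) (un j (K (Sum.inr m))) = 0 := by
    intro m
    rw [co_un j R hR, if_neg]
    intro h1
    have h2 := K.injective h1
    exact absurd h2 (by simp)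
  have h1 : ∀ m m' : ℕ, co R (K (Sum.inr m)) (un j (K (Sum.inr m'))) =
      if m = m' then (1 : 𝕜) else 0 := by
    intro m m'
    rw [co_un j R hR]
    by_cases h2 : m = m'
    · rw [if_pos h2, if_pos (by rw [h2])]
    · rw [if_neg h2, if_neg]
      intro h3
      exact h2 (Sum.inr.inj (K.injective h3))
  rw [gg, _root_.add_apply, map_add, map_smul, map_smul, h0, h0, smul_zero,
    smul_zero, zero_add, zero_add, map_add, map_smul, map_smul]
  cases a with
  | inl km =>
    have h2 : ∀ m : ℕ, lim j R h D K (Sum.inl km) (un j (K (Sum.inr m))) =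
        (D km.1).α km.2 * (if 2 * km.1 = m then (1 : 𝕜) else 0) +
          (D km.1).β km.2 * (if 2 * km.1 + 1 = m then (1 : 𝕜) else 0) := by
      intro m
      rw [lim, _root_.add_apply, _root_.smul_apply,
        _root_.smul_apply, h1, h1, smul_eq_mul, smul_eq_mul]
    rw [h2, h2]
    by_cases h3 : km.1 = k
    · simp only [h3, if_true, smul_eq_mul]
      rw [if_neg (by omega), if_neg (by omega)]
      ring
    · simp only [h3, if_false, smul_eq_mul]
      rw [if_neg (by omega), if_neg (by omega), if_neg (by omega), if_neg (by omega)]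
      ring
  | inr m =>
    rw [lim_inr_un j R h D K hR, lim_inr_un j R h D K hR, smul_zero, smul_zero, add_zero]

end

end Pool.Agent.Lib.MP_a7c449_an
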