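import Pool.Agent.Lib.MP_a7c449_an.ConC
import Pool.Agent.Lib.MP_a7c449_an.ConE

set_option autoImplicit false

/-!
The family.
-/

namespace Pool.Agent.Lib.MP_a7c449_an

open scoped ZeroAtInfty

universe u

private theorem Construct_plane_eq {𝕜 : Type} [RCLike 𝕜] {X : Type u} [NormedAddCommGroup X]
    [NormedSpace 𝕜 X] (j : C₀(ℕ, 𝕜) →L[𝕜] X) (R : X →L[𝕜] C₀(ℕ, 𝕜)) (h : ℕ → StrongDual 𝕜 X)
    (D : ℕ → PlaneData 𝕜) (K : Idx ⊕ ℕ ≃ ℕ) (hR : ∀ z, R (j z) = z) (n m : ℕ) (k : ℕ) (x y : 𝕜) :
    gg j R h D K (n, Sum.inl (k, m))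
      (x • un j (K (Sum.inr (2 * k))) + y • un j (K (Sum.inr (2 * k + 1)))) =
      (D k).α m * x + (D k).β m * y := by
  rw [gg_plane j R h D K hR k x y]
  simp

/-- Assemble the family: `e i = un (K (inl i))`, `s k = un (K (inr (2k)))`, `t k = un (K (inr (2k+1)))`,
`p k = co (K (inr (2k)))`, `q k = co (K (inr (2k+1)))`. -/
theorem exists_family {𝕜 : Type} [RCLike 𝕜] {X : Type u} [NormedAddCommGroup X] [NormedSpace 𝕜 X]
    (j : C₀(ℕ, 𝕜) →L[𝕜] X) (R : X →L[𝕜] C₀(ℕ, 𝕜)) (hR : ∀ z, R (j z) = z)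
    (h : ℕ → StrongDual 𝕜 X) (hh : ∀ m, ‖h m‖ ≤ 1)
    (hn : ∀ (x : X) (C : ℝ), (∀ m, ‖h m x‖ ≤ C) → ‖x‖ ≤ C) (D : ℕ → PlaneData 𝕜) :
    Nonempty (Family X Idx D) := by
  obtain ⟨K⟩ := exists_bijection
  have hK : ∀ a b : Idx ⊕ ℕ, a ≠ b → K a ≠ K b := fun a b hab h => hab (K.injective h)
  have hco : ∀ a b : Idx ⊕ ℕ, a ≠ b → co R (K a) (un j (K b)) = 0 := fun a b hab => by
    rw [co_un j R hR, if_neg (hK a b hab)]
  have hco1 : ∀ a : Idx ⊕ ℕ, co R (K a) (un j (K a)) = 1 := fun a => by
    rw [co_un j R hR, if_pos rfl]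
  refine ⟨{
    g := gg j R h D K
    B := 3 * ‖R‖ + (1 + ‖j‖ * ‖R‖)
    upper := fun i x => gg_upper j R h D K hh i x
    B' := 2 * ‖j‖ + 1
    B'_pos := by positivity
    lower := fun x C hC => gg_lower j R h D K hn x C hC
    e := fun i => un j (K (Sum.inl i))
    self := fun i => by rw [gg_un_inl j R h D K hR, if_pos rfl]
    other := fun i i' hii => by rw [gg_un_inl j R h D K hR, if_neg hii]
    s := fun k => un j (K (Sum.inr (2 * k)))
    t := fun k => un j (K (Sum.inr (2 * k + 1)))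
    p := fun k => co R (K (Sum.inr (2 * k)))
    q := fun k => co R (K (Sum.inr (2 * k + 1)))
    ps := fun k => hco1 _
    pt := fun k => hco _ _ (by simp)
    qs := fun k => hco _ _ (by simp)
    qt := fun k => hco1 _
    pe := fun k i => hco _ _ (by simp)
    qe := fun k i => hco _ _ (by simp)
    norm_iff := ?_
    proj := ?_
    small := ?_ }⟩
  · intro k x y r
    constructor
    · intro hi m
      have := hi (0, Sum.inl (k, m))
      rwa [Construct_plane_eq j R h D K hR] at this
    · intro hD i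
      have hr : 0 ≤ r := (norm_nonneg _).trans (hD 0)
      rw [gg_plane j R h D K hR k x y]
      rcases i with ⟨n, km | m⟩
      · dsimp only
        split_ifs with hk
        · exact hD km.2
        · rwa [norm_zero]
      · dsimp only
        rwa [norm_zero]
  · intro k x r hr m
    exact lim_le j R h D K x r hr (Sum.inl (k, m))
  · intro k x ε hε
    refine ⟨(finite_iso R K x ε hε).toFinset, fun i hi => ?_⟩
    have hi' : ‖co R (K (Sum.inl i)) x‖ ≤ ε := by
      by_contra hcon
      exact hi ((finite_iso R K x ε hε).mem_toFinset.2 (not_le.1 hcon))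
    have es : un j (K (Sum.inr (2 * k))) = (1 : 𝕜) • un j (K (Sum.inr (2 * k))) +
        (0 : 𝕜) • un j (K (Sum.inr (2 * k + 1))) := by simp
    have et : un j (K (Sum.inr (2 * k + 1))) = (0 : 𝕜) • un j (K (Sum.inr (2 * k))) +
        (1 : 𝕜) • un j (K (Sum.inr (2 * k + 1))) := by simp
    rcases i with ⟨n, km | m⟩
    · by_cases hk : km.1 = k
      · right
        obtain ⟨k', m⟩ := km
        dsimp only at hk
        subst hk
        rw [Construct_plane_eq j R h D K hR]
        have e1 : gg j R h D K (n, Sum.inl (k', m)) x = co R (K (Sum.inl (n, Sum.inl (k', m)))) x +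
            ((D k').α m * co R (K (Sum.inr (2 * k'))) x +
              (D k').β m * co R (K (Sum.inr (2 * k' + 1))) x) := rfl
        rw [e1, add_sub_cancel_right]
        exact hi'
      · left
        constructor
        · rw [es, gg_plane j R h D K hR k]
          exact if_neg hk
        · rw [et, gg_plane j R h D K hR k]
          exact if_neg hk
    · left
      constructor
      · rw [es, gg_plane j R h D K hR k]
      · rw [et, gg_plane j R h D K hR k]

end Pool.Agent.Lib.MP_a7c449_an
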