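import Mathlib

set_option autoImplicit false

/-!
Polynomial numerical indices of Banach spaces: definitions.

`A : X [×k]→L[𝕜] X` stands for the `k`-homogeneous polynomial `P x = A (x, …, x)`.
-/

namespace Pool.Agent.Lib.MP_a7c449_an

open scoped Topology

universe u

section Defs

variable (𝕜 : Type*) [RCLike 𝕜] (X : Type*) [NormedAddCommGroup X] [NormedSpace 𝕜 X]

/-- The norm `sup {‖P x‖ : ‖x‖ ≤ 1}` of the polynomial `P x = A (x, …, x)`. -/
noncomputable def polyNorm {k : ℕ} (A : X [×k]→L[𝕜] X) : ℝ :=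
  sSup {r : ℝ | ∃ x : X, ‖x‖ ≤ 1 ∧ r = ‖A fun _ => x‖}

/-- The numerical radius `sup {|x*(P x)| : ‖x‖ = ‖x*‖ = x*(x) = 1}` of `P x = A (x, …, x)`. -/
noncomputable def numRadius {k : ℕ} (A : X [×k]→L[𝕜] X) : ℝ :=
  sSup {r : ℝ | ∃ (x : X) (f : StrongDual 𝕜 X), ‖x‖ = 1 ∧ ‖f‖ = 1 ∧ f x = 1 ∧
    r = ‖f (A fun _ => x)‖}

/-- The polynomial numerical index of order `k`: the infimum of the numerical radii of the
`k`-homogeneous polynomials of norm one. -/
noncomputable def numIndex (k : ℕ) : ℝ :=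
  sInf {s : ℝ | ∃ A : X [×k]→L[𝕜] X, polyNorm 𝕜 X A = 1 ∧ s = numRadius 𝕜 X A}

end Defs

/-- A Banach space `Y` presented as a space of bounded functions on `I` (through the coordinates
`δ i`) which contains the unit vectors `e i`. -/
structure Coord (𝕜 : Type*) [RCLike 𝕜] (Y : Type*) [NormedAddCommGroup Y] [NormedSpace 𝕜 Y]
    (I : Type*) where
  /-- the coordinates -/
  δ : I → StrongDual 𝕜 Y
  /-- the unit vectors -/
  e : I → Y
  norm_le : ∀ i y, ‖δ i y‖ ≤ ‖y‖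
  le_of : ∀ (y : Y) (C : ℝ), 0 ≤ C → (∀ i, ‖δ i y‖ ≤ C) → ‖y‖ ≤ C
  self : ∀ i, δ i (e i) = 1
  other : ∀ i j, i ≠ j → δ i (e j) = 0

/-- A sequence of functionals `(x, y) ↦ α m * x + β m * y` on the plane `𝕜²`, of coefficients at most
one in modulus, whose supremum dominates both coordinates. It stands for the plane with the norm
`sup_m |α m * x + β m * y|`. -/
structure PlaneData (𝕜 : Type*) [RCLike 𝕜] where
  /-- first coefficients -/
  α : ℕ → 𝕜
  /-- second coefficients -/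
  β : ℕ → 𝕜
  hα : ∀ m, ‖α m‖ ≤ 1
  hβ : ∀ m, ‖β m‖ ≤ 1
  lower : ∀ (x y : 𝕜) (C : ℝ), (∀ m, ‖α m * x + β m * y‖ ≤ C) → ‖x‖ ≤ C ∧ ‖y‖ ≤ C

/-- `D.InBall x y r`: the vector `(x, y)` of the plane `D` has norm at most `r`. -/
def PlaneData.InBall {𝕜 : Type*} [RCLike 𝕜] (D : PlaneData 𝕜) (x y : 𝕜) (r : ℝ) : Prop :=
  ∀ m, ‖D.α m * x + D.β m * y‖ ≤ r

/-- A copy of the plane `D` in `Y`, spanned by `s` and `t`, with a projection `y ↦ p y • s + q y • t`
which kills the unit vectors and is, up to unit vectors, the restriction to a set of coordinates. -/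
structure MPlane {𝕜 : Type*} [RCLike 𝕜] {Y : Type*} [NormedAddCommGroup Y] [NormedSpace 𝕜 Y]
    {I : Type*} (C : Coord 𝕜 Y I) (D : PlaneData 𝕜) where
  /-- first basis vector -/
  s : Y
  /-- second basis vector -/
  t : Y
  /-- first coordinate functional -/
  p : StrongDual 𝕜 Y
  /-- second coordinate functional -/
  q : StrongDual 𝕜 Y
  ps : p s = 1
  pt : p t = 0
  qs : q s = 0
  qt : q t = 1
  pe : ∀ i, p (C.e i) = 0
  qe : ∀ i, q (C.e i) = 0
  norm_iff : ∀ (x y : 𝕜) (r : ℝ), ‖x • s + y • t‖ ≤ r ↔ D.InBall x y r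
  proj_le : ∀ y : Y, ‖p y • s + q y • t‖ ≤ ‖y‖
  small : ∀ (y : Y) (ε : ℝ), 0 < ε → ∃ F : Finset I, ∀ i ∉ F,
    (C.δ i s = 0 ∧ C.δ i t = 0) ∨ ‖C.δ i y - C.δ i (p y • s + q y • t)‖ ≤ ε

end Pool.Agent.Lib.MP_a7c449_an
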