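import Pool.Agent.Lib.MP_a7c449_an.Defs

set_option autoImplicit false

/-!
The Euclidean plane.
-/

namespace Pool.Agent.Lib.MP_a7c449_an

/-- A dense sequence of the circle. -/
noncomputable def circSeq (n : ℕ) : Circle := TopologicalSpace.denseSeq Circle n

private theorem Euclid_all (x y r : ℝ)
    (h : ∀ n, ‖(circSeq n : ℂ).re * x + (circSeq n : ℂ).im * y‖ ≤ r) (ζ : Circle) :
    ‖(ζ : ℂ).re * x + (ζ : ℂ).im * y‖ ≤ r := by
  have hc : IsClosed {ζ : Circle | ‖(ζ : ℂ).re * x + (ζ : ℂ).im * y‖ ≤ r} := by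
    refine isClosed_le ?_ continuous_const
    have h1 : Continuous fun ζ : Circle => (ζ : ℂ) := continuous_subtype_val
    have h2 : Continuous fun ζ : Circle => (ζ : ℂ).re := Complex.continuous_re.comp h1
    have h3 : Continuous fun ζ : Circle => (ζ : ℂ).im := Complex.continuous_im.comp h1
    exact ((h2.mul continuous_const).add (h3.mul continuous_const)).norm
  exact (TopologicalSpace.denseRange_denseSeq Circle).induction_on ζ hc h

private theorem Euclid_sq (ζ : Circle) : (ζ : ℂ).re ^ 2 + (ζ : ℂ).im ^ 2 = 1 := by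
  have h := Circle.norm_coe ζ
  have h2 : ‖(ζ : ℂ)‖ ^ 2 = 1 := by rw [h]; norm_num
  rw [← Complex.normSq_eq_norm_sq, Complex.normSq_apply] at h2
  nlinarith [h2]

/-- `(⇒)`: by density `|ζ.re * x + ζ.im * y| ≤ r` for all `|ζ| = 1`; take `ζ = (x + i y) / |x + i y|`.
`(⇐)`: Cauchy-Schwarz. -/
theorem euclid_iff (x y r : ℝ) :
    (∀ n, ‖(circSeq n : ℂ).re * x + (circSeq n : ℂ).im * y‖ ≤ r) ↔ 0 ≤ r ∧ x ^ 2 + y ^ 2 ≤ r ^ 2 := by
  constructor
  · intro h
    have h0 : 0 ≤ r := (norm_nonneg _).trans (h 0)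
    refine ⟨h0, ?_⟩
    by_cases hz : x ^ 2 + y ^ 2 = 0
    · rw [hz]; positivity
    · have hpos : 0 < x ^ 2 + y ^ 2 := lt_of_le_of_ne (by positivity) (Ne.symm hz)
      set ρ : ℝ := Real.sqrt (x ^ 2 + y ^ 2) with hρ
      have hρpos : 0 < ρ := Real.sqrt_pos.2 hpos
      have hρsq : ρ ^ 2 = x ^ 2 + y ^ 2 := Real.sq_sqrt hpos.le
      have hnorm : ‖(⟨x / ρ, y / ρ⟩ : ℂ)‖ = 1 := by
        rw [← Real.sqrt_one, Complex.norm_def, Complex.normSq_apply]
        congr 1
        field_simp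
        nlinarith [hρsq]
      have hk := Euclid_all x y r h ⟨(⟨x / ρ, y / ρ⟩ : ℂ), mem_sphere_zero_iff_norm.2 hnorm⟩
      have he : x / ρ * x + y / ρ * y = ρ := by
        field_simp
        nlinarith [hρsq]
      have hk2 : ‖x / ρ * x + y / ρ * y‖ ≤ r := hk
      rw [he, Real.norm_eq_abs, abs_of_pos hρpos] at hk2
      rw [← hρsq]
      exact pow_le_pow_left₀ hρpos.le hk2 2
  · rintro ⟨h0, h⟩ n
    rw [Real.norm_eq_abs]
    apply abs_le_of_sq_le_sq _ h0
    have hs := Euclid_sq (circSeq n)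
    set a := (circSeq n : ℂ).re
    set b := (circSeq n : ℂ).im
    nlinarith [sq_nonneg (a * y - b * x)]

/-- The Euclidean plane. -/
noncomputable def euclid : PlaneData ℝ where
  α n := (circSeq n : ℂ).re
  β n := (circSeq n : ℂ).im
  hα n := by
    have hs := Euclid_sq (circSeq n)
    rw [Real.norm_eq_abs]
    apply abs_le_of_sq_le_sq _ zero_le_one
    nlinarith [sq_nonneg (circSeq n : ℂ).im]
  hβ n := by
    have hs := Euclid_sq (circSeq n)
    rw [Real.norm_eq_abs]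
    apply abs_le_of_sq_le_sq _ zero_le_one
    nlinarith [sq_nonneg (circSeq n : ℂ).re]
  lower x y C h := by
    obtain ⟨h0, h1⟩ := (euclid_iff x y C).1 h
    constructor
    · rw [Real.norm_eq_abs]
      apply abs_le_of_sq_le_sq _ h0
      nlinarith [sq_nonneg y]
    · rw [Real.norm_eq_abs]
      apply abs_le_of_sq_le_sq _ h0
      nlinarith [sq_nonneg x]

theorem euclid_inBall (x y r : ℝ) : euclid.InBall x y r ↔ 0 ≤ r ∧ x ^ 2 + y ^ 2 ≤ r ^ 2 :=
  euclid_iff x y r

/-- If `(x, y)` of the unit disc maximises `a u + b w` over the disc, then `a y = b x`: with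
`(u, w) = (a, b) / |(a, b)|` one gets `|(a,b)| ≤ a x + b y`, and
`(a x + b y)² + (a y - b x)² = (a² + b²)(x² + y²)`. -/
theorem euclid_key (a b x y : ℝ) (hin : euclid.InBall x y 1)
    (hmax : ∀ u w : ℝ, euclid.InBall u w 1 → a * u + b * w ≤ a * x + b * y) : a * y = b * x := by
  obtain ⟨-, h1⟩ := (euclid_inBall x y 1).1 hin
  by_cases hz : a ^ 2 + b ^ 2 = 0
  · have ha : a = 0 := by nlinarith [sq_nonneg a, sq_nonneg b]
    have hb : b = 0 := by nlinarith [sq_nonneg a, sq_nonneg b]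
    rw [ha, hb]; ring
  · have hpos : 0 < a ^ 2 + b ^ 2 := lt_of_le_of_ne (by positivity) (Ne.symm hz)
    set ρ : ℝ := Real.sqrt (a ^ 2 + b ^ 2) with hρ
    have hρpos : 0 < ρ := Real.sqrt_pos.2 hpos
    have hρsq : ρ ^ 2 = a ^ 2 + b ^ 2 := Real.sq_sqrt hpos.le
    have hb : euclid.InBall (a / ρ) (b / ρ) 1 := by
      rw [euclid_inBall]
      refine ⟨zero_le_one, ?_⟩
      have : (a / ρ) ^ 2 + (b / ρ) ^ 2 = 1 := by
        field_simp
        nlinarith [hρsq]
      rw [this]; norm_num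
    have hk := hmax _ _ hb
    have he : a * (a / ρ) + b * (b / ρ) = ρ := by
      field_simp
      nlinarith [hρsq]
    rw [he] at hk
    have h2 : ρ ^ 2 ≤ (a * x + b * y) ^ 2 := pow_le_pow_left₀ hρpos.le hk 2
    have h3 : (a * y - b * x) ^ 2 ≤ 0 := by
      have h4 : (a * x + b * y) ^ 2 + (a * y - b * x) ^ 2 = (a ^ 2 + b ^ 2) * (x ^ 2 + y ^ 2) := by
        ring
      nlinarith [mul_le_mul_of_nonneg_left h1 hpos.le]
    have h5 : a * y - b * x = 0 := by
      have := sq_nonneg (a * y - b * x)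
      exact pow_eq_zero_iff (two_ne_zero) |>.1 (le_antisymm h3 this)
    linarith

end Pool.Agent.Lib.MP_a7c449_an
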