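import Pool.Agent.Lib.MP_a7c449_an.Defs

set_option autoImplicit false

/-!
Renorming through a family of functionals.
-/

namespace Pool.Agent.Lib.MP_a7c449_an

universe u

/-- A uniformly bounded norming family of functionals with biorthogonal vectors, together with planes
`D k` embedded as in `MPlane`. -/
structure Family {𝕜 : Type} [RCLike 𝕜] (X : Type u) [NormedAddCommGroup X] [NormedSpace 𝕜 X]
    (I : Type) (D : ℕ → PlaneData 𝕜) where
  /-- the functionals -/
  g : I → StrongDual 𝕜 X
  /-- upper constant -/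
  B : ℝ
  upper : ∀ i x, ‖g i x‖ ≤ B * ‖x‖
  /-- lower constant -/
  B' : ℝ
  B'_pos : 0 < B'
  lower : ∀ (x : X) (C : ℝ), (∀ i, ‖g i x‖ ≤ C) → ‖x‖ ≤ B' * C
  /-- biorthogonal vectors -/
  e : I → X
  self : ∀ i, g i (e i) = 1
  other : ∀ i i', i ≠ i' → g i (e i') = 0
  /-- first basis vectors -/
  s : ℕ → X
  /-- second basis vectors -/
  t : ℕ → X
  /-- first coordinates -/
  p : ℕ → StrongDual 𝕜 X
  /-- second coordinates -/
  q : ℕ → StrongDual 𝕜 X
  ps : ∀ k, p k (s k) = 1
  pt : ∀ k, p k (t k) = 0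
  qs : ∀ k, q k (s k) = 0
  qt : ∀ k, q k (t k) = 1
  pe : ∀ k i, p k (e i) = 0
  qe : ∀ k i, q k (e i) = 0
  norm_iff : ∀ (k : ℕ) (x y : 𝕜) (r : ℝ), (∀ i, ‖g i (x • s k + y • t k)‖ ≤ r) ↔ (D k).InBall x y r
  proj : ∀ (k : ℕ) (x : X) (r : ℝ), (∀ i, ‖g i x‖ ≤ r) → (D k).InBall (p k x) (q k x) r
  small : ∀ (k : ℕ) (x : X) (ε : ℝ), 0 < ε → ∃ F : Finset I, ∀ i ∉ F,
    (g i (s k) = 0 ∧ g i (t k) = 0) ∨ ‖g i x - g i (p k x • s k + q k x • t k)‖ ≤ ε

/-- The renormed space `Y` is the range of `x ↦ (g i x)_i` in the bounded functions on `I`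
(`BoundedContinuousFunction` on the discrete space `I`, or `lp (fun _ : I => 𝕜) ⊤`), a closed
subspace because the map is bounded below and `X` is complete. The coordinates are the restrictions of
the evaluations, the unit vectors the images of the `e i`. -/
theorem Family.realize {𝕜 : Type} [RCLike 𝕜] {X : Type u} [NormedAddCommGroup X] [NormedSpace 𝕜 X]
    [CompleteSpace X] {I : Type} [Nonempty I] {D : ℕ → PlaneData 𝕜} (Fa : Family X I D) :
    ∃ (Y : Type) (_ : NormedAddCommGroup Y) (_ : NormedSpace 𝕜 Y) (_ : CompleteSpace Y)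
      (C : Coord 𝕜 Y I), Nonempty (X ≃L[𝕜] Y) ∧ ∀ k, Nonempty (MPlane C (D k)) := by
  classical
  let T : X →L[𝕜] lp (fun _ : I => 𝕜) (⊤ : ENNReal) := LinearMap.mkContinuous
    { toFun := fun x => ⟨fun i => Fa.g i x, memℓp_infty ⟨Fa.B * ‖x‖, by
        rintro _ ⟨i, rfl⟩
        exact Fa.upper i x⟩⟩
      map_add' := fun x y => by
        ext i
        exact map_add (Fa.g i) x y
      map_smul' := fun c x => by
        ext i
        exact map_smul (Fa.g i) c x } Fa.B (fun x => by
      refine lp.norm_le_of_forall_le' _ fun i => ?_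
      exact Fa.upper i x)
  have hT : ∀ x i, (T x : I → 𝕜) i = Fa.g i x := fun x i => rfl
  have hTle : ∀ x i, ‖Fa.g i x‖ ≤ ‖T x‖ := fun x i => by
    rw [← hT]
    exact lp.norm_apply_le_norm ENNReal.top_ne_zero _ i
  have hTr : ∀ x (r : ℝ), ‖T x‖ ≤ r ↔ ∀ i, ‖Fa.g i x‖ ≤ r := fun x r =>
    ⟨fun h i => (hTle x i).trans h, fun h => lp.norm_le_of_forall_le' _ h⟩
  have hlow : ∀ x, ‖x‖ ≤ Fa.B' * ‖T x‖ := fun x => Fa.lower x _ (hTle x)
  have hanti : AntilipschitzWith ⟨Fa.B', Fa.B'_pos.le⟩ T :=
    AddMonoidHomClass.antilipschitz_of_bound T fun x => hlow x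
  have hinj : Function.Injective T := hanti.injective
  have hclo : IsClosed (Set.range T) := hanti.isClosed_range T.uniformContinuous
  let eq : X ≃L[𝕜] T.range := T.equivRange hinj hclo
  have heq : ∀ x, ((eq x : T.range) : lp (fun _ : I => 𝕜) (⊤ : ENNReal)) = T x := fun x => rfl
  have hcs : CompleteSpace T.range := by
    have : IsClosed (T.range : Set (lp (fun _ : I => 𝕜) (⊤ : ENNReal))) := hclo
    exact this.completeSpace_coe
  have hn : ∀ x, ‖eq x‖ = ‖T x‖ := fun x => rfl
  let C : Coord 𝕜 T.range I :=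
    { δ := fun i => (lp.evalCLM 𝕜 (fun _ : I => 𝕜) (⊤ : ENNReal) i).comp T.range.subtypeL
      e := fun i => eq (Fa.e i)
      norm_le := fun i y => lp.norm_apply_le_norm ENNReal.top_ne_zero _ i
      le_of := fun y r _ h => lp.norm_le_of_forall_le' _ h
      self := fun i => Fa.self i
      other := fun i j h => Fa.other i j h }
  have hC : ∀ i x, C.δ i (eq x) = Fa.g i x := fun i x => rfl
  refine ⟨T.range, inferInstance, inferInstance, hcs, C, ⟨eq⟩, fun k => ⟨?_⟩⟩
  exact
    { s := eq (Fa.s k)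
      t := eq (Fa.t k)
      p := (Fa.p k).comp (eq.symm : T.range →L[𝕜] X)
      q := (Fa.q k).comp (eq.symm : T.range →L[𝕜] X)
      ps := by simpa using Fa.ps k
      pt := by simpa using Fa.pt k
      qs := by simpa using Fa.qs k
      qt := by simpa using Fa.qt k
      pe := fun i => by
        have : C.e i = eq (Fa.e i) := rfl
        rw [this]
        simpa using Fa.pe k i
      qe := fun i => by
        have : C.e i = eq (Fa.e i) := rfl
        rw [this]
        simpa using Fa.qe k i
      norm_iff := fun x y r => by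
        rw [← map_smul, ← map_smul, ← map_add, hn, hTr]
        exact Fa.norm_iff k x y r
      proj_le := fun y => by
        obtain ⟨x, rfl⟩ := eq.surjective y
        rw [← map_smul, ← map_smul, ← map_add, hn, hTr, hn]
        simp only [ContinuousLinearMap.comp_apply, ContinuousLinearEquiv.coe_coe,
          ContinuousLinearEquiv.symm_apply_apply]
        exact (Fa.norm_iff k _ _ _).2 (Fa.proj k x _ (hTle x))
      small := fun y ε hε => by
        obtain ⟨x, rfl⟩ := eq.surjective y
        obtain ⟨F, hF⟩ := Fa.small k x ε hε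
        refine ⟨F, fun i hi => ?_⟩
        rw [← map_smul, ← map_smul, ← map_add, hC, hC, hC, hC]
        simp only [ContinuousLinearMap.comp_apply, ContinuousLinearEquiv.coe_coe,
          ContinuousLinearEquiv.symm_apply_apply]
        exact hF i hi }

end Pool.Agent.Lib.MP_a7c449_an
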