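import Pool.Agent.Lib.MP_a7c449_an.HarrisB

set_option autoImplicit false

/-!
Growth of the Euler polygon, `k = 1`.
-/

namespace Pool.Agent.Lib.MP_a7c449_an

variable {W : Type*} [NormedAddCommGroup W] [NormedSpace ℂ W]

/-- The linear case: `a' ≤ a (1 + v h) + C h² `. Here one can argue with `b_j = exp (v' j r / N) ≥ 1`:
`a ≤ b_j` gives `a' ≤ b_j (1 + v h + C h²) ≤ b_j (1 + v' h) ≤ b_{j+1}`. Use `euler_step` with
`R = exp (v' r)`. -/
theorem euler_bound_one (A : W [×1]→L[ℂ] W) (v' r : ℝ) (hv : numRadius ℂ W A < v') (hr : 0 < r) :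
    ∃ N : ℕ, 0 < N ∧ ∀ (x : W) (z : ℂ), ‖x‖ ≤ 1 → ‖z‖ ≤ r →
      ‖euler A x (z / N) N‖ ≤ Real.exp (v' * r) := by
  have hv0 : 0 ≤ numRadius ℂ W A := by
    apply Real.sSup_nonneg
    rintro s ⟨x, f, -, -, -, rfl⟩
    exact norm_nonneg _
  set v := numRadius ℂ W A with hvdef
  have hv'0 : 0 < v' := lt_of_le_of_lt hv0 hv
  have hR : 1 ≤ Real.exp (v' * r) := Real.one_le_exp (by positivity)
  obtain ⟨C, hC, hstep⟩ := euler_step (𝕜 := ℂ) one_ne_zero A (Real.exp (v' * r)) hR
  obtain ⟨N, hN⟩ := exists_nat_gt (max r (C * r / (v' - v)))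
  have hN1 : r < N := lt_of_le_of_lt (le_max_left _ _) hN
  have hN2 : C * r / (v' - v) < N := lt_of_le_of_lt (le_max_right _ _) hN
  have hN0 : (0 : ℝ) < N := hr.trans hN1
  have hNpos : 0 < N := by exact_mod_cast hN0
  refine ⟨N, hNpos, fun x z hx hz => ?_⟩
  set h : ℝ := r / N with hh
  have hh0 : 0 < h := by positivity
  have hh1 : h ≤ 1 := by rw [hh, div_le_one hN0]; exact hN1.le
  have hCh : C * h ≤ v' - v := by
    have h1 : C * r < N * (v' - v) := by rwa [div_lt_iff₀ (by linarith)] at hN2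
    rw [hh, mul_div_assoc', div_le_iff₀ hN0]
    linarith
  have hη : ‖z / (N : ℂ)‖ ≤ h := by
    rw [norm_div, Complex.norm_natCast, hh]
    exact div_le_div_of_nonneg_right hz hN0.le
  have key : ∀ j : ℕ, j ≤ N → ‖euler A x (z / N) j‖ ≤ Real.exp (v' * (j * h)) := by
    intro j
    induction j with
    | zero =>
      intro _
      simpa [euler] using hx
    | succ j ih =>
      intro hj
      have hj' : j ≤ N := by omega
      have ha := ih hj'
      have hjN : (j : ℝ) * h ≤ r := by
        have h1 : (j : ℝ) ≤ N := by exact_mod_cast hj'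
        have h2 : (N : ℝ) * h = r := by rw [hh]; field_simp
        nlinarith [mul_le_mul_of_nonneg_right h1 hh0.le]
      have haR : ‖euler A x (z / N) j‖ ≤ Real.exp (v' * r) :=
        ha.trans (Real.exp_le_exp.2 (mul_le_mul_of_nonneg_left hjN hv'0.le))
      have hs := hstep (euler A x (z / N) j) (z / N) haR (hη.trans hh1)
      have hb1 : 1 ≤ Real.exp (v' * (j * h)) := Real.one_le_exp (by positivity)
      set b := Real.exp (v' * (j * h)) with hb
      have hexp : Real.exp (v' * (((j + 1 : ℕ) : ℝ) * h)) = b * Real.exp (v' * h) := by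
        rw [hb, ← Real.exp_add]
        congr 1
        push_cast
        ring
      rw [hexp]
      change ‖euler A x (z / N) j + (z / N) • (A fun _ => euler A x (z / N) j)‖ ≤ _
      refine hs.trans ?_
      rw [pow_one]
      set a := ‖euler A x (z / N) j‖ with hadef
      set η := ‖z / (N : ℂ)‖ with hηdef
      have ha0 : 0 ≤ a := norm_nonneg _
      have hη0 : 0 ≤ η := norm_nonneg _
      have h1 : η * (v * a) ≤ h * (v * b) :=
        mul_le_mul hη (mul_le_mul_of_nonneg_left ha hv0) (by positivity) hh0.le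
      have h2 : C * η ^ 2 ≤ (v' - v) * h * b := by
        have h3 : η ^ 2 ≤ h ^ 2 := pow_le_pow_left₀ hη0 hη 2
        have h4 : C * η ^ 2 ≤ C * h ^ 2 := mul_le_mul_of_nonneg_left h3 hC
        have h5 : C * h ^ 2 ≤ (v' - v) * h := by nlinarith
        have h6 : (v' - v) * h ≤ (v' - v) * h * b := by
          have : 0 ≤ (v' - v) * h := mul_nonneg (by linarith) hh0.le
          nlinarith
        linarith
      have h7 : 1 + v' * h ≤ Real.exp (v' * h) := by
        have := Real.add_one_le_exp (v' * h)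
        linarith
      calc a + η * (v * a) + C * η ^ 2 ≤ b + h * (v * b) + (v' - v) * h * b := by linarith
        _ = b * (1 + v' * h) := by ring
        _ ≤ b * Real.exp (v' * h) := mul_le_mul_of_nonneg_left h7 (by linarith)
  have hfin := key N le_rfl
  have h2 : (N : ℝ) * h = r := by rw [hh]; field_simp
  rwa [h2] at hfin

end Pool.Agent.Lib.MP_a7c449_an
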