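import Pool.Agent.Lib.MP_a7c449_an.HarrisB

set_option autoImplicit false

/-!
Cauchy's estimate for the Euler polygon.
-/

namespace Pool.Agent.Lib.MP_a7c449_an

variable {W : Type*} [NormedAddCommGroup W] [NormedSpace ℂ W]

theorem euler_zero {k : ℕ} (A : W [×k]→L[ℂ] W) (x : W) (n : ℕ) : euler A x 0 n = x := by
  induction n with
  | zero => rfl
  | succ n ih =>
    show euler A x 0 n + (0 : ℂ) • (A fun _ => euler A x 0 n) = x
    rw [zero_smul, add_zero, ih]

theorem euler_differentiable {k : ℕ} (A : W [×k]→L[ℂ] W) (x : W) (n : ℕ) :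
    Differentiable ℂ (fun h : ℂ => euler A x h n) := by
  induction n with
  | zero => exact differentiable_const x
  | succ n ih =>
    show Differentiable ℂ (fun h : ℂ => euler A x h n + h • (A fun _ => euler A x h n))
    have h1 : Differentiable ℂ (fun m : Fin k → W => A m) :=
      (A.contDiff (n := 1)).differentiable one_ne_zero
    have h2 : Differentiable ℂ (fun h : ℂ => (fun _ : Fin k => euler A x h n)) :=
      differentiable_pi.2 fun _ => ih
    exact ih.add (differentiable_id.smul (h1.comp h2))

/-- By induction on `n`; the derivative of `h ↦ h • A (fun _ => euler A x h n)` at `0` is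
`A (fun _ => x)`. -/
theorem euler_hasDerivAt {k : ℕ} (A : W [×k]→L[ℂ] W) (x : W) (n : ℕ) :
    HasDerivAt (fun h : ℂ => euler A x h n) ((n : ℂ) • (A fun _ => x)) 0 := by
  induction n with
  | zero =>
    have : HasDerivAt (fun _ : ℂ => x) 0 0 := hasDerivAt_const _ _
    simpa [euler] using this
  | succ n ih =>
    show HasDerivAt (fun h : ℂ => euler A x h n + h • (A fun _ => euler A x h n)) _ 0
    have h1 : Differentiable ℂ (fun m : Fin k → W => A m) :=
      (A.contDiff (n := 1)).differentiable one_ne_zero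
    have h2 : Differentiable ℂ (fun h : ℂ => (fun _ : Fin k => euler A x h n)) :=
      differentiable_pi.2 fun _ => euler_differentiable A x n
    have h3 : Differentiable ℂ (fun h : ℂ => A fun _ => euler A x h n) := h1.comp h2
    have h4 := (hasDerivAt_id (0 : ℂ)).smul (h3 0).hasDerivAt
    have h5 := ih.add h4
    refine h5.congr_deriv ?_
    simp only [id, zero_smul, one_smul, zero_add, euler_zero]
    rw [Nat.cast_succ, add_smul, one_smul]

/-- `Complex.norm_deriv_le_of_forall_mem_sphere_norm_le` for `z ↦ euler A x (z / N) N`, whose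
derivative at `0` is `P x`. -/
theorem euler_cauchy {k : ℕ} (A : W [×k]→L[ℂ] W) (x : W) (N : ℕ) (hN : 0 < N) (r M : ℝ) (hr : 0 < r)
    (h : ∀ z : ℂ, ‖z‖ = r → ‖euler A x (z / N) N‖ ≤ M) : ‖A fun _ => x‖ ≤ M / r := by
  have hN0 : (N : ℂ) ≠ 0 := Nat.cast_ne_zero.2 hN.ne'
  have hder : HasDerivAt (fun z : ℂ => euler A x (z / N) N) (A fun _ => x) 0 := by
    have h1 : HasDerivAt (fun z : ℂ => z / N) (1 / (N : ℂ)) 0 := (hasDerivAt_id (0 : ℂ)).div_const _
    have h2 : HasDerivAt (fun h : ℂ => euler A x h N) ((N : ℂ) • (A fun _ => x)) ((0 : ℂ) / N) := by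
      rw [zero_div]
      exact euler_hasDerivAt A x N
    have h3 := HasDerivAt.scomp (0 : ℂ) h2 h1
    rw [smul_smul, one_div, inv_mul_cancel₀ hN0, one_smul] at h3
    exact h3
  have hdiff : Differentiable ℂ (fun z : ℂ => euler A x (z / N) N) :=
    (euler_differentiable A x N).comp (differentiable_id.div_const _)
  have h4 := Complex.norm_deriv_le_of_forall_mem_sphere_norm_le (c := 0) (R := r) (C := M)
    (f := fun z : ℂ => euler A x (z / N) N) hr hdiff.diffContOnCl
    (fun z hz => h z (by simpa using hz))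
  rwa [hder.deriv] at h4

end Pool.Agent.Lib.MP_a7c449_an
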