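import Pool.Agent.Lib.MP_a7c449_an.Basic

set_option autoImplicit false

/-!
Elementary facts on `numIndex`; rank one polynomials.
-/

namespace Pool.Agent.Lib.MP_a7c449_an

section

variable {𝕜 : Type*} [RCLike 𝕜] {X : Type*} [NormedAddCommGroup X] [NormedSpace 𝕜 X]

theorem numIndex_le {k : ℕ} (A : X [×k]→L[𝕜] X) (h : polyNorm 𝕜 X A = 1) :
    numIndex 𝕜 X k ≤ numRadius 𝕜 X A := by
  refine csInf_le ⟨0, ?_⟩ ⟨A, h, rfl⟩
  rintro s ⟨B, _, rfl⟩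
  exact numRadius_nonneg B

theorem numIndex_nonneg (k : ℕ) : 0 ≤ numIndex 𝕜 X k := by
  refine Real.sInf_nonneg ?_
  rintro s ⟨B, _, rfl⟩
  exact numRadius_nonneg B

/-- The rank one polynomial `x ↦ f(x)^k • x₀`. -/
noncomputable def rankOne (k : ℕ) (f : StrongDual 𝕜 X) (x₀ : X) : X [×k]→L[𝕜] X :=
  (ContinuousMultilinearMap.mkPiAlgebra 𝕜 (Fin k) 𝕜).compContinuousLinearMap (fun _ => f)
    |>.smulRight x₀

theorem rankOne_apply (k : ℕ) (f : StrongDual 𝕜 X) (x₀ : X) (x : X) :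
    (rankOne k f x₀ fun _ => x) = f x ^ k • x₀ := by
  simp [rankOne, Finset.prod_const]

/-- There are `k`-homogeneous polynomials of norm one: `rankOne k f x₀` with
`‖x₀‖ = ‖f‖ = f x₀ = 1`. -/
theorem exists_polyNorm_one [Nontrivial X] (k : ℕ) : ∃ A : X [×k]→L[𝕜] X, polyNorm 𝕜 X A = 1 := by
  obtain ⟨x, hx⟩ := exists_ne (0 : X)
  obtain ⟨f, hf, hfx⟩ := exists_dual_vector 𝕜 x (norm_ne_zero_iff.2 hx)
  have hn : 0 < ‖x‖ := norm_pos_iff.2 hx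
  have h1 : ‖((‖x‖⁻¹ : ℝ) : 𝕜) • x‖ = 1 := by
    rw [norm_smul, RCLike.norm_ofReal, abs_of_pos (inv_pos.2 hn), inv_mul_cancel₀ hn.ne']
  have h2 : f (((‖x‖⁻¹ : ℝ) : 𝕜) • x) = 1 := by
    rw [map_smul, hfx, smul_eq_mul, ← RCLike.ofReal_mul, inv_mul_cancel₀ hn.ne',
      RCLike.ofReal_one]
  refine ⟨rankOne k f (((‖x‖⁻¹ : ℝ) : 𝕜) • x), ?_⟩
  refine polyNorm_eq_one _ ?_ (((‖x‖⁻¹ : ℝ) : 𝕜) • x) h1.le ?_
  · intro y hy
    rw [rankOne_apply, norm_smul, h1, mul_one, norm_pow]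
    refine pow_le_one₀ (norm_nonneg _) ?_
    refine (f.le_opNorm y).trans ?_
    rw [hf, one_mul]
    exact hy
  · rw [rankOne_apply, h2, one_pow, one_smul, h1]

theorem le_numIndex [Nontrivial X] (k : ℕ) (C : ℝ)
    (h : ∀ A : X [×k]→L[𝕜] X, polyNorm 𝕜 X A = 1 → C ≤ numRadius 𝕜 X A) :
    C ≤ numIndex 𝕜 X k := by
  obtain ⟨A, hA⟩ := exists_polyNorm_one (𝕜 := 𝕜) (X := X) k
  refine le_csInf ⟨_, A, hA, rfl⟩ ?_
  rintro s ⟨B, hB, rfl⟩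
  exact h B hB

theorem numIndex_le_one [Nontrivial X] (k : ℕ) : numIndex 𝕜 X k ≤ 1 := by
  obtain ⟨A, hA⟩ := exists_polyNorm_one (𝕜 := 𝕜) (X := X) k
  exact (numIndex_le A hA).trans ((numRadius_le_polyNorm A).trans hA.le)

end

end Pool.Agent.Lib.MP_a7c449_an
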