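import Pool.Agent.Lib.MP_a7c449_an.HarrisB1
import Pool.Agent.Lib.MP_a7c449_an.HarrisB2
import Pool.Agent.Lib.MP_a7c449_an.HarrisC
import Pool.Agent.Lib.MP_a7c449_an.Index

set_option autoImplicit false

/-!
Harris' bound: `n^(k)(W) ≥ k^(k/(1-k))` for every complex normed space, and `≥ 1/e` for `k = 1`.
-/

namespace Pool.Agent.Lib.MP_a7c449_an

variable {W : Type*} [NormedAddCommGroup W] [NormedSpace ℂ W]

private theorem Harris_limit {a K v : ℝ} (hK : 0 < K) (h : ∀ v' : ℝ, v < v' → a ≤ K * v') :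
    a ≤ K * v := by
  refine le_of_forall_pos_le_add (fun ε hε => ?_)
  have h1 := h (v + ε / K) (by have := div_pos hε hK; linarith)
  refine h1.trans (le_of_eq ?_)
  field_simp

/-- For `v' > numRadius` take `r = 1 / (k v')` in `euler_bound` and `euler_cauchy`:
`‖P x‖^(k-1) ≤ (k v')^(k-1) * k`; then let `v' → numRadius`. -/
theorem harris {k : ℕ} (hk : 2 ≤ k) (A : W [×k]→L[ℂ] W) :
    polyNorm ℂ W A ≤ (k : ℝ) ^ ((k : ℝ) / ((k : ℝ) - 1)) * numRadius ℂ W A := by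
  have hk2 : (2 : ℝ) ≤ k := by exact_mod_cast hk
  have hk0 : (0 : ℝ) < k := by linarith
  have hk1 : (0 : ℝ) < (k : ℝ) - 1 := by linarith
  refine Harris_limit (Real.rpow_pos_of_pos hk0 _) (fun v' hv' => ?_)
  have hv0 : 0 ≤ numRadius ℂ W A := numRadius_nonneg A
  have hv'0 : 0 < v' := hv0.trans_lt hv'
  have hr : 0 < 1 / ((k : ℝ) * v') := by positivity
  have e1 : ((k : ℝ) - 1) * v' * (1 / ((k : ℝ) * v')) = 1 - 1 / (k : ℝ) := by field_simp
  have hkinv : 0 < 1 / (k : ℝ) := by positivity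
  obtain ⟨N, hN, hb⟩ := euler_bound hk A v' (1 / ((k : ℝ) * v')) hv' hr (by rw [e1]; linarith)
  set M : ℝ := (k : ℝ) ^ (((k - 1 : ℕ) : ℝ)⁻¹) with hM
  have hM0 : 0 < M := Real.rpow_pos_of_pos hk0 _
  have hMk : M ^ (k - 1) = k := Real.rpow_inv_natCast_pow hk0.le (by omega)
  refine polyNorm_le A _ (fun x hx => ?_)
  have hc := euler_cauchy A x N hN (1 / ((k : ℝ) * v')) M hr (fun z hz => by
    have h1 := hb x z hx hz.le
    rw [e1] at h1
    refine (pow_le_pow_iff_left₀ (norm_nonneg _) hM0.le (by omega : k - 1 ≠ 0)).mp ?_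
    rw [hMk]
    have e2 : (1 - (1 - 1 / (k : ℝ))) = (k : ℝ)⁻¹ := by ring
    rw [e2, ← div_eq_mul_inv, div_le_one hk0] at h1
    exact h1)
  refine hc.trans (le_of_eq ?_)
  have e3 : M * k = (k : ℝ) ^ ((k : ℝ) / ((k : ℝ) - 1)) := by
    rw [hM]
    nth_rewrite 2 [← Real.rpow_one (k : ℝ)]
    rw [← Real.rpow_add hk0, Nat.cast_sub (by omega), Nat.cast_one]
    congr 1
    field_simp
    ring
  rw [← e3, div_div_eq_mul_div, div_one]
  ring

/-- For `v' > numRadius` take `r = 1 / v'` in `euler_bound_one` and `euler_cauchy`. -/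
theorem harris_one (A : W [×1]→L[ℂ] W) :
    polyNorm ℂ W A ≤ Real.exp 1 * numRadius ℂ W A := by
  refine Harris_limit (Real.exp_pos 1) (fun v' hv' => ?_)
  have hv0 : 0 ≤ numRadius ℂ W A := numRadius_nonneg A
  have hv'0 : 0 < v' := hv0.trans_lt hv'
  have hr : 0 < 1 / v' := by positivity
  obtain ⟨N, hN, hb⟩ := euler_bound_one A v' (1 / v') hv' hr
  have e1 : v' * (1 / v') = 1 := by field_simp
  rw [e1] at hb
  refine polyNorm_le A _ (fun x hx => ?_)
  have hc := euler_cauchy A x N hN (1 / v') (Real.exp 1) hr (fun z hz => hb x z hx hz.le)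
  refine hc.trans (le_of_eq ?_)
  rw [div_div_eq_mul_div, div_one]

theorem le_numIndex_complex [Nontrivial W] {k : ℕ} (hk : 2 ≤ k) :
    (k : ℝ) ^ ((k : ℝ) / (1 - (k : ℝ))) ≤ numIndex ℂ W k := by
  have hk2 : (2 : ℝ) ≤ k := by exact_mod_cast hk
  have hk0 : (0 : ℝ) < k := by linarith
  refine le_numIndex k _ (fun A hA => ?_)
  have h := harris hk A
  rw [hA] at h
  have hK : 0 < (k : ℝ) ^ ((k : ℝ) / ((k : ℝ) - 1)) := Real.rpow_pos_of_pos hk0 _
  have e : (k : ℝ) ^ ((k : ℝ) / (1 - (k : ℝ))) = ((k : ℝ) ^ ((k : ℝ) / ((k : ℝ) - 1)))⁻¹ := by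
    rw [← Real.rpow_neg hk0.le]
    congr 1
    rw [← div_neg]
    congr 1
    ring
  rw [e, inv_le_iff_one_le_mul₀' hK]
  exact h

theorem le_numIndex_one_complex [Nontrivial W] : Real.exp (-1) ≤ numIndex ℂ W 1 := by
  refine le_numIndex 1 _ (fun A hA => ?_)
  have h := harris_one A
  rw [hA] at h
  rw [Real.exp_neg, inv_le_iff_one_le_mul₀' (Real.exp_pos 1)]
  exact h

end Pool.Agent.Lib.MP_a7c449_an
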