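import Pool.Agent.Lib.MP_a7c449_an.IsoR
import Pool.Agent.Lib.MP_a7c449_an.CoeffA
import Pool.Agent.Lib.MP_a7c449_an.ChebA

set_option autoImplicit false

/-!
Spaces with isolated coordinates, real scalars: `n^(k) ≥ 2^(1-k)`.
-/

namespace Pool.Agent.Lib.MP_a7c449_an

variable {Y : Type*} [NormedAddCommGroup Y] [NormedSpace ℝ Y] {I : Type*}

/-- With `a = δ i y`, `z = y - a • e i` and the coefficients `c r` of `exists_coeff A (e i) z`:
`δ i (P y) = ∑ a^(k-r) δ i (c r)`, and `∑ m^r δ i (c r) = δ i (P (e i + m z))` is bounded by the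
numerical radius for `|m| ≤ 1` (`side_le`); use `cheb_growth`. -/
theorem coord_poly_le_real (C : Coord ℝ Y I) {k : ℕ} (hk : k ≠ 0) (A : Y [×k]→L[ℝ] Y) (y : Y)
    (hy : ‖y‖ ≤ 1) (i : I) : |C.δ i (A fun _ => y)| ≤ 2 ^ (k - 1) * numRadius ℝ Y A := by
  obtain ⟨c, hc⟩ := exists_coeff A (C.e i) (y - C.δ i y • C.e i)
  have ha : |C.δ i y| ≤ 1 := by
    rw [← Real.norm_eq_abs]
    exact (C.norm_le i y).trans hy
  have h1 := cheb_growth k hk (fun r => C.δ i (c r)) (numRadius ℝ Y A) (fun m hm => by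
    have h2 := side_le C A y hy i m hm
    have h3 := hc 1 m
    rw [one_smul] at h3
    rw [h3, map_sum] at h2
    simpa using h2) (C.δ i y) ha
  have h4 := hc (C.δ i y) 1
  have h5 : C.δ i y • C.e i + (1 : ℝ) • (y - C.δ i y • C.e i) = y := by
    rw [one_smul]; abel
  rw [h5] at h4
  rw [h4, map_sum]
  simpa using h1

theorem le_numIndex_real [Nonempty I] (C : Coord ℝ Y I) (k : ℕ) (hk : k ≠ 0) :
    (1 / 2 : ℝ) ^ (k - 1) ≤ numIndex ℝ Y k := by
  have hnt : Nontrivial Y := by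
    obtain ⟨i₀⟩ := ‹Nonempty I›
    exact ⟨⟨C.e i₀, 0, fun h => by
      have := C.self i₀
      rw [h, map_zero] at this
      exact zero_ne_one this⟩⟩
  refine le_numIndex k _ (fun A hA => ?_)
  have hv : 0 ≤ numRadius ℝ Y A := numRadius_nonneg A
  have h1 : polyNorm ℝ Y A ≤ 2 ^ (k - 1) * numRadius ℝ Y A :=
    polyNorm_le A _ fun y hy => C.le_of _ _ (by positivity) fun i => by
      rw [Real.norm_eq_abs]
      exact coord_poly_le_real C hk A y hy i
  rw [hA] at h1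
  have h2 : (0 : ℝ) < 2 ^ (k - 1) := by positivity
  rw [one_div, inv_pow, inv_le_iff_one_le_mul₀' h2]
  exact h1

end Pool.Agent.Lib.MP_a7c449_an
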