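import Pool.Agent.Lib.MP_a7c449_an.Index
import Pool.Agent.Lib.MP_a7c449_an.ChebB

set_option autoImplicit false

/-!
Spaces with isolated coordinates, real scalars: `n^(k) ≤ 2^(1-k)`.
-/

namespace Pool.Agent.Lib.MP_a7c449_an

variable {Y : Type*} [NormedAddCommGroup Y] [NormedSpace ℝ Y] {I : Type*}

/-- Binary forms in two functionals are homogeneous polynomials (sum over `r` of the product of
`k - r` factors `f` and `r` factors `g`). -/
theorem exists_form (k : ℕ) (c : Fin (k + 1) → ℝ) (f g : StrongDual ℝ Y) (x₀ : Y) :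
    ∃ A : Y [×k]→L[ℝ] Y, ∀ y : Y, (A fun _ => y) =
      (∑ r : Fin (k + 1), f y ^ (k - (r : ℕ)) * g y ^ (r : ℕ) * c r) • x₀ := by
  classical
  let B : Fin (k + 1) → ContinuousMultilinearMap ℝ (fun _ : Fin k => Y) ℝ := fun r =>
    (ContinuousMultilinearMap.mkPiAlgebra ℝ (Fin k) ℝ).compContinuousLinearMap
      (fun i => if (i : ℕ) < k - (r : ℕ) then f else g)
  have hB : ∀ (r : Fin (k + 1)) (y : Y), (B r fun _ => y) = f y ^ (k - (r : ℕ)) * g y ^ (r : ℕ) := by
    intro r y
    have h1 : (B r fun _ => y) = ∏ i : Fin k, (if (i : ℕ) < k - (r : ℕ) then f y else g y) := by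
      simp only [B, ContinuousMultilinearMap.compContinuousLinearMap_apply,
        ContinuousMultilinearMap.mkPiAlgebra_apply]
      refine Finset.prod_congr rfl fun i _ => ?_
      split_ifs <;> rfl
    have hr : (r : ℕ) ≤ k := by omega
    have e1 : (Finset.univ.filter (fun i : Fin k => (i : ℕ) < k - (r : ℕ))).card = k - (r : ℕ) := by
      rw [Fin.card_filter_val_lt]
      omega
    have e2 : (Finset.univ.filter (fun i : Fin k => ¬ (i : ℕ) < k - (r : ℕ))).card = (r : ℕ) := by
      have h3 := Finset.card_filter_add_card_filter_not (s := (Finset.univ : Finset (Fin k)))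
        (fun i : Fin k => (i : ℕ) < k - (r : ℕ))
      rw [e1, Finset.card_univ, Fintype.card_fin] at h3
      omega
    rw [h1, Finset.prod_ite, Finset.prod_const, Finset.prod_const, e1, e2]
  refine ⟨(∑ r : Fin (k + 1), c r • B r).smulRight x₀, fun y => ?_⟩
  rw [ContinuousMultilinearMap.smulRight_apply, ContinuousMultilinearMap.sum_apply]
  congr 1
  refine Finset.sum_congr rfl fun r _ => ?_
  rw [ContinuousMultilinearMap.smul_apply, hB, smul_eq_mul, mul_comm]

/-- If `f` norms `y` and `|δ i y| < 1` then `f (e i) = 0`: the `i`-th coordinate of `y` can be moved a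
little in both directions without leaving the unit ball. -/
theorem apply_e_eq_zero (C : Coord ℝ Y I) (y : Y) (f : StrongDual ℝ Y) (hy : ‖y‖ = 1) (hf : ‖f‖ = 1)
    (hfy : f y = 1) (i : I) (hi : |C.δ i y| < 1) : f (C.e i) = 0 := by
  set ε := 1 - |C.δ i y| with hε
  have hε0 : 0 < ε := by linarith
  have key : ∀ t : ℝ, |t| ≤ ε → t * f (C.e i) ≤ 0 := by
    intro t ht
    have h1 : ‖y + t • C.e i‖ ≤ 1 := by
      refine C.le_of _ 1 zero_le_one fun j => ?_
      by_cases h : j = i
      · subst h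
        rw [map_add, map_smul, C.self j, smul_eq_mul, mul_one, Real.norm_eq_abs]
        refine (abs_add_le _ _).trans ?_
        linarith
      · rw [map_add, map_smul, C.other j i h, smul_zero, add_zero]
        exact (C.norm_le j y).trans hy.le
    have h2 : f (y + t • C.e i) ≤ 1 := by
      have h3 := f.le_opNorm (y + t • C.e i)
      rw [hf, one_mul, Real.norm_eq_abs] at h3
      exact (le_abs_self _).trans (h3.trans h1)
    rw [map_add, map_smul, hfy, smul_eq_mul] at h2
    linarith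
  have h1 := key ε (by rw [abs_of_pos hε0])
  have h2 := key (-ε) (by rw [abs_neg, abs_of_pos hε0])
  have h3 : f (C.e i) ≤ 0 := by
    by_contra hcon
    push Not at hcon
    have := mul_pos hε0 hcon
    linarith
  have h4 : 0 ≤ f (C.e i) := by
    by_contra hcon
    push Not at hcon
    have := mul_pos_of_neg_of_neg (by linarith : -ε < 0) hcon
    linarith
  exact le_antisymm h3 h4

theorem norm_e_le (C : Coord ℝ Y I) (i : I) : ‖C.e i‖ ≤ 1 := by
  refine C.le_of _ 1 zero_le_one fun j => ?_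
  by_cases h : j = i
  · subst h
    rw [C.self j, norm_one]
  · rw [C.other j i h, norm_zero]
    exact zero_le_one

/-- The polynomial `P y = 2^(1-k) (∑ c_r (δ i y)^(k-r) (δ j y)^r) • e i` with `c` from `exists_cheb` has norm
one (at `e j`) and numerical radius at most `2^(1-k)`. -/
theorem numIndex_real_le (C : Coord ℝ Y I) (i j : I) (hij : i ≠ j) (k : ℕ) (hk : k ≠ 0) :
    numIndex ℝ Y k ≤ (1 / 2 : ℝ) ^ (k - 1) := by
  obtain ⟨c, hc1, hc2, hc3⟩ := exists_cheb k hk
  obtain ⟨A, hA⟩ := exists_form k (fun r => (1 / 2 : ℝ) ^ (k - 1) * c r) (C.δ i) (C.δ j) (C.e i)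
  have hpow : (1 / 2 : ℝ) ^ (k - 1) * 2 ^ (k - 1) = 1 := by
    rw [← mul_pow]; norm_num
  have hpos : (0 : ℝ) < (1 / 2 : ℝ) ^ (k - 1) := by positivity
  have hsum : ∀ l m : ℝ, (∑ r : Fin (k + 1), l ^ (k - (r : ℕ)) * m ^ (r : ℕ) *
      ((1 / 2 : ℝ) ^ (k - 1) * c r)) =
      (1 / 2 : ℝ) ^ (k - 1) * ∑ r : Fin (k + 1), l ^ (k - (r : ℕ)) * m ^ (r : ℕ) * c r := by
    intro l m
    rw [Finset.mul_sum]
    refine Finset.sum_congr rfl fun r _ => ?_
    ring
  have hle1 : ∀ (l : I) (y : Y), ‖y‖ ≤ 1 → |C.δ l y| ≤ 1 := fun l y hy => by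
    rw [← Real.norm_eq_abs]
    exact (C.norm_le l y).trans hy
  have hPej : (A fun _ => C.e j) = C.e i := by
    rw [hA, hsum, C.other i j hij, C.self j]
    have h1 : (∑ r : Fin (k + 1), (0 : ℝ) ^ (k - (r : ℕ)) * (1 : ℝ) ^ (r : ℕ) * c r)
        = c (Fin.last k) := by
      rw [Finset.sum_eq_single (Fin.last k)]
      · simp
      · intro r _ hr
        have h2 : (r : ℕ) < k := by
          have h3 : (r : ℕ) ≠ k := fun h => hr (Fin.ext (by simpa using h))
          omega
        rw [zero_pow (by omega : k - (r : ℕ) ≠ 0)]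
        simp
      · simp
    rw [h1, hc3, hpow, one_smul]
  have hnorm : polyNorm ℝ Y A = 1 := by
    refine polyNorm_eq_one A (fun y hy => ?_) (C.e j) (norm_e_le C j) ?_
    · rw [hA, hsum, norm_smul, Real.norm_eq_abs, abs_mul, abs_of_pos hpos]
      have h1 := hc2 (C.δ i y) (C.δ j y) (hle1 i y hy) (hle1 j y hy)
      calc _ ≤ (1 / 2 : ℝ) ^ (k - 1) * 2 ^ (k - 1) * 1 :=
            mul_le_mul (mul_le_mul_of_nonneg_left h1 hpos.le) (norm_e_le C i) (norm_nonneg _)
              (by positivity)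
        _ = 1 := by rw [hpow, one_mul]
    · rw [hPej]
      have h1 := C.norm_le i (C.e i)
      rwa [C.self i, norm_one] at h1
  refine (numIndex_le A hnorm).trans (numRadius_le A _ hpos.le fun x f hx hf hfx => ?_)
  rw [hA, hsum, map_smul, smul_eq_mul, norm_mul, Real.norm_eq_abs, abs_mul, abs_of_pos hpos]
  rcases lt_or_ge |C.δ i x| 1 with h1 | h1
  · rw [apply_e_eq_zero C x f hx hf hfx i h1, norm_zero, mul_zero]
    exact hpos.le
  · have h2 : |C.δ i x| = 1 := le_antisymm (hle1 i x hx.le) h1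
    have h3 := hc1 (C.δ i x) (C.δ j x) h2 (hle1 j x hx.le)
    have h4 : ‖f (C.e i)‖ ≤ 1 := by
      have h5 := f.le_opNorm (C.e i)
      rw [hf, one_mul] at h5
      exact h5.trans (norm_e_le C i)
    calc _ ≤ (1 / 2 : ℝ) ^ (k - 1) * 1 * 1 :=
          mul_le_mul (mul_le_mul_of_nonneg_left h3 hpos.le) h4 (norm_nonneg _)
            (by positivity)
      _ = (1 / 2 : ℝ) ^ (k - 1) := by ring

end Pool.Agent.Lib.MP_a7c449_an
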