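import Pool.Agent.Lib.MP_a7c449_an.ProfA

set_option autoImplicit false

/-!
The profiles for `k ≥ 2` and `k = 1`.
-/

namespace Pool.Agent.Lib.MP_a7c449_an

/-- For `k ≥ 2`: `m = k^(-1/(k-1))`, `v = m^k = k^(k/(1-k))`, `φ(X) = (X - X^k) / ((k-1) v)`,
`ψ(t) = (k t^(k-1) - 1) / ((k-1) v)`. The tangent inequality is
`t^k + k t^(k-1) (X - t) ≤ X^k` for `X, t ≥ 0`. -/
theorem exists_profile (k : ℕ) (hk : 2 ≤ k) :
    ∃ P : Profile k, P.v = (k : ℝ) ^ ((k : ℝ) / (1 - (k : ℝ))) := by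
  obtain ⟨n, rfl⟩ : ∃ n, k = n + 1 := ⟨k - 1, by omega⟩
  have hn : 1 ≤ n := by omega
  have hn0 : (0 : ℝ) < n := by exact_mod_cast hn
  have hk1 : (1 : ℝ) < ((n + 1 : ℕ) : ℝ) := by push_cast; linarith
  have hk0 : (0 : ℝ) < ((n + 1 : ℕ) : ℝ) := by linarith
  set m : ℝ := ((n + 1 : ℕ) : ℝ) ^ (-1 / (n : ℝ)) with hm
  have hm0 : 0 < m := Real.rpow_pos_of_pos hk0 _
  have hm1 : m < 1 := Real.rpow_lt_one_of_one_lt_of_neg hk1 (div_neg_of_neg_of_pos (by norm_num) hn0)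
  have hmn : ((n + 1 : ℕ) : ℝ) * m ^ n = 1 := by
    rw [hm, ← Real.rpow_natCast, ← Real.rpow_mul hk0.le, div_mul_cancel₀ _ hn0.ne',
      Real.rpow_neg_one]
    exact mul_inv_cancel₀ hk0.ne'
  have hv : m ^ (n + 1) = ((n + 1 : ℕ) : ℝ) ^ (((n + 1 : ℕ) : ℝ) / (1 - ((n + 1 : ℕ) : ℝ))) := by
    rw [hm, ← Real.rpow_natCast, ← Real.rpow_mul hk0.le]
    congr 1
    have h1 : (1 : ℝ) - ((n + 1 : ℕ) : ℝ) = -n := by push_cast; ring
    rw [h1, div_mul_eq_mul_div, neg_one_mul, neg_div, div_neg]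
  have hv0 : 0 < m ^ (n + 1) := pow_pos hm0 _
  have hnv : 0 < (n : ℝ) * m ^ (n + 1) := mul_pos hn0 hv0
  refine ⟨{ m := m, v := m ^ (n + 1)
            φ := fun X => (X - X ^ (n + 1)) / ((n : ℝ) * m ^ (n + 1))
            ψ := fun t => (((n + 1 : ℕ) : ℝ) * t ^ n - 1) / ((n : ℝ) * m ^ (n + 1))
            m_pos := hm0
            m_lt := hm1
            m_pow := rfl
            tangent := ?_
            ident := ?_
            φ_m := ?_
            φ_one := by simp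
            ψ_nonneg := ?_
            ψ_cont := ?_ }, hv⟩
  · intro X t hX ht
    have ht0 : 0 < t := hm0.trans_le ht.1
    have hX0 : 0 < X := hm0.trans_le hX.1
    have h1 : -2 ≤ (X - t) / t := by
      rw [le_div_iff₀ ht0]; linarith
    have h2 := one_add_mul_le_pow h1 (n + 1)
    have h3 : 1 + (X - t) / t = X / t := by field_simp; ring
    rw [h3, div_pow, le_div_iff₀ (pow_pos ht0 _)] at h2
    have h4 : (1 + ((n + 1 : ℕ) : ℝ) * ((X - t) / t)) * t ^ (n + 1) =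
        t ^ (n + 1) + ((n + 1 : ℕ) : ℝ) * t ^ n * (X - t) := by
      field_simp
      ring
    rw [h4] at h2
    have h5 : (t - t ^ (n + 1)) / ((n : ℝ) * m ^ (n + 1)) -
        (((n + 1 : ℕ) : ℝ) * t ^ n - 1) / ((n : ℝ) * m ^ (n + 1)) * (X - t) =
        (X - (t ^ (n + 1) + ((n + 1 : ℕ) : ℝ) * t ^ n * (X - t))) / ((n : ℝ) * m ^ (n + 1)) := by
      ring
    beta_reduce
    rw [h5]
    gcongr
  · intro t ht
    beta_reduce
    have h1 : (t - t ^ (n + 1)) + t * (((n + 1 : ℕ) : ℝ) * t ^ n - 1) = n * t ^ (n + 1) := by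
      push_cast; ring
    rw [mul_div_assoc', ← add_div, h1, mul_div_mul_left _ _ hn0.ne']
  · beta_reduce
    rw [div_eq_one_iff_eq hnv.ne']
    have h1 : m = ((n + 1 : ℕ) : ℝ) * m ^ (n + 1) := by
      rw [pow_succ, ← mul_assoc, hmn, one_mul]
    have h2 : m - m ^ (n + 1) = ((n + 1 : ℕ) : ℝ) * m ^ (n + 1) - m ^ (n + 1) := by
      rw [← h1]
    rw [h2]; push_cast; ring
  · intro t ht
    beta_reduce
    refine div_nonneg ?_ hnv.le
    have h1 : m ^ n ≤ t ^ n := pow_le_pow_left₀ hm0.le ht.1 n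
    have h2 : ((n + 1 : ℕ) : ℝ) * m ^ n ≤ ((n + 1 : ℕ) : ℝ) * t ^ n :=
      mul_le_mul_of_nonneg_left h1 hk0.le
    linarith
  · exact Continuous.continuousOn (by fun_prop)

end Pool.Agent.Lib.MP_a7c449_an
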