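import Pool.Agent.Lib.MP_a7c449_an.ProfA

set_option autoImplicit false

/-!
The profile for `k = 1`.
-/

namespace Pool.Agent.Lib.MP_a7c449_an

/-- For `k = 1`: `m = v = exp (-1)`, `φ(X) = - exp 1 * X * log X`, `ψ(t) = exp 1 * (log t + 1)`. The
tangent inequality is `X - t ≤ X * log (X / t)`, i.e. `1 - t / X ≤ log (X / t)`. -/
theorem exists_profile_one : ∃ P : Profile 1, P.v = Real.exp (-1) := by
  have hE : Real.exp 1 * Real.exp (-1) = 1 := by
    rw [← Real.exp_add]; simp
  have hm : 0 < Real.exp (-1) := Real.exp_pos _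
  have he : 0 < Real.exp 1 := Real.exp_pos _
  refine ⟨
    { m := Real.exp (-1)
      v := Real.exp (-1)
      φ := fun X => -Real.exp 1 * X * Real.log X
      ψ := fun t => Real.exp 1 * (Real.log t + 1)
      m_pos := hm
      m_lt := by
        rw [Real.exp_lt_one_iff]
        norm_num
      m_pow := pow_one _
      tangent := ?_
      ident := ?_
      φ_m := ?_
      φ_one := by simp
      ψ_nonneg := ?_
      ψ_cont := ?_ }, rfl⟩
  · intro X t hX ht
    have hX0 : 0 < X := lt_of_lt_of_le hm hX.1
    have ht0 : 0 < t := lt_of_lt_of_le hm ht.1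
    have h1 := Real.one_sub_inv_le_log_of_pos (div_pos hX0 ht0)
    rw [Real.log_div hX0.ne' ht0.ne', inv_div] at h1
    have h2 := mul_le_mul_of_nonneg_left h1 hX0.le
    have h3 : X * (1 - t / X) = X - t := by field_simp
    rw [h3] at h2
    have h4 := mul_le_mul_of_nonneg_left h2 he.le
    nlinarith [h4]
  · intro t ht
    have h5 : t ^ 1 / Real.exp (-1) = Real.exp 1 * t := by
      rw [div_eq_iff hm.ne', pow_one]
      calc t = t * (Real.exp 1 * Real.exp (-1)) := by rw [hE, mul_one]
        _ = Real.exp 1 * t * Real.exp (-1) := by ring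
    rw [h5]
    ring
  · show -Real.exp 1 * Real.exp (-1) * Real.log (Real.exp (-1)) = 1
    rw [Real.log_exp]
    linarith [hE]
  · intro t ht
    have h6 : -1 ≤ Real.log t := by
      have := Real.log_le_log hm ht.1
      rwa [Real.log_exp] at this
    apply mul_nonneg he.le
    linarith
  · apply ContinuousOn.mul continuousOn_const
    apply ContinuousOn.add _ continuousOn_const
    apply Real.continuousOn_log.mono
    intro t ht
    exact (lt_of_lt_of_le hm ht.1).ne'

end Pool.Agent.Lib.MP_a7c449_an
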