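import Pool.Agent.Lib.MP_a7c449_an.SobB

set_option autoImplicit false

/-!
Sobczyk's theorem, part C: the projection.
-/

namespace Pool.Agent.Lib.MP_a7c449_an

open scoped ZeroAtInfty Topology

universe u

variable {𝕜 : Type*} [RCLike 𝕜] {X : Type u} [NormedAddCommGroup X] [NormedSpace 𝕜 X]

/-- A uniformly bounded sequence of functionals tending to zero on a dense sequence tends to zero
everywhere. -/
theorem tendsto_of_dense (d : ℕ → StrongDual 𝕜 X) (B : ℝ) (hd : ∀ n, ‖d n‖ ≤ B) (x : ℕ → X)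
    (hx : DenseRange x) (h : ∀ m, Filter.Tendsto (fun n => d n (x m)) Filter.atTop (𝓝 0)) (y : X) :
    Filter.Tendsto (fun n => d n y) Filter.atTop (𝓝 0) := by
  have hB : 0 ≤ B := (norm_nonneg _).trans (hd 0)
  rw [Metric.tendsto_atTop]
  intro ε hε
  have hB1 : 0 < 2 * (B + 1) := by positivity
  obtain ⟨m, hm⟩ := hx.exists_dist_lt y (div_pos hε hB1)
  rw [dist_eq_norm] at hm
  obtain ⟨N, hN⟩ := (Metric.tendsto_atTop.1 (h m)) (ε / 2) (half_pos hε)
  refine ⟨N, fun n hn => ?_⟩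
  have h1 := hN n hn
  rw [dist_zero_right] at h1 ⊢
  have h2 : d n y = d n (y - x m) + d n (x m) := by rw [map_sub]; ring
  have h3 : ‖d n (y - x m)‖ ≤ ε / 2 := by
    calc ‖d n (y - x m)‖ ≤ ‖d n‖ * ‖y - x m‖ := (d n).le_opNorm _
      _ ≤ (B + 1) * (ε / (2 * (B + 1))) :=
          mul_le_mul ((hd n).trans (by linarith)) hm.le (norm_nonneg _) (by linarith)
      _ = ε / 2 := by field_simp
  calc ‖d n y‖ = ‖d n (y - x m) + d n (x m)‖ := by rw [h2]
    _ ≤ ‖d n (y - x m)‖ + ‖d n (x m)‖ := norm_add_le _ _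
    _ < ε / 2 + ε / 2 := add_lt_add_of_le_of_lt h3 h1
    _ = ε := by ring

/-- Pointwise null bounded sequences of functionals are operators into `c₀`. -/
theorem exists_operator (d : ℕ → StrongDual 𝕜 X) (B : ℝ) (hB : 0 ≤ B) (hd : ∀ n, ‖d n‖ ≤ B)
    (h : ∀ y, Filter.Tendsto (fun n => d n y) Filter.atTop (𝓝 0)) :
    ∃ R : X →L[𝕜] C₀(ℕ, 𝕜), ∀ y n, R y n = d n y := by
  have H := fun y => exists_c0 (fun n => d n y) (h y)
  choose R hR using H
  refine ⟨LinearMap.mkContinuous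
    { toFun := R
      map_add' := ?_
      map_smul' := ?_ } B ?_, fun y n => hR y n⟩
  · intro a b
    ext n
    rw [hR, ZeroAtInftyContinuousMap.add_apply, hR, hR, map_add]
  · intro c a
    ext n
    rw [RingHom.id_apply, hR, ZeroAtInftyContinuousMap.smul_apply, hR, map_smul]
  · intro y
    apply c0_norm_le _ _ (mul_nonneg hB (norm_nonneg _))
    intro n
    have e : (R y) n = d n y := hR y n
    change ‖(R y) n‖ ≤ B * ‖y‖
    rw [e]
    exact ((d n).le_opNorm y).trans (mul_le_mul_of_nonneg_right (hd n) (norm_nonneg _))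

/-- **Sobczyk's theorem**: an isomorphic copy of `c₀` in a separable space is complemented. -/
theorem sobczyk [TopologicalSpace.SeparableSpace X] (j : C₀(ℕ, 𝕜) →L[𝕜] X) (c : ℝ) (hc : 0 < c)
    (hj : ∀ z, c * ‖z‖ ≤ ‖j z‖) : ∃ R : X →L[𝕜] C₀(ℕ, 𝕜), ∀ z, R (j z) = z := by
  haveI : Nonempty X := ⟨0⟩
  have H := fun n => exists_extension j c hc hj n
  choose f hf hfj using H
  have hB : (0 : ℝ) ≤ 1 / c := by positivity
  obtain ⟨g, hg, hgj, hgt⟩ := exists_close j f (1 / c) hB hf hfj (TopologicalSpace.denseSeq X)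
  have hd : ∀ n, ‖f n - g n‖ ≤ 1 / c + 1 / c := fun n =>
    (norm_sub_le _ _).trans (add_le_add (hf n) (hg n))
  have ht : ∀ y, Filter.Tendsto (fun n => (f n - g n) y) Filter.atTop (𝓝 0) := by
    intro y
    exact tendsto_of_dense (fun n => f n - g n) (1 / c + 1 / c) hd (TopologicalSpace.denseSeq X)
      (TopologicalSpace.denseRange_denseSeq X) (fun m => hgt m) y
  obtain ⟨R, hR⟩ := exists_operator (fun n => f n - g n) (1 / c + 1 / c) (by positivity) hd ht
  refine ⟨R, fun z => ?_⟩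
  ext n
  rw [hR]
  change f n (j z) - g n (j z) = z n
  rw [hfj, hgj, sub_zero]

end Pool.Agent.Lib.MP_a7c449_an
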