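import Pool.Agent.Lib.MP_a7c449_an.Profile

set_option autoImplicit false

/-!
The numerical radius of `(x, y) ↦ (0, x^k)` on the plane of a profile is at most `v`.
-/

namespace Pool.Agent.Lib.MP_a7c449_an

namespace Profile

variable {k : ℕ} (P : Profile k)

/-- Real core. `a, b ≥ 0` are the moduli of the coefficients of a functional, `(x, y)` a point of the
ball (`x, y ≥ 0`) where it attains its maximum `G ≤ 1`.
If `x ≤ m`: `b x^k ≤ b m^k = b v ≤ v` (`b ≤ G` by the point `(0, 1)`, which is in the ball).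
If `x > m`: for `X ∈ [m, x)` the point `(X, φ X)` is in the ball, hence
`b (φ X - φ x) ≤ a (x - X)` (`y ≤ φ x` by the functional tangent at `x`), and
`φ X - φ x ≥ ψ X (x - X)` by `tangent`, so `b ψ X ≤ a`; let `X → x`: `b ψ x ≤ a`. Since
`(x, φ x)` is in the ball `G ≥ a x + b φ x ≥ b (x ψ x + φ x) = b x^k / v`. -/
theorem key_real (a b x y G : ℝ) (ha : 0 ≤ a) (hb : 0 ≤ b) (hx : 0 ≤ x) (hy : 0 ≤ y)
    (hin : ∀ t ∈ Set.Icc P.m 1, P.c₁ t * x + P.c₂ t * y ≤ 1)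
    (hG : a * x + b * y = G) (hG1 : G ≤ 1)
    (hmax : ∀ X Y : ℝ, 0 ≤ X → 0 ≤ Y → (∀ t ∈ Set.Icc P.m 1, P.c₁ t * X + P.c₂ t * Y ≤ 1) →
      a * X + b * Y ≤ G) :
    b * x ^ k ≤ P.v := by
  have hv := P.v_pos
  have hmm : P.m ∈ Set.Icc P.m 1 := ⟨le_rfl, P.m_lt.le⟩
  have h11 : (1 : ℝ) ∈ Set.Icc P.m 1 := ⟨P.m_lt.le, le_rfl⟩
  have hx1 : x ≤ 1 := by
    have h1 := hin 1 h11
    have h2 : P.c₁ 1 = 1 := by
      unfold c₁
      rw [P.ψ_one, one_pow, div_one, one_div, inv_mul_cancel₀ hv.ne']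
    have h3 := mul_nonneg (P.c₂_nonneg 1 h11) hy
    rw [h2, one_mul] at h1
    linarith
  rcases le_or_gt x P.m with hxm | hxm
  · have h1 := hmax 0 1 le_rfl zero_le_one (fun t ht => by
      rw [mul_zero, zero_add, mul_one]
      exact P.c₂_le t ht)
    rw [mul_zero, zero_add, mul_one] at h1
    have h2 : x ^ k ≤ P.m ^ k := pow_le_pow_left₀ hx hxm k
    have h3 : (0 : ℝ) ≤ x ^ k := pow_nonneg hx k
    rw [P.m_pow] at h2
    calc b * x ^ k ≤ 1 * x ^ k := mul_le_mul_of_nonneg_right (h1.trans hG1) h3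
      _ ≤ P.v := by rw [one_mul]; exact h2
  · have hxI : x ∈ Set.Icc P.m 1 := ⟨hxm.le, hx1⟩
    have hx0 : 0 < x := P.m_pos.trans hxm
    have hxk : 0 < x ^ k := pow_pos hx0 k
    have hid := P.ident x hxI
    have hyφ : y ≤ P.φ x := by
      have h1 := hin x hxI
      unfold c₁ c₂ at h1
      have h2 : P.ψ x * P.v / x ^ k * x + P.v / x ^ k * y = (P.ψ x * x + y) * (P.v / x ^ k) := by
        ring
      rw [h2] at h1
      have h3 : P.ψ x * x + y ≤ x ^ k / P.v := by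
        rw [le_div_iff₀ hv]
        have h4 : (P.ψ x * x + y) * P.v = (P.ψ x * x + y) * (P.v / x ^ k) * x ^ k := by
          field_simp
        rw [h4]
        calc (P.ψ x * x + y) * (P.v / x ^ k) * x ^ k ≤ 1 * x ^ k :=
              mul_le_mul_of_nonneg_right h1 hxk.le
          _ = x ^ k := one_mul _
      rw [← hid] at h3
      linarith
    have hX : ∀ X ∈ Set.Ico P.m x, b * P.ψ X ≤ a := by
      intro X hX
      have hXI : X ∈ Set.Icc P.m 1 := ⟨hX.1, (hX.2.trans_le hx1).le⟩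
      have h1 := hmax X (P.φ X) (P.m_pos.le.trans hX.1) (P.φ_nonneg X hXI)
        (fun t ht => P.profile_mem X t hXI ht)
      have h2 := P.tangent x X hxI hXI
      have h3 : b * P.ψ X * (x - X) ≤ a * (x - X) := by
        have h4 := mul_le_mul_of_nonneg_left h2 hb
        have h5 := mul_le_mul_of_nonneg_left hyφ hb
        nlinarith
      exact le_of_mul_le_mul_right h3 (sub_pos.2 hX.2)
    have hlim : b * P.ψ x ≤ a := by
      have hc : Filter.Tendsto P.ψ (nhdsWithin x (Set.Ico P.m x)) (nhds (P.ψ x)) :=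
        (P.ψ_cont x hxI).mono_left (nhdsWithin_mono x fun X hX => ⟨hX.1, (hX.2.trans_le hx1).le⟩)
      have hne : (nhdsWithin x (Set.Ico P.m x)).NeBot := by
        rw [nhdsWithin_Ico_eq_nhdsLT hxm]
        infer_instance
      refine le_of_tendsto (hc.const_mul b) ?_
      filter_upwards [self_mem_nhdsWithin] with X hX'
      exact hX X hX'
    have h1 := hmax x (P.φ x) hx (P.φ_nonneg x hxI) (fun t ht => P.profile_mem x t hxI ht)
    have h2 : b * (P.φ x + x * P.ψ x) ≤ 1 := by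
      have h3 := mul_le_mul_of_nonneg_right hlim hx
      nlinarith
    rw [hid, mul_div_assoc', div_le_one hv] at h2
    exact h2

private lemma exists_phase (a : ℂ) (X : ℝ) (hX : 0 ≤ X) :
    ∃ u : ℂ, ‖u‖ = X ∧ a * u = ((‖a‖ * X : ℝ) : ℂ) := by
  by_cases ha : a = 0
  · refine ⟨(X : ℂ), ?_, ?_⟩
    · rw [Complex.norm_real, Real.norm_of_nonneg hX]
    · rw [ha]
      simp
  · have hn : ‖a‖ ≠ 0 := norm_ne_zero_iff.2 ha
    have hnc : (‖a‖ : ℂ) ≠ 0 := by exact_mod_cast hn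
    refine ⟨(X : ℂ) * ((starRingEnd ℂ) a / (‖a‖ : ℂ)), ?_, ?_⟩
    · rw [norm_mul, norm_div, RCLike.norm_conj, Complex.norm_real, Complex.norm_real,
        Real.norm_of_nonneg hX, Real.norm_of_nonneg (norm_nonneg a), div_self hn, mul_one]
    · have h1 : a * (starRingEnd ℂ) a = (‖a‖ : ℂ) ^ 2 := Complex.mul_conj' a
      calc a * ((X : ℂ) * ((starRingEnd ℂ) a / (‖a‖ : ℂ)))
          = (X : ℂ) * (a * (starRingEnd ℂ) a / (‖a‖ : ℂ)) := by ring
        _ = ((‖a‖ * X : ℝ) : ℂ) := by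
          rw [h1]
          push_cast
          field_simp

/-- Reduce to `key_real` with `a ↦ |a|` etc.: for `X, Y ≥ 0` in the ball choose phases with
`a u = |a| X`, `b w = |b| Y`, `|u| = X`, `|w| = Y`. In particular `(|x|, |y|)` gives
`|a||x| + |b||y| ≤ Re (a x + b y) ≤ |a||x| + |b||y|`. -/
theorem key (a b x y : ℂ) (hin : P.plane.InBall x y 1)
    (hmax : ∀ u w : ℂ, P.plane.InBall u w 1 → (a * u + b * w).re ≤ (a * x + b * y).re)
    (h1 : (a * x + b * y).re ≤ 1) : ‖b‖ * ‖x‖ ^ k ≤ P.v := by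
  have hin' := (P.inBall_iff x y 1).1 hin
  have hph : ∀ X Y : ℝ, 0 ≤ X → 0 ≤ Y → (∀ t ∈ Set.Icc P.m 1, P.c₁ t * X + P.c₂ t * Y ≤ 1) →
      ‖a‖ * X + ‖b‖ * Y ≤ (a * x + b * y).re := by
    intro X Y hX hY h
    obtain ⟨u, hu, hau⟩ := exists_phase a X hX
    obtain ⟨w, hw, hbw⟩ := exists_phase b Y hY
    have h2 := hmax u w ((P.inBall_iff u w 1).2 (fun t ht => by rw [hu, hw]; exact h t ht))
    rw [hau, hbw, Complex.add_re, Complex.ofReal_re, Complex.ofReal_re] at h2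
    exact h2
  have hle : (a * x + b * y).re ≤ ‖a‖ * ‖x‖ + ‖b‖ * ‖y‖ := by
    rw [Complex.add_re, ← norm_mul, ← norm_mul]
    exact add_le_add (Complex.re_le_norm _) (Complex.re_le_norm _)
  have hG1 := hph ‖x‖ ‖y‖ (norm_nonneg _) (norm_nonneg _) hin'
  exact P.key_real ‖a‖ ‖b‖ ‖x‖ ‖y‖ (‖a‖ * ‖x‖ + ‖b‖ * ‖y‖) (norm_nonneg _) (norm_nonneg _)
    (norm_nonneg _) (norm_nonneg _) hin' rfl (hG1.trans h1)
    (fun X Y hX hY h => (hph X Y hX hY h).trans hle)

end Profile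

end Pool.Agent.Lib.MP_a7c449_an
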