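import Pool.Agent.Lib.MP_a7c449_an.BiPlane
import Pool.Agent.Lib.MP_a7c449_an.ProfileKey
import Pool.Agent.Lib.MP_a7c449_an.Index

set_option autoImplicit false

/-!
An M-summand isometric to the extremal plane makes the index of order `k` at most `v`.
-/

namespace Pool.Agent.Lib.MP_a7c449_an

variable {W : Type*} [NormedAddCommGroup W] [NormedSpace ℂ W]

private lemma upperC_norm {k : ℕ} (P : Profile k) (B : BiPlane P.plane W) {x y : ℂ}
    (h : P.plane.InBall x y 1) : ‖x • B.S + y • B.T‖ ≤ 1 := by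
  have h1 := B.split 0 x y 1 (by rw [norm_zero]; exact zero_le_one) h
  simpa using h1

/-- `(1, 0)` and `(0, 1)` are in the unit ball of the plane, so `‖S‖ ≤ 1` and `‖T‖ ≤ 1` (`split` with
`ξ = 0`). -/
theorem biPlane_norm_S {k : ℕ} (P : Profile k) (B : BiPlane P.plane W) : ‖B.S‖ ≤ 1 := by
  have h1 : P.plane.InBall 1 0 1 := by
    rw [P.inBall_iff]
    intro t ht
    rw [norm_one, norm_zero, mul_one, mul_zero, add_zero]
    exact P.c₁_le t ht
  have h2 := upperC_norm P B h1
  rwa [one_smul, zero_smul, add_zero] at h2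

theorem biPlane_norm_T {k : ℕ} (P : Profile k) (B : BiPlane P.plane W) : ‖B.T‖ = 1 := by
  apply le_antisymm
  · have h1 : P.plane.InBall 0 1 1 := by
      rw [P.inBall_iff]
      intro t ht
      rw [norm_one, norm_zero, mul_one, mul_zero, zero_add]
      exact P.c₂_le t ht
    have h2 := upperC_norm P B h1
    rwa [one_smul, zero_smul, zero_add] at h2
  · have h1 := (P.plane.lower _ _ _ (B.inBall B.T)).2
    rwa [B.QT, norm_one] at h1

/-- Take `rankOne k B.P B.T`, i.e. `ξ ↦ (P ξ)^k • T`. Its norm is one (at `S`). If `‖ξ‖ = ‖f‖ = f ξ = 1`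
put `x = P ξ`, `y = Q ξ`, `a = f S`, `b = f T`; by `split` with `r = 1`
`Re f (ξ - (x S + y T) + (u S + w T)) ≤ 1`, so `Re (a u + b w) ≤ Re (a x + b y)` for all `(u, w)` in the
ball; `Re (a x + b y) ≤ ‖x S + y T‖ ≤ 1`; conclude by `Profile.key`. -/
theorem numIndex_le_of_profile {k : ℕ} (P : Profile k) (B : BiPlane P.plane W) :
    numIndex ℂ W k ≤ P.v := by
  have hA : polyNorm ℂ W (rankOne k B.P B.T) = 1 := by
    refine polyNorm_eq_one _ (fun ξ hξ => ?_) B.S (biPlane_norm_S P B) ?_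
    · rw [rankOne_apply, norm_smul, biPlane_norm_T P B, mul_one, norm_pow]
      exact pow_le_one₀ (norm_nonneg _) (((P.plane.lower _ _ _ (B.inBall ξ)).1).trans hξ)
    · rw [rankOne_apply, B.PS, one_pow, one_smul, biPlane_norm_T P B]
  refine (numIndex_le _ hA).trans (numRadius_le _ _ P.v_pos.le fun ξ f hξ hf hfξ => ?_)
  rw [rankOne_apply, map_smul, smul_eq_mul, norm_mul, norm_pow, mul_comm]
  have hre : ∀ η : W, ‖η‖ ≤ 1 → (f η).re ≤ 1 := by
    intro η hη
    refine (Complex.re_le_norm _).trans ((f.le_opNorm η).trans ?_)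
    rw [hf, one_mul]
    exact hη
  have hin : P.plane.InBall (B.P ξ) (B.Q ξ) 1 := by
    have := B.inBall ξ
    rwa [hξ] at this
  refine P.key (f B.S) (f B.T) (B.P ξ) (B.Q ξ) hin (fun u w huw => ?_) ?_
  · have h1 := hre _ (B.split ξ u w 1 hξ.le huw)
    rw [map_add, map_sub, map_add, map_add, map_smul, map_smul, map_smul, map_smul, hfξ,
      smul_eq_mul, smul_eq_mul, smul_eq_mul, smul_eq_mul, Complex.add_re, Complex.sub_re,
      Complex.one_re, mul_comm (B.P ξ), mul_comm (B.Q ξ), mul_comm u, mul_comm w] at h1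
    linarith
  · have h1 := hre _ (upperC_norm P B hin)
    rwa [map_add, map_smul, map_smul, smul_eq_mul, smul_eq_mul, mul_comm (B.P ξ),
      mul_comm (B.Q ξ)] at h1

end Pool.Agent.Lib.MP_a7c449_an
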