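import Pool.Agent.Lib.MP_a7c449_an.BiPlane
import Pool.Agent.Lib.MP_a7c449_an.Euclid
import Pool.Agent.Lib.MP_a7c449_an.Index

set_option autoImplicit false

/-!
An M-summand isometric to the Euclidean plane makes all real polynomial indices zero.
-/

namespace Pool.Agent.Lib.MP_a7c449_an

variable {W : Type*} [NormedAddCommGroup W] [NormedSpace ℝ W]

/-- A `(k+1)`-linear map with diagonal `ξ ↦ (P ξ)^k • (P ξ • T - Q ξ • S)`: for example
`rankOne (k+1) P T` minus the multilinear map `(ξ₀, …, ξ_k) ↦ (Q ξ₀ ∏_{i ≥ 1} P ξ_i) • S`. -/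
theorem exists_rotation (k : ℕ) (P Q : StrongDual ℝ W) (S T : W) :
    ∃ A : W [×(k + 1)]→L[ℝ] W, ∀ ξ : W, (A fun _ => ξ) = P ξ ^ k • (P ξ • T - Q ξ • S) := by
  refine ⟨rankOne (k + 1) P T -
    ((ContinuousMultilinearMap.mkPiAlgebra ℝ (Fin (k + 1)) ℝ).compContinuousLinearMap
      (fun i => if i = 0 then Q else P) |>.smulRight S), fun ξ => ?_⟩
  have h1 : (((ContinuousMultilinearMap.mkPiAlgebra ℝ (Fin (k + 1)) ℝ).compContinuousLinearMap
      (fun i => if i = 0 then Q else P) |>.smulRight S) fun _ => ξ) = (Q ξ * P ξ ^ k) • S := by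
    simp [Fin.prod_univ_succ]
  rw [sub_apply, h1, rankOne_apply, smul_sub, smul_smul, smul_smul,
    pow_succ, mul_comm (Q ξ)]

/-- Norm one: `(-y, x)` has Euclidean norm `|(x, y)| ≤ 1`, attained at `S`. If
`‖ξ‖ = ‖f‖ = f ξ = 1` put `x = P ξ`, `y = Q ξ`, `a = f S`, `b = f T`; by `split`
`a u + b w ≤ a x + b y` for `(u, w)` in the disc, so `b x = a y` by `euclid_key` and
`f (x^k (x T - y S)) = 0`. -/
theorem numIndex_eq_zero (B : BiPlane euclid W) (k : ℕ) (hk : k ≠ 0) : numIndex ℝ W k = 0 := by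
  obtain ⟨k, rfl⟩ := Nat.exists_eq_succ_of_ne_zero hk
  obtain ⟨A, hA⟩ := exists_rotation k B.P B.Q B.S B.T
  have hplane : ∀ u w : ℝ, u ^ 2 + w ^ 2 ≤ 1 → ‖u • B.S + w • B.T‖ ≤ 1 := by
    intro u w huw
    have h := B.split 0 u w 1 (by simp) ((euclid_inBall u w 1).2 ⟨zero_le_one, by simpa using huw⟩)
    simpa using h
  have hball : ∀ ξ : W, B.P ξ ^ 2 + B.Q ξ ^ 2 ≤ ‖ξ‖ ^ 2 := fun ξ =>
    ((euclid_inBall _ _ _).1 (B.inBall ξ)).2
  have hnorm : polyNorm ℝ W A = 1 := by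
    refine polyNorm_eq_one A ?_ B.S ?_ ?_
    · intro ξ hξ
      have h1 := hball ξ
      have h2 : ‖ξ‖ ^ 2 ≤ 1 := pow_le_one₀ (norm_nonneg _) hξ
      rw [hA, norm_smul, norm_pow]
      have h3 : ‖B.P ξ‖ ≤ 1 := by
        rw [Real.norm_eq_abs]
        exact abs_le_one_iff_mul_self_le_one.2 (by nlinarith [sq_nonneg (B.Q ξ)])
      have h4 : ‖B.P ξ • B.T - B.Q ξ • B.S‖ ≤ 1 := by
        have h5 := hplane (-B.Q ξ) (B.P ξ) (by nlinarith)
        have h6 : (-B.Q ξ) • B.S + B.P ξ • B.T = B.P ξ • B.T - B.Q ξ • B.S := by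
          rw [neg_smul]
          abel
        rwa [h6] at h5
      exact mul_le_one₀ (pow_le_one₀ (norm_nonneg _) h3) (norm_nonneg _) h4
    · have := hplane 1 0 (by norm_num)
      simpa using this
    · rw [hA, B.PS, B.QS]
      have h1 := hball B.T
      rw [B.PT, B.QT] at h1
      have h2 : (1 : ℝ) ≤ ‖B.T‖ := by
        have := norm_nonneg B.T
        nlinarith
      simpa using h2
  refine le_antisymm ?_ (numIndex_nonneg _)
  refine (numIndex_le A hnorm).trans (numRadius_le A 0 le_rfl ?_)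
  intro ξ f hξ hf hfξ
  have hkey : f B.S * B.Q ξ = f B.T * B.P ξ := by
    refine euclid_key _ _ _ _ (by simpa [hξ] using B.inBall ξ) ?_
    intro u w huw
    have h1 := B.split ξ u w 1 hξ.le huw
    have h2 := (le_abs_self _).trans ((f.le_opNorm _).trans (mul_le_mul_of_nonneg_left h1
      (norm_nonneg _)))
    rw [hf, one_mul, map_add, map_sub, map_add, map_add, map_smul, map_smul, map_smul, map_smul,
      hfξ] at h2
    simp only [smul_eq_mul] at h2
    linarith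
  rw [hA, map_smul, map_sub, map_smul, map_smul]
  simp only [smul_eq_mul]
  have h0 : B.P ξ * f B.T - B.Q ξ * f B.S = 0 := by linarith
  rw [h0, mul_zero, norm_zero]

end Pool.Agent.Lib.MP_a7c449_an
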