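import Pool.Agent.Lib.MP_a7c449_an.IsoC
import Pool.Agent.Lib.MP_a7c449_an.IsoRLower
import Pool.Agent.Lib.MP_a7c449_an.IsoRUpper
import Pool.Agent.Lib.MP_a7c449_an.Harris
import Pool.Agent.Lib.MP_a7c449_an.ProfileK
import Pool.Agent.Lib.MP_a7c449_an.ProfileOne
import Pool.Agent.Lib.MP_a7c449_an.UpperC
import Pool.Agent.Lib.MP_a7c449_an.UpperR
import Pool.Agent.Lib.MP_a7c449_an.BiE
import Pool.Agent.Lib.MP_a7c449_an.SobC
import Pool.Agent.Lib.MP_a7c449_an.Norming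
import Pool.Agent.Lib.MP_a7c449_an.Construct

set_option autoImplicit false

/-!
Universal renorming of separable spaces containing `c₀`.
-/

namespace Pool.Agent.Lib.MP_a7c449_an

open scoped ZeroAtInfty

universe u

theorem renorm_general {𝕜 : Type} [RCLike 𝕜] (X : Type u) [NormedAddCommGroup X] [NormedSpace 𝕜 X]
    [CompleteSpace X] [TopologicalSpace.SeparableSpace X] (j : C₀(ℕ, 𝕜) →L[𝕜] X) (c : ℝ)
    (hc : 0 < c) (hj : ∀ z, c * ‖z‖ ≤ ‖j z‖) (D : ℕ → PlaneData 𝕜) :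
    ∃ (Y : Type) (_ : NormedAddCommGroup Y) (_ : NormedSpace 𝕜 Y) (_ : CompleteSpace Y)
      (C : Coord 𝕜 Y Idx), Nonempty (X ≃L[𝕜] Y) ∧ ∀ k, Nonempty (MPlane C (D k)) := by
  obtain ⟨R, hR⟩ := sobczyk j c hc hj
  obtain ⟨h, hh, hn⟩ := exists_norming 𝕜 X
  obtain ⟨Fa⟩ := exists_family j R hR h hh hn D
  exact Fa.realize

theorem complexCase (X : Type u) [NormedAddCommGroup X] [NormedSpace ℂ X] [CompleteSpace X]
    [TopologicalSpace.SeparableSpace X]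
    (hX : ∃ (j : C₀(ℕ, ℂ) →L[ℂ] X) (c : ℝ), 0 < c ∧ ∀ z, c * ‖z‖ ≤ ‖j z‖) :
    ∃ (Y : Type) (_ : NormedAddCommGroup Y) (_ : NormedSpace ℂ Y) (_ : CompleteSpace Y),
      Nonempty (X ≃L[ℂ] Y) ∧
      (∀ k, numIndex ℂ Y k = 1) ∧
      numIndex ℂ (StrongDual ℂ (StrongDual ℂ Y)) 1 = Real.exp (-1) ∧
      ∀ k : ℕ, 2 ≤ k →
        numIndex ℂ (StrongDual ℂ (StrongDual ℂ Y)) k = (k : ℝ) ^ ((k : ℝ) / (1 - (k : ℝ))) := by
  obtain ⟨j, c, hc, hj⟩ := hX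
  have hP : ∀ k : ℕ, ∃ P : Profile (k + 1),
      P.v = if k = 0 then Real.exp (-1) else ((k + 1 : ℕ) : ℝ) ^ (((k + 1 : ℕ) : ℝ) / (1 - ((k + 1 : ℕ) : ℝ))) := by
    intro k
    by_cases hk : k = 0
    · subst hk
      simpa using exists_profile_one
    · obtain ⟨P, hP⟩ := exists_profile (k + 1) (by omega)
      exact ⟨P, by rw [if_neg hk, hP]⟩
  choose P hPv using hP
  obtain ⟨Y, i1, i2, i3, C, hXY, hM⟩ := renorm_general X j c hc hj (fun k => (P k).plane)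
  refine ⟨Y, i1, i2, i3, hXY, fun k => numIndex_eq_one C k, ?_, ?_⟩
  · obtain ⟨M⟩ := hM 0
    obtain ⟨B⟩ := M.bidual
    have h1 := numIndex_le_of_profile (P 0) B
    rw [hPv 0, if_pos rfl] at h1
    have : Nontrivial (StrongDual ℂ (StrongDual ℂ Y)) := ⟨⟨B.S, 0, fun h => by
      have := B.PS
      rw [h, map_zero] at this
      exact zero_ne_one this⟩⟩
    exact le_antisymm h1 le_numIndex_one_complex
  · intro k hk
    obtain ⟨M⟩ := hM (k - 1)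
    obtain ⟨B⟩ := M.bidual
    have h1 := numIndex_le_of_profile (P (k - 1)) B
    have : Nontrivial (StrongDual ℂ (StrongDual ℂ Y)) := ⟨⟨B.S, 0, fun h => by
      have := B.PS
      rw [h, map_zero] at this
      exact zero_ne_one this⟩⟩
    have hk1 : k - 1 + 1 = k := by omega
    rw [hPv, if_neg (by omega), hk1] at h1
    exact le_antisymm h1 (le_numIndex_complex hk)

theorem realCase (X : Type u) [NormedAddCommGroup X] [NormedSpace ℝ X] [CompleteSpace X]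
    [TopologicalSpace.SeparableSpace X]
    (hX : ∃ (j : C₀(ℕ, ℝ) →L[ℝ] X) (c : ℝ), 0 < c ∧ ∀ z, c * ‖z‖ ≤ ‖j z‖) :
    ∃ (Y : Type) (_ : NormedAddCommGroup Y) (_ : NormedSpace ℝ Y) (_ : CompleteSpace Y),
      Nonempty (X ≃L[ℝ] Y) ∧
      ∀ k : ℕ, k ≠ 0 → numIndex ℝ Y k = (1 / 2) ^ (k - 1) ∧
        numIndex ℝ (StrongDual ℝ (StrongDual ℝ Y)) k = 0 := by
  obtain ⟨j, c, hc, hj⟩ := hX
  obtain ⟨Y, i1, i2, i3, C, hXY, hM⟩ := renorm_general X j c hc hj (fun _ => euclid)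
  refine ⟨Y, i1, i2, i3, hXY, fun k hk => ⟨le_antisymm
    (numIndex_real_le C (0, Sum.inr 0) (1, Sum.inr 0) (by simp) k hk) (le_numIndex_real C k hk), ?_⟩⟩
  obtain ⟨M⟩ := hM 0
  obtain ⟨B⟩ := M.bidual
  exact numIndex_eq_zero B k hk

end Pool.Agent.Lib.MP_a7c449_an
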