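import Pool.Agent.Lib.MP_a7c449_an.Basic

set_option autoImplicit false

/-!
The Euler step: `‖x + h P(x)‖ ≤ ‖x‖ + |h| v(P) ‖x‖^k + C |h|²` on balls.
-/

namespace Pool.Agent.Lib.MP_a7c449_an

variable {𝕜 : Type*} [RCLike 𝕜] {W : Type*} [NormedAddCommGroup W] [NormedSpace 𝕜 W]

/-- `ContinuousMultilinearMap.norm_image_sub_le`. -/
theorem poly_lipschitz {k : ℕ} (A : W [×k]→L[𝕜] W) (R : ℝ) :
    ∃ L : ℝ, 0 ≤ L ∧ ∀ x y : W, ‖x‖ ≤ R → ‖y‖ ≤ R →
      ‖(A fun _ => x) - (A fun _ => y)‖ ≤ L * ‖x - y‖ := by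
  rcases lt_or_ge R 0 with hR | hR
  · exact ⟨0, le_rfl, fun x _ hx _ => absurd ((norm_nonneg x).trans hx) (not_le.2 hR)⟩
  refine ⟨‖A‖ * k * R ^ (k - 1), by positivity, fun x y hx hy => ?_⟩
  have h1 := A.norm_image_sub_le (fun _ => x) (fun _ => y)
  have hcard : Fintype.card (Fin k) = k := Fintype.card_fin k
  rw [hcard] at h1
  refine h1.trans ?_
  have e1 : ‖(fun _ : Fin k => x)‖ ≤ R := (pi_norm_const_le x).trans hx
  have e2 : ‖(fun _ : Fin k => y)‖ ≤ R := (pi_norm_const_le y).trans hy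
  have e3 : ‖(fun _ : Fin k => x) - (fun _ : Fin k => y)‖ ≤ ‖x - y‖ := by
    have : ((fun _ : Fin k => x) - (fun _ : Fin k => y)) = fun _ => x - y := rfl
    rw [this]
    exact pi_norm_const_le _
  have h2 : max ‖(fun _ : Fin k => x)‖ ‖(fun _ : Fin k => y)‖ ^ (k - 1) ≤ R ^ (k - 1) :=
    pow_le_pow_left₀ (le_max_of_le_left (norm_nonneg _)) (max_le e1 e2) _
  exact mul_le_mul (mul_le_mul_of_nonneg_left h2 (by positivity)) e3 (norm_nonneg _)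
    (by positivity)

private theorem HarrisA_pow_sub (n : ℕ) (x y : ℝ) (hy : 0 ≤ y) (hxy : y ≤ x) :
    x ^ n - y ^ n ≤ n * x ^ (n - 1) * (x - y) := by
  induction n with
  | zero => simp
  | succ n ih =>
    have hx : 0 ≤ x := hy.trans hxy
    rcases Nat.eq_zero_or_pos n with rfl | hn
    · simp
    · have e : x ^ (n + 1) - y ^ (n + 1) = x * (x ^ n - y ^ n) + (x - y) * y ^ n := by ring
      have e2 : y ^ n ≤ x ^ n := pow_le_pow_left₀ hy hxy n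
      have e3 : x * x ^ (n - 1) = x ^ n := by
        rw [← pow_succ']; congr 1; omega
      rw [e]
      calc x * (x ^ n - y ^ n) + (x - y) * y ^ n
          ≤ x * (n * x ^ (n - 1) * (x - y)) + (x - y) * x ^ n :=
            add_le_add (mul_le_mul_of_nonneg_left ih hx)
              (mul_le_mul_of_nonneg_left e2 (by linarith))
        _ = n * (x * x ^ (n - 1)) * (x - y) + (x - y) * x ^ n := by ring
        _ = ((n + 1 : ℕ) : ℝ) * x ^ (n + 1 - 1) * (x - y) := by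
            rw [e3, Nat.add_sub_cancel]; push_cast; ring

/-- Let `y = x + h • P x`. If `y = 0` the bound is trivial. Otherwise take a functional `f`
with `‖f‖ = 1` and `f y = ‖y‖`; then `‖y‖ = f y ≤ ‖x‖ + |h| |f (P x)|` and
`|f (P x)| ≤ |f (P y)| + L ‖x - y‖ ≤ v ‖y‖^k + L |h| ‖P x‖` by `norm_apply_poly_le` and
`poly_lipschitz`; finally `‖y‖^k ≤ ‖x‖^k + C' |h|` because `‖y‖ ≤ ‖x‖ + |h| ‖P x‖` and both are
bounded (for instance with `pow_sub_pow_le`-type bounds or `poly`-Lipschitz of `t ↦ t^k`). -/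
theorem euler_step {k : ℕ} (hk : k ≠ 0) (A : W [×k]→L[𝕜] W) (R : ℝ) (hR : 1 ≤ R) :
    ∃ C : ℝ, 0 ≤ C ∧ ∀ (x : W) (h : 𝕜), ‖x‖ ≤ R → ‖h‖ ≤ 1 →
      ‖x + h • (A fun _ => x)‖ ≤ ‖x‖ + ‖h‖ * (numRadius 𝕜 W A * ‖x‖ ^ k) + C * ‖h‖ ^ 2 := by
  set v := numRadius 𝕜 W A with hv
  have hv0 : 0 ≤ v := numRadius_nonneg A
  set a := polyNorm 𝕜 W A with ha
  have ha0 : 0 ≤ a := polyNorm_nonneg A
  set R2 := R + a * R ^ k with hR2
  have hR20 : R ≤ R2 := by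
    have : 0 ≤ a * R ^ k := by positivity
    linarith
  obtain ⟨L, hL0, hL⟩ := poly_lipschitz A R2
  set L2 := k * R2 ^ (k - 1) * (a * R ^ k) with hL2
  have hR2nn : 0 ≤ R2 := by positivity
  have hL2' : 0 ≤ L2 := by positivity
  refine ⟨v * L2 + L * (a * R ^ k), by positivity, ?_⟩
  intro x h hx hh1
  set w := x + h • (A fun _ => x) with hw
  have hh0 : 0 ≤ ‖h‖ := norm_nonneg h
  have hAx : ‖A fun _ => x‖ ≤ a * R ^ k :=
    (norm_poly_le A x).trans (mul_le_mul_of_nonneg_left (pow_le_pow_left₀ (norm_nonneg _) hx k) ha0)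
  have hwx : ‖w - x‖ ≤ ‖h‖ * (a * R ^ k) := by
    rw [hw, add_sub_cancel_left, norm_smul]
    exact mul_le_mul_of_nonneg_left hAx hh0
  have hwn : ‖w‖ ≤ ‖x‖ + ‖h‖ * (a * R ^ k) := by
    have := norm_add_le x (w - x)
    rw [add_sub_cancel] at this
    linarith
  have hwR2 : ‖w‖ ≤ R2 := by
    have : ‖h‖ * (a * R ^ k) ≤ 1 * (a * R ^ k) := mul_le_mul_of_nonneg_right hh1 (by positivity)
    linarith
  have hdiff : ‖(A fun _ => w) - (A fun _ => x)‖ ≤ L * (‖h‖ * (a * R ^ k)) :=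
    (hL w x hwR2 (hx.trans hR20)).trans (mul_le_mul_of_nonneg_left hwx hL0)
  have hpow : ‖w‖ ^ k ≤ ‖x‖ ^ k + ‖h‖ * L2 := by
    rcases le_total ‖w‖ ‖x‖ with hle | hle
    · have h1 : ‖w‖ ^ k ≤ ‖x‖ ^ k := pow_le_pow_left₀ (norm_nonneg _) hle k
      have h2 : 0 ≤ ‖h‖ * L2 := mul_nonneg hh0 hL2'
      linarith
    · have h1 := HarrisA_pow_sub k ‖w‖ ‖x‖ (norm_nonneg _) hle
      have h2 : (k : ℝ) * ‖w‖ ^ (k - 1) * (‖w‖ - ‖x‖) ≤ k * R2 ^ (k - 1) * (‖h‖ * (a * R ^ k)) := by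
        apply mul_le_mul _ (by linarith) (by linarith) (by positivity)
        exact mul_le_mul_of_nonneg_left (pow_le_pow_left₀ (norm_nonneg _) hwR2 _) (by positivity)
      have h3 : (k : ℝ) * R2 ^ (k - 1) * (‖h‖ * (a * R ^ k)) = ‖h‖ * L2 := by rw [hL2]; ring
      linarith
  have hmain : ‖w‖ ≤ ‖x‖ + ‖h‖ * (v * ‖w‖ ^ k + L * (‖h‖ * (a * R ^ k))) := by
    by_cases hw0 : w = 0
    · rw [hw0, norm_zero]
      have : 0 ≤ ‖h‖ * (v * (0 : ℝ) ^ k + L * (‖h‖ * (a * R ^ k))) := by positivity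
      have := norm_nonneg x
      linarith
    · obtain ⟨f, hf, hfw⟩ := exists_dual_vector 𝕜 w (norm_ne_zero_iff.mpr hw0)
      have h1 : f w = f x + h * f (A fun _ => x) := by
        rw [hw, map_add, map_smul, smul_eq_mul]
      have h2 : ‖w‖ ≤ ‖f x‖ + ‖h * f (A fun _ => x)‖ := by
        have : ‖f w‖ = ‖w‖ := by rw [hfw]; simp
        rw [← this, h1]
        exact norm_add_le _ _
      have h3 : ‖f x‖ ≤ ‖x‖ := by
        have := f.le_opNorm x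
        rwa [hf, one_mul] at this
      have h4 : ‖f (A fun _ => x)‖ ≤ v * ‖w‖ ^ k + L * (‖h‖ * (a * R ^ k)) := by
        have e1 : f (A fun _ => x) = f (A fun _ => w) - f ((A fun _ => w) - (A fun _ => x)) := by
          rw [map_sub]; ring
        rw [e1]
        refine (norm_sub_le _ _).trans (add_le_add (norm_apply_poly_le hk A w f hf hfw) ?_)
        have := f.le_opNorm ((A fun _ => w) - (A fun _ => x))
        rw [hf, one_mul] at this
        exact this.trans hdiff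
      rw [norm_mul] at h2
      calc ‖w‖ ≤ ‖f x‖ + ‖h‖ * ‖f (A fun _ => x)‖ := h2
        _ ≤ ‖x‖ + ‖h‖ * (v * ‖w‖ ^ k + L * (‖h‖ * (a * R ^ k))) :=
            add_le_add h3 (mul_le_mul_of_nonneg_left h4 hh0)
  calc ‖w‖ ≤ ‖x‖ + ‖h‖ * (v * ‖w‖ ^ k + L * (‖h‖ * (a * R ^ k))) := hmain
    _ ≤ ‖x‖ + ‖h‖ * (v * (‖x‖ ^ k + ‖h‖ * L2) + L * (‖h‖ * (a * R ^ k))) := by
        gcongr
    _ = ‖x‖ + ‖h‖ * (v * ‖x‖ ^ k) + (v * L2 + L * (a * R ^ k)) * ‖h‖ ^ 2 := by ring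

end Pool.Agent.Lib.MP_a7c449_an
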