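import Pool.Agent.Lib.MP_a7c449_an.HarrisA

set_option autoImplicit false

/-!
The Euler polygon for `x' = P(x)`; elementary inequalities.
-/

namespace Pool.Agent.Lib.MP_a7c449_an

variable {W : Type*} [NormedAddCommGroup W] [NormedSpace ℂ W]

/-- `n` Euler steps `x ↦ x + h P(x)`. -/
noncomputable def euler {k : ℕ} (A : W [×k]→L[ℂ] W) (x : W) (h : ℂ) : ℕ → W
  | 0 => x
  | n + 1 => euler A x h n + h • (A fun _ => euler A x h n)

/-- Elementary: `(1 + s)^d (1 - d s) ≤ 1` for `s ≥ 0`. -/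
theorem bernoulli_step (d : ℕ) (s : ℝ) (hs : 0 ≤ s) : (1 + s) ^ d * (1 - d * s) ≤ 1 := by
  have h1 : (1 + s) ^ d ≤ Real.exp (d * s) := by
    rw [Real.exp_nat_mul]
    exact pow_le_pow_left₀ (by linarith) (by linarith [Real.add_one_le_exp s]) d
  have h2 : 1 - d * s ≤ Real.exp (-(d * s)) := by
    linarith [Real.add_one_le_exp (-(d * s))]
  have hp : 0 ≤ (1 + s) ^ d := pow_nonneg (by linarith) d
  calc (1 + s) ^ d * (1 - d * s) ≤ (1 + s) ^ d * Real.exp (-(d * s)) :=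
        mul_le_mul_of_nonneg_left h2 hp
    _ ≤ Real.exp (d * s) * Real.exp (-(d * s)) :=
        mul_le_mul_of_nonneg_right h1 (Real.exp_pos _).le
    _ = 1 := by rw [← Real.exp_add]; simp

/-- Real version of the growth estimate. Let `w = 1 - (k-1) v' τ > 0` (`τ` the time already used) and
`a^(k-1) w ≤ 1`, `0 ≤ a`. With `b ≥ 1` such that `b^(k-1) w = 1` (so `a ≤ b`):
`a' ≤ a + h v a^k + C h² ≤ b (1 + h v b^(k-1) + C h²) ≤ b (1 + h v' b^(k-1))` if `C h ≤ v' - v`, and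
`a'^(k-1) (w - (k-1) v' h) ≤ (1 + s)^(k-1) (1 - (k-1) s) ≤ 1` with `s = h v' / w`. -/
theorem growth_step (k : ℕ) (hk : 2 ≤ k) (v v' C h w a a' : ℝ) (hv : 0 ≤ v) (hvv : v < v')
    (hC : 0 ≤ C) (hh : 0 ≤ h) (hCh : C * h ≤ v' - v) (hw : 0 < w) (hw1 : w ≤ 1)
    (hw' : 0 ≤ w - (k - 1) * v' * h)
    (ha : 0 ≤ a) (haw : a ^ (k - 1) * w ≤ 1) (ha'0 : 0 ≤ a')
    (ha' : a' ≤ a + h * (v * a ^ k) + C * h ^ 2) :
    a' ^ (k - 1) * (w - (k - 1) * v' * h) ≤ 1 := by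
  obtain ⟨m, rfl⟩ : ∃ m, k = m + 1 := ⟨k - 1, by omega⟩
  have hm : m ≠ 0 := by omega
  rw [Nat.add_sub_cancel] at haw ⊢
  have hcast : (((m + 1 : ℕ) : ℝ) - 1) = m := by push_cast; ring
  rw [hcast] at hw' ⊢
  set b : ℝ := (w⁻¹) ^ ((m : ℝ)⁻¹) with hb
  have hb0 : 0 < b := Real.rpow_pos_of_pos (inv_pos.mpr hw) _
  have hbm : b ^ m = w⁻¹ := Real.rpow_inv_natCast_pow (inv_pos.mpr hw).le hm
  have hb1 : 1 ≤ b := by
    refine (pow_le_pow_iff_left₀ zero_le_one hb0.le hm).mp ?_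
    rw [one_pow, hbm]
    exact (one_le_inv₀ hw).2 hw1
  have hab : a ≤ b := by
    refine (pow_le_pow_iff_left₀ ha hb0.le hm).mp ?_
    rw [hbm, ← one_div, le_div_iff₀ hw]
    exact haw
  set s : ℝ := h * v' / w with hs
  have hv'0 : 0 < v' := hv.trans_lt hvv
  have hs0 : 0 ≤ s := by positivity
  have ha'b : a' ≤ b * (1 + s) := by
    have h1 : a ^ (m + 1) ≤ b ^ (m + 1) := pow_le_pow_left₀ ha hab _
    have h2 : b ^ (m + 1) = b * w⁻¹ := by rw [pow_succ', hbm]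
    have hwi : 1 ≤ w⁻¹ := (one_le_inv₀ hw).2 hw1
    have h3 : C * h ^ 2 ≤ h * (v' - v) * (b * w⁻¹) := by
      have h4 : 1 ≤ b * w⁻¹ := by nlinarith
      calc C * h ^ 2 = h * (C * h) := by ring
        _ ≤ h * (v' - v) := mul_le_mul_of_nonneg_left hCh hh
        _ = h * (v' - v) * 1 := by ring
        _ ≤ h * (v' - v) * (b * w⁻¹) :=
            mul_le_mul_of_nonneg_left h4 (mul_nonneg hh (by linarith))
    calc a' ≤ a + h * (v * a ^ (m + 1)) + C * h ^ 2 := ha'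
      _ ≤ b + h * (v * (b * w⁻¹)) + h * (v' - v) * (b * w⁻¹) := by
          have h5 : h * (v * a ^ (m + 1)) ≤ h * (v * (b * w⁻¹)) := by
            rw [← h2]
            exact mul_le_mul_of_nonneg_left (mul_le_mul_of_nonneg_left h1 hv) hh
          linarith
      _ = b * (1 + s) := by rw [hs]; field_simp; ring
  have h6 : a' ^ m ≤ (b * (1 + s)) ^ m := pow_le_pow_left₀ ha'0 ha'b m
  calc a' ^ m * (w - m * v' * h) ≤ (b * (1 + s)) ^ m * (w - m * v' * h) :=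
        mul_le_mul_of_nonneg_right h6 hw'
    _ = (1 + s) ^ m * (1 - m * s) := by
        rw [mul_pow, hbm, hs]
        field_simp
    _ ≤ 1 := bernoulli_step m s hs0

end Pool.Agent.Lib.MP_a7c449_an
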