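import Pool.Agent.Lib.MP_a7c449_an.HarrisB

set_option autoImplicit false

/-!
Growth of the Euler polygon, `k ≥ 2`.
-/

namespace Pool.Agent.Lib.MP_a7c449_an

variable {W : Type*} [NormedAddCommGroup W] [NormedSpace ℂ W]

/-- Growth of the Euler polygon: apply `euler_step` with `R = 1 / (1 - (k-1) v' r)` (the bound
`a^(k-1) w ≤ 1` with `w ≥ 1/R` gives `a ≤ R` since `k - 1 ≥ 1` and `R ≥ 1`), take `N` so large that
`r / N ≤ 1` and `C (r/N) ≤ v' - v`, and iterate `growth_step` with `h = r / N ≥ ‖z / N‖`,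
`w = 1 - (k-1) v' (j r / N)` for `j = 0, …, N - 1`. -/
theorem euler_bound {k : ℕ} (hk : 2 ≤ k) (A : W [×k]→L[ℂ] W) (v' r : ℝ)
    (hv : numRadius ℂ W A < v') (hr : 0 < r) (hvr : ((k : ℝ) - 1) * v' * r < 1) :
    ∃ N : ℕ, 0 < N ∧ ∀ (x : W) (z : ℂ), ‖x‖ ≤ 1 → ‖z‖ ≤ r →
      ‖euler A x (z / N) N‖ ^ (k - 1) * (1 - ((k : ℝ) - 1) * v' * r) ≤ 1 := by
  have hv0 : 0 ≤ numRadius ℂ W A := numRadius_nonneg A
  set v := numRadius ℂ W A with hvdef
  have hv'0 : 0 < v' := hv0.trans_lt hv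
  have hk1 : (1 : ℝ) ≤ (k : ℝ) - 1 := by
    have : (2 : ℝ) ≤ k := by exact_mod_cast hk
    linarith
  have hk0 : (0 : ℝ) ≤ (k : ℝ) - 1 := by linarith
  set w1 : ℝ := 1 - ((k : ℝ) - 1) * v' * r with hw1
  have hw1pos : 0 < w1 := by linarith
  have hw1le : w1 ≤ 1 := by
    have : 0 ≤ ((k : ℝ) - 1) * v' * r := mul_nonneg (mul_nonneg hk0 hv'0.le) hr.le
    linarith
  set R : ℝ := w1⁻¹ with hR
  have hR1 : 1 ≤ R := (one_le_inv₀ hw1pos).2 hw1le
  obtain ⟨C, hC0, hC⟩ := euler_step (𝕜 := ℂ) (by omega : k ≠ 0) A R hR1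
  obtain ⟨N, hN⟩ := exists_nat_ge (max 1 (max r (C * r / (v' - v))))
  have hN1 : (1 : ℝ) ≤ N := (le_max_left _ _).trans hN
  have hN2 : r ≤ N := (le_max_left _ _).trans ((le_max_right _ _).trans hN)
  have hN3 : C * r / (v' - v) ≤ N := (le_max_right _ _).trans ((le_max_right _ _).trans hN)
  have hN0 : (0 : ℝ) < N := by linarith
  have hvv : 0 < v' - v := by linarith
  have hNnat : 0 < N := by exact_mod_cast hN0
  refine ⟨N, hNnat, fun x z hx hz => ?_⟩
  set h : ℝ := r / N with hh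
  have hh0 : 0 ≤ h := by positivity
  have hh1 : h ≤ 1 := (div_le_one hN0).2 hN2
  have hCh : C * h ≤ v' - v := by
    rw [div_le_iff₀ hvv] at hN3
    rw [hh, ← mul_div_assoc, div_le_iff₀ hN0]
    linarith
  have hzN : ‖z / (N : ℂ)‖ ≤ h := by
    rw [norm_div, Complex.norm_natCast, hh]
    exact div_le_div_of_nonneg_right hz hN0.le
  have key : ∀ j : ℕ, j ≤ N →
      ‖euler A x (z / N) j‖ ^ (k - 1) * (1 - ((k : ℝ) - 1) * v' * (j * h)) ≤ 1 := by
    intro j
    induction j with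
    | zero =>
      intro _
      simp only [euler, Nat.cast_zero, zero_mul, mul_zero, sub_zero, mul_one]
      exact pow_le_one₀ (norm_nonneg _) hx
    | succ j ih =>
      intro hj
      have ih' := ih (by omega)
      set w : ℝ := 1 - ((k : ℝ) - 1) * v' * (j * h) with hw
      have hjh : ((j : ℝ) + 1) * h ≤ r := by
        have : ((j : ℝ) + 1) ≤ N := by exact_mod_cast hj
        calc ((j : ℝ) + 1) * h ≤ N * h := mul_le_mul_of_nonneg_right this hh0
          _ = r := by rw [hh]; field_simp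
      have hc0 : 0 ≤ ((k : ℝ) - 1) * v' := mul_nonneg hk0 hv'0.le
      have hww1 : w1 ≤ w - ((k : ℝ) - 1) * v' * h := by
        have := mul_le_mul_of_nonneg_left hjh hc0
        rw [hw, hw1]
        linarith
      have hch : 0 ≤ ((k : ℝ) - 1) * v' * h := mul_nonneg hc0 hh0
      have hwpos : 0 < w := by linarith
      have hwle : w ≤ 1 := by
        have : 0 ≤ ((k : ℝ) - 1) * v' * (j * h) := by positivity
        rw [hw]; linarith
      have ha0 : 0 ≤ ‖euler A x (z / N) j‖ := norm_nonneg _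
      have haR : ‖euler A x (z / N) j‖ ≤ R := by
        by_contra hcon
        push Not at hcon
        have h1 : 1 ≤ ‖euler A x (z / N) j‖ := hR1.trans hcon.le
        have h2 : ‖euler A x (z / N) j‖ ≤ ‖euler A x (z / N) j‖ ^ (k - 1) :=
          le_self_pow₀ h1 (by omega)
        have h3 : R * w1 < ‖euler A x (z / N) j‖ ^ (k - 1) * w1 :=
          mul_lt_mul_of_pos_right (hcon.trans_le h2) hw1pos
        have h4 : ‖euler A x (z / N) j‖ ^ (k - 1) * w1 ≤ ‖euler A x (z / N) j‖ ^ (k - 1) * w :=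
          mul_le_mul_of_nonneg_left (by linarith) (by positivity)
        have h5 : R * w1 = 1 := inv_mul_cancel₀ hw1pos.ne'
        linarith
      have hstep := hC (euler A x (z / N) j) (z / N) haR (hzN.trans hh1)
      have hstep' : ‖euler A x (z / N) (j + 1)‖ ≤ ‖euler A x (z / N) j‖
          + h * (v * ‖euler A x (z / N) j‖ ^ k) + C * h ^ 2 := by
        refine hstep.trans ?_
        have e1 : ‖z / (N : ℂ)‖ * (v * ‖euler A x (z / N) j‖ ^ k)
            ≤ h * (v * ‖euler A x (z / N) j‖ ^ k) :=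
          mul_le_mul_of_nonneg_right hzN (by positivity)
        have e2 : C * ‖z / (N : ℂ)‖ ^ 2 ≤ C * h ^ 2 :=
          mul_le_mul_of_nonneg_left (pow_le_pow_left₀ (norm_nonneg _) hzN 2) hC0
        linarith
      have hfin := growth_step k hk v v' C h w ‖euler A x (z / N) j‖
        ‖euler A x (z / N) (j + 1)‖ hv0 hv hC0 hh0 hCh hwpos hwle (by linarith) ha0 ih'
        (norm_nonneg _) hstep'
      have e3 : (1 - ((k : ℝ) - 1) * v' * (((j + 1 : ℕ) : ℝ) * h))
          = w - ((k : ℝ) - 1) * v' * h := by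
        rw [hw]; push_cast; ring
      rw [e3]
      exact hfin
  have := key N le_rfl
  have e4 : (N : ℝ) * h = r := by rw [hh]; field_simp
  rwa [e4] at this

end Pool.Agent.Lib.MP_a7c449_an
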