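import Pool.Agent.Lib.MP_a7c449_an.Index

set_option autoImplicit false

/-!
Spaces with isolated coordinates, complex scalars: all polynomial numerical indices are one.
-/

namespace Pool.Agent.Lib.MP_a7c449_an

variable {Y : Type*} [NormedAddCommGroup Y] [NormedSpace ℂ Y] {I : Type*}

/-- Moving the `i`-th coordinate of a vector of the unit ball to any `l` with `|l| ≤ 1` keeps it in
the unit ball: `y + (l - δ i y) • e i`. -/
theorem move_norm_le (C : Coord ℂ Y I) (y : Y) (hy : ‖y‖ ≤ 1) (i : I) (l : ℂ) (hl : ‖l‖ ≤ 1) :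
    ‖y + (l - C.δ i y) • C.e i‖ ≤ 1 := by
  refine C.le_of _ 1 zero_le_one fun j => ?_
  by_cases hj : j = i
  · subst hj
    rw [map_add, map_smul, C.self, smul_eq_mul, mul_one, add_sub_cancel]
    exact hl
  · rw [map_add, map_smul, C.other j i hj, smul_zero, add_zero]
    exact (C.norm_le j y).trans hy

/-- For `‖y‖ ≤ 1` the number `δ i (P y)` is at most the numerical radius: the function
`l ↦ δ i (P (y + (l - δ i y) • e i))` is holomorphic, for `|l| = 1` its modulus is at most the
numerical radius (the functional `conj l • δ i` norms the vector), and the maximum modulus principle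
(`Complex.norm_le_of_forall_mem_frontier_norm_le` on the unit disc) gives the bound at
`l = δ i y`. -/
theorem coord_poly_le {k : ℕ} (C : Coord ℂ Y I) (A : Y [×k]→L[ℂ] Y) (y : Y) (hy : ‖y‖ ≤ 1) (i : I) :
    ‖C.δ i (A fun _ => y)‖ ≤ numRadius ℂ Y A := by
  have hdiff : Differentiable ℂ
      (fun l : ℂ => C.δ i (A fun _ : Fin k => y + (l - C.δ i y) • C.e i)) := by
    have h1 : Differentiable ℂ (fun m : Fin k → Y => A m) :=
      (ContinuousMultilinearMap.contDiff A (n := 1)).differentiable (by simp)
    have h2 : Differentiable ℂ (fun l : ℂ => fun _ : Fin k => y + (l - C.δ i y) • C.e i) := by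
      refine differentiable_pi.2 fun _ => ?_
      exact (((differentiable_id.sub_const _).smul_const _).const_add _)
    exact (C.δ i).differentiable.comp (h1.comp h2)
  have hfr : ∀ z ∈ frontier (Metric.ball (0 : ℂ) 1),
      ‖C.δ i (A fun _ : Fin k => y + (z - C.δ i y) • C.e i)‖ ≤ numRadius ℂ Y A := by
    intro z hz
    rw [frontier_ball (0 : ℂ) one_ne_zero, mem_sphere_zero_iff_norm] at hz
    have hnd : ‖C.δ i‖ ≤ 1 :=
      ContinuousLinearMap.opNorm_le_bound _ zero_le_one fun w => by
        rw [one_mul]; exact C.norm_le i w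
    have hcz : ‖(starRingEnd ℂ) z‖ = 1 := by rw [RCLike.norm_conj, hz]
    have hf : ‖(starRingEnd ℂ) z • C.δ i‖ ≤ 1 := by
      rw [norm_smul, hcz, one_mul]; exact hnd
    have hfx : ((starRingEnd ℂ) z • C.δ i) (y + (z - C.δ i y) • C.e i) = 1 := by
      rw [_root_.smul_apply, map_add, map_smul, C.self, smul_eq_mul, smul_eq_mul,
        mul_one, add_sub_cancel, ← Complex.normSq_eq_conj_mul_self, Complex.normSq_eq_norm_sq, hz]
      norm_num
    have h := le_numRadius' A (y + (z - C.δ i y) • C.e i) ((starRingEnd ℂ) z • C.δ i)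
      (move_norm_le C y hy i z hz.le) hf hfx
    rwa [_root_.smul_apply, norm_smul, hcz, one_mul] at h
  have hmem : C.δ i y ∈ closure (Metric.ball (0 : ℂ) 1) := by
    rw [closure_ball (0 : ℂ) one_ne_zero, mem_closedBall_zero_iff]
    exact (C.norm_le i y).trans hy
  have h := Complex.norm_le_of_forall_mem_frontier_norm_le Metric.isBounded_ball
    hdiff.diffContOnCl hfr hmem
  simpa using h

theorem polyNorm_le_numRadius {k : ℕ} (C : Coord ℂ Y I) (A : Y [×k]→L[ℂ] Y) :
    polyNorm ℂ Y A ≤ numRadius ℂ Y A :=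
  polyNorm_le A _ fun x hx => C.le_of _ _ (numRadius_nonneg A) fun i => coord_poly_le C A x hx i

theorem numIndex_eq_one [Nonempty I] (C : Coord ℂ Y I) (k : ℕ) : numIndex ℂ Y k = 1 := by
  obtain ⟨i⟩ := ‹Nonempty I›
  have : Nontrivial Y := by
    refine ⟨C.e i, 0, fun h => ?_⟩
    have := C.self i
    rw [h, map_zero] at this
    exact zero_ne_one this
  refine le_antisymm (numIndex_le_one k) (le_numIndex k 1 fun A hA => ?_)
  rw [← hA]
  exact polyNorm_le_numRadius C A

end Pool.Agent.Lib.MP_a7c449_an
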