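import Pool.Agent.Lib.MP_a7c449_an.Index

set_option autoImplicit false

/-!
Spaces with isolated coordinates, real scalars: the index of order one is `1`, the one of order two
is `1/2`, the one of order `k` is positive.
-/

namespace Pool.Agent.Lib.MP_a7c449_an

variable {Y : Type*} [NormedAddCommGroup Y] [NormedSpace ℝ Y] {I : Type*}

/-- With `z = y - δ i y • e i` (so `δ i z = 0`): for `|l| ≤ 1` and `|m| ≤ 1` the vector
`l • e i + m • z` is in the unit ball. -/
theorem square_norm_le (C : Coord ℝ Y I) (y : Y) (hy : ‖y‖ ≤ 1) (i : I) (l m : ℝ) (hl : |l| ≤ 1)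
    (hm : |m| ≤ 1) : ‖l • C.e i + m • (y - C.δ i y • C.e i)‖ ≤ 1 := by
  refine C.le_of _ 1 zero_le_one fun j => ?_
  by_cases h : j = i
  · subst h
    have h1 : C.δ j (l • C.e j + m • (y - C.δ j y • C.e j)) = l := by
      simp [map_add, map_sub, C.self j]
    rw [h1, Real.norm_eq_abs]
    exact hl
  · have h1 : C.δ j (l • C.e i + m • (y - C.δ i y • C.e i)) = m * C.δ j y := by
      simp [map_add, map_sub, C.other j i h]
    rw [h1, norm_mul, Real.norm_eq_abs]
    have h2 : ‖C.δ j y‖ ≤ 1 := (C.norm_le j y).trans hy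
    calc |m| * ‖C.δ j y‖ ≤ 1 * 1 := mul_le_mul hm h2 (norm_nonneg _) zero_le_one
      _ = 1 := one_mul 1

/-- On the sides `l = 1` of the square the numerical radius bounds `δ i ∘ P` (the functional
`δ i` norms the vector). -/
theorem side_le {k : ℕ} (C : Coord ℝ Y I) (A : Y [×k]→L[ℝ] Y) (y : Y) (hy : ‖y‖ ≤ 1) (i : I)
    (m : ℝ) (hm : |m| ≤ 1) :
    |C.δ i (A fun _ => C.e i + m • (y - C.δ i y • C.e i))| ≤ numRadius ℝ Y A := by
  have h1 := square_norm_le C y hy i 1 m (by simp) hm
  rw [one_smul] at h1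
  have h2 : ‖C.δ i‖ ≤ 1 :=
    ContinuousLinearMap.opNorm_le_bound _ zero_le_one fun z => by
      rw [one_mul]; exact C.norm_le i z
  have h3 : C.δ i (C.e i + m • (y - C.δ i y • C.e i)) = 1 := by
    simp [map_add, map_sub, C.self i]
  have h4 := le_numRadius' A _ _ h1 h2 h3
  rwa [Real.norm_eq_abs] at h4

end Pool.Agent.Lib.MP_a7c449_an
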