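import Pool.Agent.Lib.MP_a7c449_an.IsoR

set_option autoImplicit false

/-!
Spaces with isolated coordinates, real scalars: the index of order one is `1`, the one of order two
is at least `1/2`.
-/

namespace Pool.Agent.Lib.MP_a7c449_an

variable {Y : Type*} [NormedAddCommGroup Y] [NormedSpace ℝ Y] {I : Type*}

private theorem IsoRLow_nontrivial [Nonempty I] (C : Coord ℝ Y I) : Nontrivial Y := by
  obtain ⟨i₀⟩ := ‹Nonempty I›
  exact ⟨⟨C.e i₀, 0, fun h => by
    have := C.self i₀
    rw [h, map_zero] at this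
    exact zero_ne_one this⟩⟩

private theorem IsoRLow_one (A : Y [×1]→L[ℝ] Y) (l m : ℝ) (x z : Y) :
    (A fun _ => l • x + m • z) = l • (A fun _ => x) + m • (A fun _ => z) := by
  have h0 : ∀ w : Y, (fun _ : Fin 1 => w) = Function.update (fun _ => (0 : Y)) 0 w := by
    intro w
    funext j
    fin_cases j
    simp
  rw [h0 (l • x + m • z), h0 x, h0 z, A.map_update_add, A.map_update_smul, A.map_update_smul]

private theorem IsoRLow_two (A : Y [×2]→L[ℝ] Y) (l m : ℝ) (x z : Y) :
    (A fun _ => l • x + m • z) = (l ^ 2) • (A ![x, x]) + (l * m) • (A ![x, z] + A ![z, x])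
      + (m ^ 2) • (A ![z, z]) := by
  have h0 : (fun _ : Fin 2 => l • x + m • z) = ![l • x + m • z, l • x + m • z] := by
    funext j
    fin_cases j <;> rfl
  have h1 : ∀ (u v w : Y) (a b : ℝ), A ![a • u + b • v, w] = a • A ![u, w] + b • A ![v, w] := by
    intro u v w a b
    have h2 : ∀ t : Y, (![t, w] : Fin 2 → Y) = Function.update ![0, w] 0 t := by
      intro t
      funext j
      fin_cases j <;> simp
    rw [h2 (a • u + b • v), h2 u, h2 v, A.map_update_add, A.map_update_smul, A.map_update_smul]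
  have h3 : ∀ (u v w : Y) (a b : ℝ), A ![w, a • u + b • v] = a • A ![w, u] + b • A ![w, v] := by
    intro u v w a b
    have h2 : ∀ t : Y, (![w, t] : Fin 2 → Y) = Function.update ![w, 0] 1 t := by
      intro t
      funext j
      fin_cases j <;> simp
    rw [h2 (a • u + b • v), h2 u, h2 v, A.map_update_add, A.map_update_smul, A.map_update_smul]
  rw [h0, h1, h3, h3]
  module

theorem numIndex_one_eq [Nonempty I] (C : Coord ℝ Y I) : numIndex ℝ Y 1 = 1 := by
  haveI := IsoRLow_nontrivial C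
  refine le_antisymm (numIndex_le_one 1) (le_numIndex 1 1 fun A hA => ?_)
  rw [← hA]
  have hv : 0 ≤ numRadius ℝ Y A := numRadius_nonneg A
  refine polyNorm_le A _ fun y hy => C.le_of _ _ hv fun i => ?_
  set z := y - C.δ i y • C.e i with hz
  have hy2 : y = C.δ i y • C.e i + (1 : ℝ) • z := by
    rw [one_smul, hz]; abel
  have e1 : ∀ m : ℝ, C.δ i (A fun _ => C.e i + m • z)
      = C.δ i (A fun _ => C.e i) + m * C.δ i (A fun _ => z) := by
    intro m
    have := IsoRLow_one A 1 m (C.e i) z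
    rw [one_smul, one_smul] at this
    rw [this, map_add, map_smul, smul_eq_mul]
  have s1 := side_le C A y hy i 1 (by simp)
  have s2 := side_le C A y hy i (-1) (by simp)
  rw [← hz, e1] at s1 s2
  have e2 : C.δ i (A fun _ => y) = C.δ i y * C.δ i (A fun _ => C.e i) + C.δ i (A fun _ => z) := by
    have := IsoRLow_one A (C.δ i y) 1 (C.e i) z
    rw [← hy2, one_smul] at this
    rw [this, map_add, map_smul, smul_eq_mul]
  have ha : |C.δ i y| ≤ 1 := by
    rw [← Real.norm_eq_abs]; exact (C.norm_le i y).trans hy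
  rw [e2, Real.norm_eq_abs]
  rw [abs_le] at s1 s2 ha ⊢
  constructor <;> nlinarith

/-- `δ i (P y) = a² c₀ + a c₁ + c₂ = (c₀ + c₂) + a c₁ - (1 - a²) c₀`, and the three values
`|c₀|` (`m = 0`), `|c₀ ± c₁ + c₂|` (`m = ± 1`) are at most the numerical radius, so
`|δ i (P y)| ≤ 2 * numRadius`. -/
theorem half_le_numIndex_two [Nonempty I] (C : Coord ℝ Y I) : 1 / 2 ≤ numIndex ℝ Y 2 := by
  haveI := IsoRLow_nontrivial C
  refine le_numIndex 2 (1 / 2) fun A hA => ?_
  have hv : 0 ≤ numRadius ℝ Y A := numRadius_nonneg A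
  suffices h : polyNorm ℝ Y A ≤ 2 * numRadius ℝ Y A by rw [hA] at h; linarith
  refine polyNorm_le A _ fun y hy => C.le_of _ _ (by positivity) fun i => ?_
  set z := y - C.δ i y • C.e i with hz
  have hy2 : y = C.δ i y • C.e i + (1 : ℝ) • z := by
    rw [one_smul, hz]; abel
  set c0 := C.δ i (A ![C.e i, C.e i]) with hc0
  set c1 := C.δ i (A ![C.e i, z] + A ![z, C.e i]) with hc1
  set c2 := C.δ i (A ![z, z]) with hc2
  have e1 : ∀ m : ℝ, C.δ i (A fun _ => C.e i + m • z) = c0 + m * c1 + m ^ 2 * c2 := by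
    intro m
    have := IsoRLow_two A 1 m (C.e i) z
    rw [one_smul] at this
    rw [this, map_add, map_add, map_smul, map_smul, map_smul, smul_eq_mul, smul_eq_mul,
      smul_eq_mul, one_pow, one_mul, one_mul]
  have s0 := side_le C A y hy i 0 (by simp)
  have s1 := side_le C A y hy i 1 (by simp)
  have s2 := side_le C A y hy i (-1) (by simp)
  rw [← hz, e1] at s0 s1 s2
  have e2 : C.δ i (A fun _ => y) = C.δ i y ^ 2 * c0 + C.δ i y * c1 + c2 := by
    have := IsoRLow_two A (C.δ i y) 1 (C.e i) z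
    rw [← hy2] at this
    rw [this, map_add, map_add, map_smul, map_smul, map_smul, smul_eq_mul, smul_eq_mul,
      smul_eq_mul, one_pow, one_mul, mul_one]
  have ha : |C.δ i y| ≤ 1 := by
    rw [← Real.norm_eq_abs]; exact (C.norm_le i y).trans hy
  rw [e2, Real.norm_eq_abs]
  set a := C.δ i y
  rw [abs_le] at s0 s1 s2 ha ⊢
  have ha2 : 0 ≤ 1 - a ^ 2 := by nlinarith
  have ha3 : 0 ≤ (1 - a ^ 2) * (numRadius ℝ Y A - c0) := mul_nonneg ha2 (by linarith)
  have ha4 : 0 ≤ (1 - a ^ 2) * (numRadius ℝ Y A + c0) := mul_nonneg ha2 (by linarith)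
  have ha5 : 0 ≤ a ^ 2 := sq_nonneg a
  have ha6 : 0 ≤ (1 + a) * (numRadius ℝ Y A - (c0 + c1 + c2)) := mul_nonneg (by linarith) (by linarith)
  have ha7 : 0 ≤ (1 - a) * (numRadius ℝ Y A - (c0 - c1 + c2)) := mul_nonneg (by linarith) (by linarith)
  have ha8 : 0 ≤ (1 + a) * (numRadius ℝ Y A + (c0 + c1 + c2)) := mul_nonneg (by linarith) (by linarith)
  have ha9 : 0 ≤ (1 - a) * (numRadius ℝ Y A + (c0 - c1 + c2)) := mul_nonneg (by linarith) (by linarith)
  constructor <;> nlinarith

end Pool.Agent.Lib.MP_a7c449_an
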