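import Pool.Agent.Lib.MP_a7c449_an.IsoR
import Pool.Agent.Lib.MP_a7c449_an.CoeffA
import Pool.Agent.Lib.MP_a7c449_an.CoeffB

set_option autoImplicit false

/-!
Spaces with isolated coordinates, real scalars: the index of order one is `1`, the one of order two
is `1/2`, the one of order `k` is positive.
-/

namespace Pool.Agent.Lib.MP_a7c449_an

variable {Y : Type*} [NormedAddCommGroup Y] [NormedSpace ℝ Y] {I : Type*}

/-- Positive index of every order: with `a = δ i y`, `y = a • e i + 1 • z`, so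
`δ i (P y) = ∑ a^(k-r) c_r`, at most `∑ |c_r| ≤ M * numRadius`. -/
theorem numIndex_pos [Nonempty I] (C : Coord ℝ Y I) (k : ℕ) : 0 < numIndex ℝ Y k := by
  obtain ⟨i₀⟩ := ‹Nonempty I›
  haveI : Nontrivial Y := ⟨⟨C.e i₀, 0, fun h => by
    have := C.self i₀
    rw [h, map_zero] at this
    exact zero_ne_one this⟩⟩
  obtain ⟨M, hM, hMc⟩ := exists_coeff_bound k
  refine lt_of_lt_of_le (by positivity : (0 : ℝ) < 1 / M) (le_numIndex k (1 / M) fun A hA => ?_)
  rw [div_le_iff₀' hM, ← hA]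
  have hv : 0 ≤ numRadius ℝ Y A := numRadius_nonneg A
  refine polyNorm_le A _ fun y hy => C.le_of _ _ (by positivity) fun i => ?_
  obtain ⟨c, hc⟩ := exists_coeff A (C.e i) (y - C.δ i y • C.e i)
  have hbd := hMc (fun r => C.δ i (c r)) (numRadius ℝ Y A) fun m hm => by
    have h1 := side_le C A y hy i m hm
    have h2 := hc 1 m
    rw [one_smul] at h2
    rw [h2, map_sum] at h1
    simpa [one_pow, map_smul] using h1
  have hy2 : y = C.δ i y • C.e i + (1 : ℝ) • (y - C.δ i y • C.e i) := by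
    rw [one_smul]; abel
  have h3 := hc (C.δ i y) 1
  have h4 : (A fun _ => y) = ∑ r : Fin (k + 1), (C.δ i y ^ (k - (r : ℕ)) * 1 ^ (r : ℕ)) • c r := by
    rw [← h3, ← hy2]
  rw [h4, map_sum]
  refine (norm_sum_le _ _).trans (le_trans (Finset.sum_le_sum fun r _ => ?_) hbd)
  rw [map_smul, one_pow, mul_one, norm_smul, norm_pow, Real.norm_eq_abs (C.δ i (c r))]
  have h5 : ‖C.δ i y‖ ≤ 1 := (C.norm_le i y).trans hy
  have h6 : ‖C.δ i y‖ ^ (k - (r : ℕ)) ≤ 1 := pow_le_one₀ (norm_nonneg _) h5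
  calc ‖C.δ i y‖ ^ (k - (r : ℕ)) * |C.δ i (c r)| ≤ 1 * |C.δ i (c r)| :=
        mul_le_mul_of_nonneg_right h6 (abs_nonneg _)
    _ = |C.δ i (c r)| := one_mul _

end Pool.Agent.Lib.MP_a7c449_an
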