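import Pool.Agent.Lib.MP_a7c449_an.Index

set_option autoImplicit false

/-!
Spaces with isolated coordinates, real scalars: the index of order one is `1`, the one of order two
is `1/2`, the one of order `k` is positive.
-/

namespace Pool.Agent.Lib.MP_a7c449_an

variable {Y : Type*} [NormedAddCommGroup Y] [NormedSpace ℝ Y] {I : Type*}

/-- `P y = (y_j² - y_i²/2) • e i` for two indices `i ≠ j` has norm one (at `e j`) and numerical
radius at most `1/2`: if `f` norms `y` and `|y_i| < 1` then `f (e i) = 0` (the `i`-th coordinate can be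
moved in both directions); if `|y_i| = 1` then `|y_j² - 1/2| ≤ 1/2` and `|f (e i)| ≤ 1`. -/
theorem numIndex_two_le_half (C : Coord ℝ Y I) (i j : I) (hij : i ≠ j) :
    numIndex ℝ Y 2 ≤ 1 / 2 := by
  classical
  have he1 : ‖C.e i‖ ≤ 1 := by
    refine C.le_of _ 1 zero_le_one fun l => ?_
    by_cases h : l = i
    · subst h; simp [C.self l]
    · simp [C.other l i h]
  have he2 : 1 ≤ ‖C.e i‖ := by
    have := C.norm_le i (C.e i)
    rwa [C.self i, norm_one] at this
  have hej1 : ‖C.e j‖ ≤ 1 := by
    refine C.le_of _ 1 zero_le_one fun l => ?_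
    by_cases h : l = j
    · subst h; simp [C.self l]
    · simp [C.other l j h]
  let A : Y [×2]→L[ℝ] Y := rankOne 2 (C.δ j) (C.e i) - (1 / 2 : ℝ) • rankOne 2 (C.δ i) (C.e i)
  have hA : ∀ x : Y, (A fun _ => x) = (C.δ j x ^ 2 - C.δ i x ^ 2 / 2) • C.e i := by
    intro x
    simp only [A, ContinuousMultilinearMap.sub_apply, ContinuousMultilinearMap.smul_apply,
      rankOne_apply, smul_smul, ← sub_smul]
    congr 1
    ring
  have hb : ∀ (x : Y) (l : I), ‖x‖ ≤ 1 → C.δ l x ^ 2 ≤ 1 := by
    intro x l hx
    have h1 : |C.δ l x| ≤ 1 := by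
      rw [← Real.norm_eq_abs]; exact (C.norm_le l x).trans hx
    rw [← sq_abs]
    exact pow_le_one₀ (abs_nonneg _) h1
  have hN : polyNorm ℝ Y A = 1 := by
    refine polyNorm_eq_one A (fun x hx => ?_) (C.e j) hej1 ?_
    · rw [hA, norm_smul, Real.norm_eq_abs]
      have h1 := hb x i hx
      have h2 := hb x j hx
      have h3 : |C.δ j x ^ 2 - C.δ i x ^ 2 / 2| ≤ 1 := by
        rw [abs_le]
        constructor <;> nlinarith [sq_nonneg (C.δ j x), sq_nonneg (C.δ i x)]
      calc |C.δ j x ^ 2 - C.δ i x ^ 2 / 2| * ‖C.e i‖ ≤ 1 * 1 :=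
            mul_le_mul h3 he1 (norm_nonneg _) zero_le_one
        _ = 1 := one_mul 1
    · rw [hA, C.self j, C.other i j hij]
      norm_num
      exact he2
  refine (numIndex_le A hN).trans (numRadius_le A (1 / 2) (by norm_num) fun x f hx hf hfx => ?_)
  rw [hA, map_smul, norm_smul, Real.norm_eq_abs, Real.norm_eq_abs]
  have hxi : |C.δ i x| ≤ 1 := by
    rw [← Real.norm_eq_abs]; exact (C.norm_le i x).trans hx.le
  rcases lt_or_eq_of_le hxi with hlt | heq
  · have key : ∀ t : ℝ, |C.δ i x + t| ≤ 1 → t * f (C.e i) ≤ 0 := by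
      intro t ht
      have h1 : ‖x + t • C.e i‖ ≤ 1 := by
        refine C.le_of _ 1 zero_le_one fun l => ?_
        by_cases h : l = i
        · subst h
          rw [map_add, map_smul, C.self l, smul_eq_mul, mul_one, Real.norm_eq_abs]
          exact ht
        · rw [map_add, map_smul, C.other l i h, smul_zero, add_zero]
          exact (C.norm_le l x).trans hx.le
      have h2 : f (x + t • C.e i) ≤ 1 := by
        refine (le_abs_self _).trans ?_
        rw [← Real.norm_eq_abs]
        refine (f.le_opNorm _).trans ?_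
        rw [hf, one_mul]
        exact h1
      rw [map_add, map_smul, hfx, smul_eq_mul] at h2
      linarith
    have hpos : 0 < 1 - |C.δ i x| := by linarith
    have h1 := key (1 - |C.δ i x|) (by
      refine (abs_add_le _ _).trans ?_
      rw [abs_of_pos hpos]; linarith)
    have h2 := key (-(1 - |C.δ i x|)) (by
      refine (abs_add_le _ _).trans ?_
      rw [abs_neg, abs_of_pos hpos]; linarith)
    have h3 : f (C.e i) = 0 := by
      have h4 : f (C.e i) ≤ 0 := by
        by_contra hc
        push Not at hc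
        nlinarith
      have h5 : 0 ≤ f (C.e i) := by
        by_contra hc
        push Not at hc
        nlinarith
      exact le_antisymm h4 h5
    rw [h3]
    norm_num
  · have h1 : C.δ i x ^ 2 = 1 := by rw [← sq_abs, heq, one_pow]
    have h2 := hb x j hx.le
    have h3 : |C.δ j x ^ 2 - C.δ i x ^ 2 / 2| ≤ 1 / 2 := by
      rw [h1, abs_le]
      constructor <;> nlinarith [sq_nonneg (C.δ j x)]
    have h4 : |f (C.e i)| ≤ 1 := by
      rw [← Real.norm_eq_abs]
      refine (f.le_opNorm _).trans ?_
      rw [hf, one_mul]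
      exact he1
    calc |C.δ j x ^ 2 - C.δ i x ^ 2 / 2| * |f (C.e i)| ≤ 1 / 2 * 1 :=
          mul_le_mul h3 h4 (abs_nonneg _) (by norm_num)
      _ = 1 / 2 := mul_one _

end Pool.Agent.Lib.MP_a7c449_an
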