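import Mathlib

set_option autoImplicit false

/-!
Norming sequences.
-/

namespace Pool.Agent.Lib.MP_a7c449_an

universe u

/-- A norming sequence of functionals for a separable space: functionals norming the members of a
dense sequence. -/
theorem exists_norming (𝕜 : Type*) [RCLike 𝕜] (X : Type u) [NormedAddCommGroup X] [NormedSpace 𝕜 X]
    [TopologicalSpace.SeparableSpace X] :
    ∃ h : ℕ → StrongDual 𝕜 X, (∀ m, ‖h m‖ ≤ 1) ∧
      ∀ (x : X) (C : ℝ), (∀ m, ‖h m x‖ ≤ C) → ‖x‖ ≤ C := by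
  haveI : Nonempty X := ⟨0⟩
  have H := fun m => exists_dual_vector'' 𝕜 (TopologicalSpace.denseSeq X m)
  choose h h1 h2 using H
  refine ⟨h, h1, fun x C hC => ?_⟩
  apply le_of_forall_pos_le_add
  intro ε hε
  have hd := TopologicalSpace.denseRange_denseSeq X
  obtain ⟨m, hm⟩ := hd.exists_dist_lt x (half_pos hε)
  rw [dist_eq_norm] at hm
  have h3 : ‖TopologicalSpace.denseSeq X m‖ = ‖h m (TopologicalSpace.denseSeq X m)‖ := by
    rw [h2 m]
    simp
  have h4 : h m (TopologicalSpace.denseSeq X m) =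
      h m x - h m (x - TopologicalSpace.denseSeq X m) := by
    rw [map_sub]
    ring
  have h5 : ‖h m (x - TopologicalSpace.denseSeq X m)‖ ≤ ε / 2 := by
    calc ‖h m (x - TopologicalSpace.denseSeq X m)‖
        ≤ ‖h m‖ * ‖x - TopologicalSpace.denseSeq X m‖ := (h m).le_opNorm _
      _ ≤ 1 * (ε / 2) := mul_le_mul (h1 m) hm.le (norm_nonneg _) zero_le_one
      _ = ε / 2 := one_mul _
  have h6 : ‖TopologicalSpace.denseSeq X m‖ ≤ C + ε / 2 := by
    rw [h3, h4]
    calc ‖h m x - h m (x - TopologicalSpace.denseSeq X m)‖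
        ≤ ‖h m x‖ + ‖h m (x - TopologicalSpace.denseSeq X m)‖ := norm_sub_le _ _
      _ ≤ C + ε / 2 := add_le_add (hC m) h5
  have h7 : x = (x - TopologicalSpace.denseSeq X m) + TopologicalSpace.denseSeq X m := by abel
  calc ‖x‖ = ‖(x - TopologicalSpace.denseSeq X m) + TopologicalSpace.denseSeq X m‖ := by
        rw [← h7]
    _ ≤ ‖x - TopologicalSpace.denseSeq X m‖ + ‖TopologicalSpace.denseSeq X m‖ :=
        norm_add_le _ _
    _ ≤ C + ε := by linarith

end Pool.Agent.Lib.MP_a7c449_an
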