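import Pool.Agent.Lib.MP_a7c449_an.Defs

set_option autoImplicit false

/-!
Extremal planes. The unit ball is `{(x, y) : |x| ≤ 1, |y| ≤ φ(|x|)}` where `φ` is `1` on `[0, m]`
and concave on `[m, 1]`, with `φ(t) - t φ'(t) = t^k / v`, `v = m^k`; we write `ψ = -φ'`.
-/

namespace Pool.Agent.Lib.MP_a7c449_an

/-- The data of the profile. -/
structure Profile (k : ℕ) where
  /-- the end of the flat part -/
  m : ℝ
  /-- the numerical radius -/
  v : ℝ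
  /-- the profile on `[m, 1]` -/
  φ : ℝ → ℝ
  /-- minus its derivative -/
  ψ : ℝ → ℝ
  m_pos : 0 < m
  m_lt : m < 1
  m_pow : m ^ k = v
  tangent : ∀ X t, X ∈ Set.Icc m 1 → t ∈ Set.Icc m 1 → φ X ≤ φ t - ψ t * (X - t)
  ident : ∀ t ∈ Set.Icc m 1, φ t + t * ψ t = t ^ k / v
  φ_m : φ m = 1
  φ_one : φ 1 = 0
  ψ_nonneg : ∀ t ∈ Set.Icc m 1, 0 ≤ ψ t
  ψ_cont : ContinuousOn ψ (Set.Icc m 1)

namespace Profile

variable {k : ℕ} (P : Profile k)

theorem v_pos : 0 < P.v := by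
  rw [← P.m_pow]
  exact pow_pos P.m_pos k

private theorem ProfA_m_mem : P.m ∈ Set.Icc P.m 1 := ⟨le_rfl, P.m_lt.le⟩

private theorem ProfA_one_mem : (1 : ℝ) ∈ Set.Icc P.m 1 := ⟨P.m_lt.le, le_rfl⟩

private theorem ProfA_pos {t : ℝ} (ht : t ∈ Set.Icc P.m 1) : 0 < t := lt_of_lt_of_le P.m_pos ht.1

private theorem ProfA_ident {t : ℝ} (ht : t ∈ Set.Icc P.m 1) :
    (P.φ t + t * P.ψ t) * P.v = t ^ k := by
  rw [P.ident t ht]
  exact div_mul_cancel₀ _ P.v_pos.ne'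

theorem ψ_m : P.ψ P.m = 0 := by
  have h := P.ident P.m P.ProfA_m_mem
  rw [P.φ_m, P.m_pow, div_self P.v_pos.ne'] at h
  have h2 : P.m * P.ψ P.m = 0 := by linarith
  exact (mul_eq_zero.1 h2).resolve_left P.m_pos.ne'

theorem ψ_one : P.ψ 1 = 1 / P.v := by
  have h := P.ident 1 P.ProfA_one_mem
  rw [P.φ_one, one_pow, one_mul, zero_add] at h
  exact h

/-- `0 ≤ φ` on `[m, 1]`: `0 = φ 1` and `φ` is nonincreasing; use `tangent` with the point `X` moved to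
`t`: `φ 1 ≤ φ X - ψ X (1 - X) ≤ φ X`. -/
theorem φ_nonneg (X : ℝ) (hX : X ∈ Set.Icc P.m 1) : 0 ≤ P.φ X := by
  have h := P.tangent 1 X P.ProfA_one_mem hX
  rw [P.φ_one] at h
  have h2 : 0 ≤ P.ψ X * (1 - X) := mul_nonneg (P.ψ_nonneg X hX) (by linarith [hX.2])
  linarith

/-- First coefficient `ψ(t) v / t^k` of the functional tangent at `t`. -/
noncomputable def c₁ (t : ℝ) : ℝ := P.ψ t * P.v / t ^ k

/-- Second coefficient `v / t^k` of the functional tangent at `t`. -/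
noncomputable def c₂ (t : ℝ) : ℝ := P.v / t ^ k

theorem c₁_nonneg (t : ℝ) (ht : t ∈ Set.Icc P.m 1) : 0 ≤ P.c₁ t := by
  unfold c₁
  exact div_nonneg (mul_nonneg (P.ψ_nonneg t ht) P.v_pos.le) (pow_pos (P.ProfA_pos ht) k).le

/-- `ψ t ≤ φ t + t ψ t` is the tangent inequality at `X = 1`. -/
theorem c₁_le (t : ℝ) (ht : t ∈ Set.Icc P.m 1) : P.c₁ t ≤ 1 := by
  unfold c₁
  rw [div_le_one (pow_pos (P.ProfA_pos ht) k), ← P.ProfA_ident ht]
  refine mul_le_mul_of_nonneg_right ?_ P.v_pos.le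
  have h := P.tangent 1 t P.ProfA_one_mem ht
  rw [P.φ_one] at h
  linarith

theorem c₂_nonneg (t : ℝ) (ht : t ∈ Set.Icc P.m 1) : 0 ≤ P.c₂ t := by
  unfold c₂
  exact div_nonneg P.v_pos.le (pow_pos (P.ProfA_pos ht) k).le

theorem c₂_le (t : ℝ) (ht : t ∈ Set.Icc P.m 1) : P.c₂ t ≤ 1 := by
  unfold c₂
  rw [div_le_one (pow_pos (P.ProfA_pos ht) k), ← P.m_pow]
  exact pow_le_pow_left₀ P.m_pos.le ht.1 k

/-- The points `(X, φ X)` of the profile are in the ball. -/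
theorem profile_mem (X t : ℝ) (hX : X ∈ Set.Icc P.m 1) (ht : t ∈ Set.Icc P.m 1) :
    P.c₁ t * X + P.c₂ t * P.φ X ≤ 1 := by
  have htk := pow_pos (P.ProfA_pos ht) k
  have h1 : P.c₁ t * X + P.c₂ t * P.φ X = (P.ψ t * X + P.φ X) * P.v / t ^ k := by
    unfold c₁ c₂
    ring
  rw [h1, div_le_one htk, ← P.ProfA_ident ht]
  refine mul_le_mul_of_nonneg_right ?_ P.v_pos.le
  have h := P.tangent X t hX ht
  linarith

end Profile

end Pool.Agent.Lib.MP_a7c449_an
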