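import Pool.Agent.Lib.MP_a7c449_an.ProfA

set_option autoImplicit false

/-!
The plane of a profile.
-/

namespace Pool.Agent.Lib.MP_a7c449_an

namespace Profile

variable {k : ℕ} (P : Profile k)

/-- A dense sequence in `[m, 1] × S¹`. -/
noncomputable def point (n : ℕ) : Set.Icc P.m 1 × Circle :=
  haveI : Nonempty (Set.Icc P.m 1) := ⟨⟨1, P.m_lt.le, le_rfl⟩⟩
  TopologicalSpace.denseSeq (Set.Icc P.m 1 × Circle) n

/-- The first coefficients. -/
noncomputable def α (n : ℕ) : ℂ := (P.c₁ (P.point n).1 : ℂ)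

/-- The second coefficients. -/
noncomputable def β (n : ℕ) : ℂ := ((P.point n).2 : ℂ) * (P.c₂ (P.point n).1 : ℂ)

private theorem ne_zero_of_mem {t : ℝ} (ht : t ∈ Set.Icc P.m 1) : t ^ k ≠ 0 :=
  pow_ne_zero _ (lt_of_lt_of_le P.m_pos ht.1).ne'

private theorem c₁_cont : ContinuousOn P.c₁ (Set.Icc P.m 1) := by
  unfold c₁
  exact (P.ψ_cont.mul continuousOn_const).div (continuousOn_id.pow k)
    fun t ht => P.ne_zero_of_mem ht

private theorem c₂_cont : ContinuousOn P.c₂ (Set.Icc P.m 1) := by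
  unfold c₂
  exact continuousOn_const.div (continuousOn_id.pow k) fun t ht => P.ne_zero_of_mem ht

private theorem exists_phase (z : ℂ) : ∃ e : Circle, (‖z‖ : ℂ) * (e : ℂ) = z := by
  refine ⟨Circle.exp (Complex.arg z), ?_⟩
  rw [Circle.coe_exp]
  exact Complex.norm_mul_exp_arg_mul_I z

private theorem norm_c₁ {t : ℝ} (ht : t ∈ Set.Icc P.m 1) : ‖(P.c₁ t : ℂ)‖ = P.c₁ t := by
  rw [Complex.norm_real, Real.norm_of_nonneg (P.c₁_nonneg t ht)]

private theorem norm_c₂ {t : ℝ} (ht : t ∈ Set.Icc P.m 1) : ‖(P.c₂ t : ℂ)‖ = P.c₂ t := by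
  rw [Complex.norm_real, Real.norm_of_nonneg (P.c₂_nonneg t ht)]

/-- `(⇐)` triangle inequality. `(⇒)` by density and continuity (in `t ∈ [m,1]` and in the phase)
`|c₁(t) x + ζ c₂(t) y| ≤ r` for all `t` and all `|ζ| = 1`; choose the phase `ζ` aligning the two
terms. -/
theorem ball_iff (x y : ℂ) (r : ℝ) :
    (∀ n, ‖P.α n * x + P.β n * y‖ ≤ r) ↔
      ∀ t ∈ Set.Icc P.m 1, P.c₁ t * ‖x‖ + P.c₂ t * ‖y‖ ≤ r := by
  constructor
  · intro h t ht
    have h1 : Continuous fun p : Set.Icc P.m 1 × Circle =>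
        ‖(P.c₁ p.1 : ℂ) * x + ((p.2 : ℂ) * (P.c₂ p.1 : ℂ)) * y‖ := by
      have hc1 : Continuous fun p : Set.Icc P.m 1 × Circle => (P.c₁ p.1 : ℂ) :=
        Complex.continuous_ofReal.comp
          ((continuousOn_iff_continuous_domRestrict.1 P.c₁_cont).comp continuous_fst)
      have hc2 : Continuous fun p : Set.Icc P.m 1 × Circle => (P.c₂ p.1 : ℂ) :=
        Complex.continuous_ofReal.comp
          ((continuousOn_iff_continuous_domRestrict.1 P.c₂_cont).comp continuous_fst)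
      have hz : Continuous fun p : Set.Icc P.m 1 × Circle => (p.2 : ℂ) :=
        continuous_subtype_val.comp continuous_snd
      exact ((hc1.mul continuous_const).add ((hz.mul hc2).mul continuous_const)).norm
    have h2 : IsClosed {p : Set.Icc P.m 1 × Circle |
        ‖(P.c₁ p.1 : ℂ) * x + ((p.2 : ℂ) * (P.c₂ p.1 : ℂ)) * y‖ ≤ r} :=
      isClosed_le h1 continuous_const
    have h3 : ∀ p : Set.Icc P.m 1 × Circle,
        ‖(P.c₁ p.1 : ℂ) * x + ((p.2 : ℂ) * (P.c₂ p.1 : ℂ)) * y‖ ≤ r := by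
      haveI : Nonempty (Set.Icc P.m 1) := ⟨⟨1, P.m_lt.le, le_rfl⟩⟩
      have h4 : DenseRange (TopologicalSpace.denseSeq (Set.Icc P.m 1 × Circle)) :=
        TopologicalSpace.denseRange_denseSeq _
      intro p
      have h5 : Set.range (TopologicalSpace.denseSeq (Set.Icc P.m 1 × Circle)) ⊆
          {p : Set.Icc P.m 1 × Circle |
            ‖(P.c₁ p.1 : ℂ) * x + ((p.2 : ℂ) * (P.c₂ p.1 : ℂ)) * y‖ ≤ r} := by
        rintro _ ⟨n, rfl⟩
        exact h n
      exact h2.closure_subset_iff.2 h5 (h4 p)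
    obtain ⟨e, he⟩ := exists_phase x
    obtain ⟨f, hf⟩ := exists_phase y
    have h6 := h3 (⟨t, ht⟩, e / f)
    simp only at h6
    have hfz : (f : ℂ) ≠ 0 := Circle.coe_ne_zero f
    have h7 : (P.c₁ t : ℂ) * x + (((e / f : Circle) : ℂ) * (P.c₂ t : ℂ)) * y =
        ((P.c₁ t * ‖x‖ + P.c₂ t * ‖y‖ : ℝ) : ℂ) * (e : ℂ) := by
      rw [← he, ← hf, Circle.coe_div]
      simp only [norm_mul, Complex.norm_real, norm_norm, Circle.norm_coe, mul_one]
      push_cast
      field_simp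
    rw [h7, norm_mul, Circle.norm_coe, mul_one, Complex.norm_real, Real.norm_of_nonneg] at h6
    · exact h6
    · exact add_nonneg (mul_nonneg (P.c₁_nonneg t ht) (norm_nonneg _))
        (mul_nonneg (P.c₂_nonneg t ht) (norm_nonneg _))
  · intro h n
    refine le_trans (norm_add_le _ _) ?_
    have h1 := h (P.point n).1 (P.point n).1.2
    unfold α β
    rw [norm_mul, norm_mul, norm_mul, Circle.norm_coe, one_mul, P.norm_c₁ (P.point n).1.2,
      P.norm_c₂ (P.point n).1.2]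
    exact h1

theorem α_le (n : ℕ) : ‖P.α n‖ ≤ 1 := by
  unfold α
  rw [P.norm_c₁ (P.point n).1.2]
  exact P.c₁_le _ (P.point n).1.2

theorem β_le (n : ℕ) : ‖P.β n‖ ≤ 1 := by
  unfold β
  rw [norm_mul, Circle.norm_coe, one_mul, P.norm_c₂ (P.point n).1.2]
  exact P.c₂_le _ (P.point n).1.2

/-- `t = 1` gives `|x| + v |y| ≤ C`, `t = m` gives `|y| ≤ C`. -/
theorem lower (x y : ℂ) (C : ℝ) (h : ∀ n, ‖P.α n * x + P.β n * y‖ ≤ C) : ‖x‖ ≤ C ∧ ‖y‖ ≤ C := by
  rw [P.ball_iff] at h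
  have hv := P.v_pos
  have h1 := h 1 ⟨P.m_lt.le, le_rfl⟩
  have h2 := h P.m ⟨le_rfl, P.m_lt.le⟩
  have e1 : P.c₁ 1 = 1 := by
    unfold c₁
    rw [P.ψ_one, one_pow, div_one, one_div, inv_mul_cancel₀ hv.ne']
  have e2 : P.c₂ 1 = P.v := by
    unfold c₂
    rw [one_pow, div_one]
  have e3 : P.c₁ P.m = 0 := by
    unfold c₁
    rw [P.ψ_m, zero_mul, zero_div]
  have e4 : P.c₂ P.m = 1 := by
    unfold c₂
    rw [P.m_pow, div_self hv.ne']
  rw [e1, e2] at h1
  rw [e3, e4] at h2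
  constructor
  · have : 0 ≤ P.v * ‖y‖ := mul_nonneg hv.le (norm_nonneg _)
    linarith
  · linarith

/-- The plane of the profile. -/
noncomputable def plane : PlaneData ℂ where
  α := P.α
  β := P.β
  hα := P.α_le
  hβ := P.β_le
  lower := P.lower

theorem inBall_iff (x y : ℂ) (r : ℝ) :
    P.plane.InBall x y r ↔ ∀ t ∈ Set.Icc P.m 1, P.c₁ t * ‖x‖ + P.c₂ t * ‖y‖ ≤ r :=
  P.ball_iff x y r

end Profile

end Pool.Agent.Lib.MP_a7c449_an
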