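import Pool.Agent.Lib.MP_a7c449_an.C0

set_option autoImplicit false

/-!
Sobczyk's theorem (Veech's proof), part A: extension of the coordinates of `c₀`.
-/

namespace Pool.Agent.Lib.MP_a7c449_an

open scoped ZeroAtInfty

universe u

variable {𝕜 : Type*} [RCLike 𝕜]

variable {X : Type u} [NormedAddCommGroup X] [NormedSpace 𝕜 X]

/-- Hahn-Banach extension of `δ_n ∘ j⁻¹` from the range of `j` (norm at most `1/c` there). -/
theorem exists_extension (j : C₀(ℕ, 𝕜) →L[𝕜] X) (c : ℝ) (hc : 0 < c)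
    (hj : ∀ z, c * ‖z‖ ≤ ‖j z‖) (n : ℕ) :
    ∃ f : StrongDual 𝕜 X, ‖f‖ ≤ 1 / c ∧ ∀ z, f (j z) = z n := by
  have hinj : Function.Injective (j : C₀(ℕ, 𝕜) →ₗ[𝕜] X) := by
    rw [injective_iff_map_eq_zero]
    intro z hz
    have h1 := hj z
    have h2 : j z = 0 := hz
    rw [h2, norm_zero] at h1
    have h3 : ‖z‖ ≤ 0 := by
      by_contra hcon
      push Not at hcon
      have := mul_pos hc hcon
      linarith
    exact norm_le_zero_iff.mp h3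
  let e := LinearEquiv.ofInjective (j : C₀(ℕ, 𝕜) →ₗ[𝕜] X) hinj
  let g0 : (LinearMap.range (j : C₀(ℕ, 𝕜) →ₗ[𝕜] X)) →ₗ[𝕜] 𝕜 :=
    (c0eval (𝕜 := 𝕜) n : C₀(ℕ, 𝕜) →ₗ[𝕜] 𝕜) ∘ₗ (e.symm : _ →ₗ[𝕜] C₀(ℕ, 𝕜))
  have hg0 : ∀ y, ‖g0 y‖ ≤ (1 / c) * ‖y‖ := by
    intro y
    obtain ⟨z, rfl⟩ := e.surjective y
    have h1 : g0 (e z) = z n := by
      show c0eval n (e.symm (e z)) = z n
      rw [LinearEquiv.symm_apply_apply, c0eval_apply]
    have h2 : ‖e z‖ = ‖j z‖ := rfl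
    rw [h1, h2]
    have h3 := norm_coord_le z n
    have h4 := hj z
    have h5 : ‖z‖ ≤ 1 / c * ‖j z‖ := by
      rw [div_mul_eq_mul_div, one_mul, le_div_iff₀ hc, mul_comm]
      exact h4
    exact h3.trans h5
  let g : StrongDual 𝕜 (LinearMap.range (j : C₀(ℕ, 𝕜) →ₗ[𝕜] X)) := g0.mkContinuous (1 / c) hg0
  obtain ⟨f, hf1, hf2⟩ := exists_extension_norm_eq
    (LinearMap.range (j : C₀(ℕ, 𝕜) →ₗ[𝕜] X)) g
  refine ⟨f, ?_, ?_⟩
  · rw [hf2]
    exact LinearMap.mkContinuous_norm_le _ (by positivity) _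
  · intro z
    have h1 := hf1 (e z)
    have h2 : ((e z : LinearMap.range (j : C₀(ℕ, 𝕜) →ₗ[𝕜] X)) : X) = j z := rfl
    rw [h2] at h1
    rw [h1]
    show c0eval n (e.symm (e z)) = z n
    rw [LinearEquiv.symm_apply_apply, c0eval_apply]

end Pool.Agent.Lib.MP_a7c449_an
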