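import Pool.Agent.Lib.MP_a7c449_an.SobA

set_option autoImplicit false

/-!
Sobczyk's theorem, part B: the functionals `f_n` approach the annihilator of `c₀` in the weak*
topology.
-/

namespace Pool.Agent.Lib.MP_a7c449_an

open scoped ZeroAtInfty Topology

universe u

variable {𝕜 : Type*} [RCLike 𝕜] {X : Type u} [NormedAddCommGroup X] [NormedSpace 𝕜 X]

/-- Banach-Alaoglu: a sequence of functionals of norm at most `B` has, along every ultrafilter `𝓤` of
`ℕ`, a pointwise limit `g` of norm at most `B`. (Bounded sequences of scalars converge along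
ultrafilters; or `WeakDual.isCompact_closedBall`.) -/
theorem exists_ultralimit (f : ℕ → StrongDual 𝕜 X) (B : ℝ) (hf : ∀ n, ‖f n‖ ≤ B)
    (𝓤 : Ultrafilter ℕ) :
    ∃ g : StrongDual 𝕜 X, ‖g‖ ≤ B ∧ ∀ x, Filter.Tendsto (fun n => f n x) 𝓤 (𝓝 (g x)) := by
  have hB : 0 ≤ B := (norm_nonneg _).trans (hf 0)
  have h1 : ∀ x : X, ∃ a : 𝕜, ‖a‖ ≤ B * ‖x‖ ∧ Filter.Tendsto (fun n => f n x) 𝓤 (𝓝 a) := by
    intro x
    have hc : IsCompact (Metric.closedBall (0 : 𝕜) (B * ‖x‖)) := isCompact_closedBall _ _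
    have hm : ((𝓤.map fun n => f n x : Ultrafilter 𝕜) : Filter 𝕜) ≤
        Filter.principal (Metric.closedBall (0 : 𝕜) (B * ‖x‖)) := by
      rw [Filter.le_principal_iff]
      refine Filter.univ_mem' (f := (𝓤 : Filter ℕ)) fun n => ?_
      simp only [Set.mem_preimage, Metric.mem_closedBall, dist_zero_right]
      exact ((f n).le_opNorm x).trans (mul_le_mul_of_nonneg_right (hf n) (norm_nonneg x))
    obtain ⟨a, ha, hle⟩ := hc.ultrafilter_le_nhds _ hm
    refine ⟨a, by simpa using ha, ?_⟩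
    exact hle
  choose a ha hta using h1
  have hadd : ∀ x y, a (x + y) = a x + a y := by
    intro x y
    refine tendsto_nhds_unique (hta (x + y)) ?_
    have := (hta x).add (hta y)
    simpa only [map_add] using this
  have hsmul : ∀ (c : 𝕜) (x : X), a (c • x) = c • a x := by
    intro c x
    refine tendsto_nhds_unique (hta (c • x)) ?_
    have := (hta x).const_smul c
    simpa only [map_smul] using this
  let g0 : X →ₗ[𝕜] 𝕜 := { toFun := a, map_add' := hadd, map_smul' := hsmul }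
  refine ⟨g0.mkContinuous B ha, ?_, ?_⟩
  · exact LinearMap.mkContinuous_norm_le _ hB _
  · intro x
    exact hta x

/-- For every finite set of test vectors `x 0, …, x r` and every `ε > 0`, all but finitely many `f n`
are `ε`-close on it to some `g` of norm at most `B` vanishing on the range of `j`: otherwise
take an ultrafilter containing all tails and the set of bad `n`, and its limit `g`; `g ∘ j = 0`
because `f n (j z) = z n → 0`. -/
theorem eventually_close (j : C₀(ℕ, 𝕜) →L[𝕜] X) (f : ℕ → StrongDual 𝕜 X) (B : ℝ)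
    (hf : ∀ n, ‖f n‖ ≤ B) (hfj : ∀ n z, f n (j z) = z n) (x : ℕ → X) (r : ℕ) (ε : ℝ) (hε : 0 < ε) :
    ∀ᶠ n in Filter.atTop, ∃ g : StrongDual 𝕜 X, ‖g‖ ≤ B ∧ (∀ z, g (j z) = 0) ∧
      ∀ m ≤ r, ‖f n (x m) - g (x m)‖ < ε := by
  by_contra hcon
  rw [Filter.not_eventually] at hcon
  set S : Set ℕ := {n | ¬ ∃ g : StrongDual 𝕜 X, ‖g‖ ≤ B ∧ (∀ z, g (j z) = 0) ∧
      ∀ m ≤ r, ‖f n (x m) - g (x m)‖ < ε} with hS
  have hne : (Filter.atTop ⊓ Filter.principal S).NeBot := Filter.frequently_mem_iff_neBot.1 hcon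
  set 𝓤 : Ultrafilter ℕ := Ultrafilter.of (Filter.atTop ⊓ Filter.principal S) with h𝓤
  have hle : (𝓤 : Filter ℕ) ≤ Filter.atTop ⊓ Filter.principal S := Ultrafilter.of_le _
  have hle1 : (𝓤 : Filter ℕ) ≤ Filter.atTop := hle.trans inf_le_left
  have hle2 : S ∈ (𝓤 : Filter ℕ) := (hle.trans inf_le_right) (Filter.mem_principal_self S)
  obtain ⟨g, hg, hlim⟩ := exists_ultralimit f B hf 𝓤
  have hgj : ∀ z, g (j z) = 0 := by
    intro z
    refine tendsto_nhds_unique (hlim (j z)) ?_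
    have h1 : Filter.Tendsto (fun n => z n) (Filter.cocompact ℕ) (𝓝 0) := z.zero_at_infty'
    rw [Filter.cocompact_eq_cofinite, Nat.cofinite_eq_atTop] at h1
    have h2 := h1.mono_left hle1
    simpa only [hfj] using h2
  have hev : ∀ᶠ n in (𝓤 : Filter ℕ), ∀ m ∈ Finset.range (r + 1), ‖f n (x m) - g (x m)‖ < ε := by
    rw [Finset.eventually_all]
    intro m _
    have h1 := hlim (x m)
    rw [Metric.tendsto_nhds] at h1
    filter_upwards [h1 ε hε] with n hn
    rwa [dist_eq_norm] at hn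
  obtain ⟨n, hn1, hn2⟩ := (hev.and hle2).exists
  apply hn2
  exact ⟨g, hg, hgj, fun m hm => hn1 m (Finset.mem_range.2 (by omega))⟩

/-- Diagonal choice of the `g n`. -/
theorem exists_close (j : C₀(ℕ, 𝕜) →L[𝕜] X) (f : ℕ → StrongDual 𝕜 X) (B : ℝ) (hB : 0 ≤ B)
    (hf : ∀ n, ‖f n‖ ≤ B) (hfj : ∀ n z, f n (j z) = z n) (x : ℕ → X) :
    ∃ g : ℕ → StrongDual 𝕜 X, (∀ n, ‖g n‖ ≤ B) ∧ (∀ n z, g n (j z) = 0) ∧
      ∀ m, Filter.Tendsto (fun n => f n (x m) - g n (x m)) Filter.atTop (𝓝 0) := by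
  classical
  set P : ℕ → ℕ → Prop := fun n k => ∃ g : StrongDual 𝕜 X, ‖g‖ ≤ B ∧ (∀ z, g (j z) = 0) ∧
      ∀ m ≤ k, ‖f n (x m) - g (x m)‖ < 1 / ((k : ℝ) + 1) with hP
  have hex : ∀ n, ∃ g : StrongDual 𝕜 X, ‖g‖ ≤ B ∧ (∀ z, g (j z) = 0) ∧
      (P n (Nat.findGreatest (P n) n) → ∀ m ≤ Nat.findGreatest (P n) n,
        ‖f n (x m) - g (x m)‖ < 1 / ((Nat.findGreatest (P n) n : ℝ) + 1)) := by
    intro n
    by_cases h : P n (Nat.findGreatest (P n) n)
    · obtain ⟨g, h1, h2, h3⟩ := h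
      exact ⟨g, h1, h2, fun _ => h3⟩
    · exact ⟨0, by simpa using hB, fun z => rfl, fun h' => absurd h' h⟩
  choose g h1 h2 h3 using hex
  refine ⟨g, h1, h2, fun m => ?_⟩
  rw [Metric.tendsto_atTop]
  intro ε hε
  obtain ⟨k0, hk0⟩ := exists_nat_one_div_lt hε
  set k := max k0 m with hk
  have hev := eventually_close j f B hf hfj x k (1 / ((k : ℝ) + 1)) (by positivity)
  obtain ⟨n0, hn0⟩ := Filter.eventually_atTop.1 hev
  refine ⟨max n0 k, fun n hn => ?_⟩
  have hn1 : n0 ≤ n := (le_max_left _ _).trans hn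
  have hn2 : k ≤ n := (le_max_right _ _).trans hn
  have hPk : P n k := hn0 n hn1
  have hle : k ≤ Nat.findGreatest (P n) n := Nat.le_findGreatest hn2 hPk
  have hspec : P n (Nat.findGreatest (P n) n) := Nat.findGreatest_spec hn2 hPk
  have h4 := h3 n hspec m ((le_max_right _ _).trans hle)
  rw [dist_zero_right]
  refine h4.trans (lt_of_le_of_lt ?_ hk0)
  refine one_div_le_one_div_of_le (by positivity) ?_
  have h5 : (k0 : ℝ) ≤ (Nat.findGreatest (P n) n : ℝ) := by
    exact_mod_cast (le_max_left k0 m).trans hle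
  linarith

end Pool.Agent.Lib.MP_a7c449_an
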